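import Pool.Agent.MP_81e6aa_pr.Finite

/-!
Choice of the parameters.
-/

set_option autoImplicit false

namespace Pool.Agent.MP_81e6aa_pr

open Finset

noncomputable section

variable {V E : Type} [Fintype V] [DecidableEq V] [Fintype E] [DecidableEq E] {pr : V → V → E}

lemma err_phase {n A s : ℕ} (hn : 0 < n) (h : n ≤ A * s) :
    (4 : ℝ) ^ n * (2 * Real.exp (-(1 + 3 * A : ℝ))) ^ s ≤ 1 / n := by
  have h1 : Real.exp (-1) ≤ 1 / 2 := by
    rw [Real.exp_neg, one_div]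
    exact inv_anti₀ (by norm_num) (by linarith [Real.add_one_le_exp (1 : ℝ)])
  have h2 : 2 * Real.exp (-(1 + 3 * A : ℝ)) ≤ (1 / 8) ^ A := by
    have e : Real.exp (-(1 + 3 * A : ℝ)) = Real.exp (-1) * (Real.exp (-1) ^ 3) ^ A := by
      rw [← pow_mul, ← Real.exp_nat_mul, ← Real.exp_add]; congr 1; push_cast; ring
    have h3 : (Real.exp (-1) ^ 3) ^ A ≤ (1 / 8) ^ A := by
      refine pow_le_pow_left₀ (by positivity) ?_ A
      exact (pow_le_pow_left₀ (by positivity) h1 3).trans (by norm_num)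
    rw [e]
    have := mul_le_mul h1 h3 (by positivity) (by norm_num)
    linarith
  have h4 : (2 * Real.exp (-(1 + 3 * A : ℝ))) ^ s ≤ (1 / 8) ^ n := by
    refine (pow_le_pow_left₀ (by positivity) h2 s).trans ?_
    rw [← pow_mul]
    exact pow_le_pow_of_le_one (by norm_num) (by norm_num) h
  refine (mul_le_mul_of_nonneg_left h4 (by positivity)).trans ?_
  rw [← mul_pow, show (4 : ℝ) * (1 / 8) = 1 / 2 by norm_num, one_div, inv_pow, one_div]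
  exact inv_anti₀ (by exact_mod_cast hn) (by exact_mod_cast (Nat.lt_two_pow_self).le)

lemma exp_neg_le {z : ℝ} (hz : 0 < z) : Real.exp (-z) ≤ 24 / z ^ 4 := by
  have := Real.pow_div_factorial_le_exp z hz.le 4
  rw [Real.exp_neg, inv_eq_one_div, div_le_div_iff₀ (Real.exp_pos _) (by positivity)]
  norm_num [Nat.factorial] at this
  linarith

lemma nat_facts {W M m s : ℕ} (hW : 0 < W) (H1 : 128 * W ^ 2 ≤ M) (hm : m = M / W)
    (hs : s = m / (32 * W)) : W * m ≤ M ∧ M ≤ 2 * W * m ∧ 32 * W * s ≤ m ∧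
      3 * M ≤ 384 * W ^ 2 * s ∧ 0 < m ∧ m ≤ M ∧ 2 * s ≤ 3 * m := by
  have m1 : W * m ≤ M := hm ▸ Nat.mul_div_le _ _
  have m2 : 128 * W ≤ m := by
    rw [hm, Nat.le_div_iff_mul_le hW]; linarith
  have m3 : M ≤ 2 * W * m := by
    have := Nat.lt_mul_div_succ M hW
    rw [← hm] at this
    have h2 : W * 1 ≤ W * m := Nat.mul_le_mul_left _ (by omega)
    linarith
  have s1 : 32 * W * s ≤ m := hs ▸ Nat.mul_div_le _ _
  have s2 : 1 ≤ s := by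
    rw [hs, Nat.le_div_iff_mul_le (by positivity)]; omega
  have s3 : m ≤ 64 * W * s := by
    have := Nat.lt_mul_div_succ m (show 0 < 32 * W by positivity)
    rw [← hs] at this
    have h2 : W * 1 ≤ W * s := Nat.mul_le_mul_left _ s2
    linarith
  have s4 : W * m ≤ W * (64 * W * s) := Nat.mul_le_mul_left _ s3
  have s5 : 1 * s ≤ W * s := Nat.mul_le_mul_right _ hW
  exact ⟨m1, m3, s1, by linarith, by omega, hm ▸ Nat.div_le_self _ _, by linarith⟩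

lemma cond_lam {x y c p A K2 s : ℝ} (hp : p = c * y / x ^ 2) (hc1 : 1 ≤ c) (hx0 : 0 < x)
    (hy1 : 1 ≤ y) (hA0 : 0 < A) (hK : 0 < K2) (s4' : x ^ 3 ≤ A * s)
    (H4 : 20 * (1 + 3 * A) * (K2 * A) ≤ x) (H5 : 54 * (1 + 3 * A) * (K2 * A) ^ 2 ≤ y) :
    20 * (1 + 3 * A) ≤ p / K2 * s ∧
      1 + 3 * A ≤ p * (2 / 3 * (p / K2 * s) * (2 / 3 * (p / K2 * s) - 1)) / 12 := by
  have hy0 : 0 < y := by linarith
  have hc0 : 0 < c := by linarith
  have hp0 : 0 < p := by rw [hp]; positivity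
  have hqs : c * y * x / (K2 * A) ≤ p / K2 * s := by
    have : p / K2 * s = c * y * (A * s) / (x ^ 2 * (K2 * A)) := by rw [hp]; field_simp
    rw [this, div_le_div_iff₀ (by positivity) (by positivity)]
    have := mul_le_mul_of_nonneg_left s4' (show 0 ≤ c * y * (K2 * A) by positivity)
    linarith
  have hcy : 1 ≤ c * y := one_le_mul_of_one_le_of_one_le hc1 hy1
  have hl1 : 20 * (1 + 3 * A) ≤ p / K2 * s := by
    refine le_trans ?_ hqs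
    rw [le_div_iff₀ (by positivity)]
    exact H4.trans (le_mul_of_one_le_left hx0.le hcy)
  refine ⟨hl1, ?_⟩
  have a3 : 54 * (1 + 3 * A) ≤ p * (c * y * x / (K2 * A)) ^ 2 := by
    have : p * (c * y * x / (K2 * A)) ^ 2 = (c * y) ^ 2 * c * y / (K2 * A) ^ 2 := by
      rw [hp]; field_simp
    rw [this, le_div_iff₀ (by positivity)]
    refine H5.trans (le_mul_of_one_le_left hy0.le ?_)
    exact one_le_mul_of_one_le_of_one_le (one_le_pow₀ hcy) hc1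
  have a1 : (c * y * x / (K2 * A)) ^ 2 ≤ (p / K2 * s) ^ 2 :=
    pow_le_pow_left₀ (by positivity) hqs 2
  generalize p / K2 * s = z at *
  generalize c * y * x / (K2 * A) = u at *
  have hz : 20 ≤ z := by linarith
  have a2 : 2 / 9 * z ^ 2 ≤ 2 / 3 * z * (2 / 3 * z - 1) := by nlinarith
  have a4 := mul_le_mul_of_nonneg_left a1 hp0.le
  have a5 := mul_le_mul_of_nonneg_left a2 hp0.le
  linarith

lemma cond_k {n k : ℕ} {y : ℝ} (hn : 0 < n) (hk : k = Nat.log 2 n + 1) (hy : y ^ 3 = Real.log n)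
    (hy1 : 1 ≤ y) : n < 2 ^ k ∧ y ≤ k ∧ (k : ℝ) ≤ 3 * y ^ 3 := by
  have hnk : n < 2 ^ k := hk ▸ Nat.lt_pow_succ_log_self (by norm_num) _
  have hn' : (0 : ℝ) < n := by exact_mod_cast hn
  have hy3 : y ≤ y ^ 3 := le_self_pow₀ hy1 (by norm_num)
  refine ⟨hnk, hy3.trans ?_, ?_⟩
  · rw [hy]
    have : (n : ℝ) ≤ 2 ^ k := by exact_mod_cast hnk.le
    refine (Real.log_le_log hn' this).trans ?_
    rw [Real.log_pow]
    exact mul_le_of_le_one_right (by positivity) (by linarith [Real.log_two_lt_d9])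
  · have a1 : (2 : ℝ) ^ Nat.log 2 n ≤ n := by
      exact_mod_cast Nat.pow_log_le_self 2 (by omega)
    have a2 := Real.log_le_log (by positivity) a1
    rw [Real.log_pow, ← hy] at a2
    have a3 : (Nat.log 2 n : ℝ) * (1 / 2) ≤ Nat.log 2 n * Real.log 2 :=
      mul_le_mul_of_nonneg_left (by linarith [Real.log_two_gt_d9]) (by positivity)
    rw [hk]; push_cast
    linarith

lemma cond_qc {x y c p M k : ℝ} (hp : p = c * y / x ^ 2) (hc : c = 30000) (hx0 : 0 < x)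
    (hy0 : 0 < y) (hM : x ^ 3 = 3 * M) (hk : k ≤ 3 * y ^ 3) :
    24 * k * (6 * (57600 / (p * M)) ^ 2) ≤ p / 2 := by
  have hM3 : M = x ^ 3 / 3 := by linarith
  have hc0 : 0 < c := by rw [hc]; norm_num
  have : 24 * k * (6 * (57600 / (p * M)) ^ 2) = p * (1296 * 57600 ^ 2 * k / (c ^ 3 * y ^ 3)) := by
    rw [hp, hM3]; field_simp; ring
  rw [this, div_eq_mul_one_div p]
  refine mul_le_mul_of_nonneg_left ?_ (by rw [hp]; positivity)
  rw [div_le_div_iff₀ (by positivity) (by norm_num), hc]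
  have : 0 < y ^ 3 := by positivity
  linarith

lemma err_pick {x y c p M K m : ℝ} (hp : p = c * y / x ^ 2) (hc : c = 30000) (hx0 : 0 < x)
    (hy1 : 1 ≤ y) (hM : x ^ 3 = 3 * M) (hK : 0 < K) (m3 : M ≤ 2 * K ^ 4 * m) :
    x ^ 3 * 60 * Real.exp (-(7 / 8 * (8 * p / K ^ 2 / 240 * m)) / 20) ≤ 1440 * K ^ 24 / x := by
  have hM3 : M = x ^ 3 / 3 := by linarith
  have hM0 : 0 < M := by rw [hM3]; positivity
  have hc0 : 0 < c := by rw [hc]; norm_num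
  have a1 : x / K ^ 6 ≤ 7 / 8 * (8 * p / K ^ 2 / 240 * m) / 20 := by
    have : 7 / 8 * (8 * p / K ^ 2 / 240 * m) / 20 =
        7 * c * y * (2 * K ^ 4 * m) / (9600 * x ^ 2 * K ^ 6) := by rw [hp]; field_simp; ring
    rw [this, div_le_div_iff₀ (by positivity) (by positivity)]
    have b1 : 7 * c * 1 * M ≤ 7 * c * y * (2 * K ^ 4 * m) :=
      mul_le_mul (mul_le_mul_of_nonneg_left hy1 (by positivity)) m3 hM0.le (by positivity)
    have b2 := mul_le_mul_of_nonneg_right b1 (show (0 : ℝ) ≤ K ^ 6 by positivity)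
    refine le_trans ?_ b2
    rw [hM3, hc]
    have : 0 ≤ x ^ 3 * K ^ 6 := by positivity
    linarith
  have a2 : Real.exp (-(7 / 8 * (8 * p / K ^ 2 / 240 * m)) / 20) ≤ 24 / (x / K ^ 6) ^ 4 :=
    le_trans (Real.exp_le_exp.2 (by linarith)) (exp_neg_le (by positivity))
  refine (mul_le_mul_of_nonneg_left a2 (by positivity)).trans (le_of_eq ?_)
  field_simp; ring

lemma err_count {x y c p N P : ℝ} (hp : p = c * y / x ^ 2) (hc : c = 30000) (hx1 : 1 ≤ x)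
    (hy1 : 1 ≤ y) (hN : N ≤ x ^ 6 / 2) (hP0 : 0 ≤ P) (hP : P ≤ 5 * p) :
    Real.exp (N * P) / 2 ^ ⌈5 * c * (x ^ 4 * y)⌉₊ ≤ 24 / x := by
  have hx0 : 0 < x := by linarith
  have a1 : N * P ≤ 5 / 2 * c * (x ^ 4 * y) := by
    refine (mul_le_mul hN hP hP0 (by positivity)).trans (le_of_eq ?_)
    rw [hp]; field_simp
  have a2 : Real.exp (5 * c * (x ^ 4 * y) * (2 / 3)) ≤ 2 ^ ⌈5 * c * (x ^ 4 * y)⌉₊ := by
    have : (2 : ℝ) ^ ⌈5 * c * (x ^ 4 * y)⌉₊ = Real.exp (⌈5 * c * (x ^ 4 * y)⌉₊ * Real.log 2) := by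
      rw [Real.exp_nat_mul, Real.exp_log (by norm_num)]
    rw [this, Real.exp_le_exp]
    exact mul_le_mul (Nat.le_ceil _) (by linarith [Real.log_two_gt_d9]) (by norm_num)
      (by positivity)
  refine (div_le_div₀ (Real.exp_pos _).le (Real.exp_le_exp.2 a1) (Real.exp_pos _) a2).trans ?_
  rw [← Real.exp_sub]
  have a3 : x ≤ x ^ 4 * y :=
    (le_self_pow₀ hx1 (by norm_num)).trans (le_mul_of_one_le_right (by positivity) hy1)
  refine le_trans (Real.exp_le_exp.2 (show _ ≤ -x by rw [hc]; linarith)) ((exp_neg_le hx0).trans ?_)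
  exact div_le_div_of_nonneg_left (by norm_num) hx0 (le_self_pow₀ hx1 (by norm_num))

lemma err_budget {x y c p N P K m M : ℝ} (hp : p = c * y / x ^ 2) (hc0 : 0 < c) (hx0 : 0 < x)
    (hy0 : 0 < y) (hN : N ≤ x ^ 6 / 2) (hP0 : 0 ≤ P) (hP : P ≤ 5 * p) (hK : 1 ≤ K)
    (hM : x ^ 3 = 3 * M) (hm0 : 0 ≤ m) (m1 : K ^ 4 * m ≤ M) :
    (N * (p / K ^ 2) + N * (8 * p / K ^ 2) + m * x ^ 3 * p + (x ^ 3) ^ 3 * P ^ 3) /
      ⌈x ^ 4 * y / K⌉₊ ≤ 5 * c / K + 125 * c ^ 3 * K * y ^ 2 / x := by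
  have hp0 : 0 < p := by rw [hp]; positivity
  have hK0 : 0 < K := by linarith
  have a1 : m ≤ x ^ 3 / (2 * K ^ 2) := by
    rw [le_div_iff₀ (by positivity)]
    have b1 : K ^ 2 * m ≤ K ^ 4 * m :=
      mul_le_mul_of_nonneg_right (pow_le_pow_right₀ hK (by norm_num)) hm0
    have : 0 ≤ K ^ 2 * m := by positivity
    linarith
  have a2 : N * (p / K ^ 2) + N * (8 * p / K ^ 2) + m * x ^ 3 * p + (x ^ 3) ^ 3 * P ^ 3 ≤
      x ^ 6 / 2 * (p / K ^ 2) + x ^ 6 / 2 * (8 * p / K ^ 2) +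
      x ^ 3 / (2 * K ^ 2) * x ^ 3 * p + (x ^ 3) ^ 3 * (5 * p) ^ 3 := by
    gcongr
  refine (div_le_div₀ (by positivity) a2 (by positivity) (Nat.le_ceil _)).trans (le_of_eq ?_)
  rw [hp]; field_simp; ring

lemma cond_t {x y c N : ℝ} (hc0 : 0 < c) (hx1 : 1 ≤ x) (hy0 : 0 < y) (H2 : 30 * c * y ≤ x)
    (hN : (x ^ 3) ^ 2 ≤ 4 * N) : 5 * c * (x ^ 4 * y) ≤ N ∧ c * y / x ^ 2 ≤ 1 / 10 := by
  have a1 : 30 * c * y * x ^ 4 ≤ x * x ^ 4 := mul_le_mul_of_nonneg_right H2 (by positivity)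
  have a2 : x ^ 5 ≤ x ^ 6 := pow_le_pow_right₀ hx1 (by norm_num)
  have a3 : 0 ≤ c * y * x ^ 4 := by positivity
  refine ⟨by linarith, ?_⟩
  rw [div_le_div_iff₀ (by positivity) (by norm_num)]
  have a4 : x ≤ x ^ 2 := le_self_pow₀ hx1 (by norm_num)
  have a5 : 0 ≤ c * y := by positivity
  linarith

theorem param_bound (hpr : PairMap pr) {K M : ℕ} (hK : 3 ≤ K) (hn : Fintype.card V = 3 * M)
    (hE1 : 2 * Fintype.card E ≤ (3 * M) ^ 2) (hE2 : (3 * M) ^ 2 ≤ 4 * Fintype.card E)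
    {x y c ε : ℝ} (hc : c = 30000) (hx : x ^ 3 = 3 * M) (hy : y ^ 3 = Real.log (3 * M))
    (hx1 : 1 ≤ x) (hy1 : 1 ≤ y) (hε : 0 < ε)
    (H1 : 128 * (K ^ 4) ^ 2 ≤ M) (H2 : 30 * c * y ≤ x)
    (H4 : 20 * (1 + 3 * (384 * ((K : ℝ) ^ 4) ^ 2)) * (K ^ 2 * (384 * ((K : ℝ) ^ 4) ^ 2)) ≤ x)
    (H5 : 54 * (1 + 3 * (384 * ((K : ℝ) ^ 4) ^ 2)) * (K ^ 2 * (384 * ((K : ℝ) ^ 4) ^ 2)) ^ 2 ≤ y)
    (H6 : c ^ 14 * y ^ 14 / x ≤ ε) (H7 : 1 ≤ ε * y) (H8 : 1440 * K ^ 24 / x ≤ ε)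
    (H9 : 125 * c ^ 3 * K * y ^ 2 / x ≤ ε) :
    ∃ S : (Fin ⌈5 * c * (x ^ 4 * y)⌉₊ ↪ E) → Finset (Fin ⌈5 * c * (x ^ 4 * y)⌉₊),
      (∀ (σ σ' : Fin ⌈5 * c * (x ^ 4 * y)⌉₊ ↪ E) (i : Fin ⌈5 * c * (x ^ 4 * y)⌉₊),
        (∀ j, j ≤ i → σ j = σ' j) → (i ∈ S σ ↔ i ∈ S σ')) ∧
      (∀ σ, (S σ).card ≤ ⌈x ^ 4 * y / K⌉₊) ∧ ⌈5 * c * (x ^ 4 * y)⌉₊ ≤ Fintype.card E ∧
      (1 - (5 * c / K + 8 * ε)) * Fintype.card (Fin ⌈5 * c * (x ^ 4 * y)⌉₊ ↪ E) ≤
        ∑ σ : Fin ⌈5 * c * (x ^ 4 * y)⌉₊ ↪ E, ind (Fac pr (fun e => ∃ i ∈ S σ, σ i = e) univ) := by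
  have hK0 : 0 < K := by omega
  have hK' : (3 : ℝ) ≤ K := by exact_mod_cast hK
  have hK1 : (1 : ℝ) ≤ K := le_trans (by norm_num) hK'
  have hc1 : 1 ≤ c := by rw [hc]; norm_num
  have hc0 : 0 < c := zero_lt_one.trans_le hc1
  have hx0 : 0 < x := zero_lt_one.trans_le hx1
  have hy0 : 0 < y := zero_lt_one.trans_le hy1
  obtain ⟨m, hm⟩ : ∃ m, m = M / K ^ 4 := ⟨_, rfl⟩
  obtain ⟨s, hs⟩ : ∃ s, s = m / (32 * K ^ 4) := ⟨_, rfl⟩
  obtain ⟨k, hk⟩ : ∃ k, k = Nat.log 2 (3 * M) + 1 := ⟨_, rfl⟩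
  obtain ⟨m1, m3, s1, s4, hm0, hmM, hg⟩ := nat_facts (by positivity) H1 hm hs
  have hM0 : 0 < M := hm0.trans_le hmM
  have hm' : (0 : ℝ) < m := by exact_mod_cast hm0
  have hM' : (0 : ℝ) < M := by exact_mod_cast hM0
  have m1' : (K : ℝ) ^ 4 * m ≤ M := by exact_mod_cast m1
  have m3' : (M : ℝ) ≤ 2 * K ^ 4 * m := by exact_mod_cast m3
  obtain ⟨A, hA⟩ : ∃ A : ℝ, A = 384 * ((K : ℝ) ^ 4) ^ 2 := ⟨_, rfl⟩
  rw [← hA] at H4 H5
  have hA0 : 0 < A := by rw [hA]; positivity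
  have s4' : x ^ 3 ≤ A * s := by rw [hx, hA]; exact_mod_cast s4
  obtain ⟨p, hp⟩ : ∃ p : ℝ, p = c * y / x ^ 2 := ⟨_, rfl⟩
  have hp0 : 0 < p := by rw [hp]; positivity
  obtain ⟨ht, hp1⟩ := cond_t (N := Fintype.card E) hc0 hx1 hy0 H2
    (by rw [hx]; exact_mod_cast hE2)
  rw [← hp] at hp1
  have hK2 : (8 : ℝ) ≤ K ^ 2 := le_trans (by norm_num) (pow_le_pow_left₀ (by norm_num) hK' 2)
  have hq1 : p / K ^ 2 ≤ p := div_le_self hp0.le (le_trans (by norm_num) hK2)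
  have hp2 : 8 * p / K ^ 2 ≤ p := by
    rw [div_le_iff₀ (by positivity), mul_comm]; exact mul_le_mul_of_nonneg_left hK2 hp0.le
  obtain ⟨hl1, hl2⟩ := cond_lam hp hc1 hx0 hy1 hA0 (by positivity) s4' H4 H5
  have hpow : ((M : ℝ) / m) ^ (8 * (2 * s)) ≤ 2 ^ m := by
    have a1 : (M : ℝ) / m ≤ 2 ^ (2 * K ^ 4) := by
      rw [div_le_iff₀ hm']
      refine m3'.trans (mul_le_mul_of_nonneg_right ?_ hm'.le)
      exact_mod_cast (Nat.lt_two_pow_self (n := 2 * K ^ 4)).le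
    refine (pow_le_pow_left₀ (by positivity) a1 _).trans ?_
    rw [← pow_mul]
    exact pow_le_pow_right₀ (by norm_num) (le_trans (le_of_eq (by ring)) s1)
  obtain ⟨hnk, hky, hky2⟩ := cond_k (n := 3 * M) (by omega) hk (by rw [hy]; push_cast; rfl) hy1
  have hk0 : 0 < k := by omega
  have hk' : (0 : ℝ) < k := by exact_mod_cast hk0
  have hE1' : (Fintype.card E : ℝ) ≤ x ^ 6 / 2 := by
    have : 2 * (Fintype.card E : ℝ) ≤ (3 * M) ^ 2 := by exact_mod_cast hE1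
    rw [← hx, ← pow_mul] at this
    rw [le_div_iff₀ (by norm_num), mul_comm]; exact this
  have hb : 0 < ⌈x ^ 4 * y / K⌉₊ := Nat.ceil_pos.2 (by positivity)
  have hP5 : p / K ^ 2 + 8 * p / K ^ 2 + 3 * p ≤ 5 * p := by linarith only [hq1, hp2]
  obtain ⟨S, S1, S2, S3⟩ := finite_bound (m := m) (θ := 4 * (m / M)) (s := s) (k := k) hpr hn hm0
    hmM hg hpow rfl (q₁ := p / K ^ 2) (p₂ := 8 * p / K ^ 2) (p := p)
    (μ := 7 / 8 * (8 * p / K ^ 2 / 240 * m)) (r₀ := (57600 / (p * M)) ^ 2) (lam := 1 + 3 * A)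
    (by positivity) (by linarith only [hq1, hp1]) hp1 hp2 (by positivity)
    (by linarith only [hl1, hA0]) (by linarith only [hl1]) hl2
    (by positivity) le_rfl (le_of_eq (by field_simp; ring))
    (by
      have : (4 * ((m : ℝ) / M)) ^ 3 * (240 / (8 * p / K ^ 2 / 240 * m)) ^ 2 =
          (K ^ 4 * m / M) * (57600 / (p * M)) ^ 2 := by field_simp; ring
      rw [this]
      exact mul_le_of_le_one_left (by positivity) ((div_le_one hM').2 m1'))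
    (by positivity) hk0 (by omega) (cond_qc hp hc hx0 hy0 hx hky2) _ _ (Nat.ceil_le.2 ht) hb
  refine ⟨S, S1, S2, Nat.ceil_le.2 ht,
    le_trans (mul_le_mul_of_nonneg_right ?_ (by positivity)) S3⟩
  clear S1 S2 S3
  have hn' : (Fintype.card V : ℝ) = x ^ 3 := by rw [hn, hx]; push_cast; rfl
  have key : ∀ T : ℝ, T ≤ 1440 * K ^ 24 → T / x ≤ ε := fun T hT =>
    (div_le_div_of_nonneg_right hT hx0.le).trans H8
  have hK24 : (1 : ℝ) ≤ K ^ 24 := one_le_pow₀ hK1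
  have e1 : (x ^ 3) ^ 2 * (x ^ 3 * p ^ 2) ^ 7 ≤ ε := by
    refine le_trans (le_of_eq ?_) H6
    rw [hp]; field_simp
  have e2 : (x ^ 3) ^ 2 * (x ^ 3 * (p / K ^ 2) ^ 2) ^ 7 ≤ ε := by
    refine le_trans ?_ e1
    gcongr
  have hx3 : x ≤ x ^ 3 := le_self_pow₀ hx1 (by norm_num)
  have e3 : (4 : ℝ) ^ Fintype.card V * (2 * Real.exp (-(1 + 3 * A))) ^ s ≤ ε := by
    have a1 := err_phase (n := Fintype.card V) (A := 384 * (K ^ 4) ^ 2) (s := s) (by omega)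
      (by rw [hn]; exact s4)
    push_cast at a1
    rw [hA]
    refine a1.trans (le_trans ?_ (key 1 (by linarith only [hK24])))
    rw [hn']
    exact one_div_le_one_div_of_le hx0 hx3
  have e4 := (err_pick hp hc hx0 hy1 hx (by positivity) m3').trans H8
  have e5 : (6 : ℝ) / m ≤ ε := by
    have a1 : (K : ℝ) ^ 4 ≤ K ^ 24 := pow_le_pow_right₀ hK1 (by norm_num)
    refine le_trans ?_ (key (36 * K ^ 4) (by linarith only [a1, hK24]))
    rw [div_le_div_iff₀ hm' hx0]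
    linarith only [hx3, hx, m3']
  have e6 : (1 : ℝ) / k ≤ ε := by
    rw [div_le_iff₀ hk']
    exact H7.trans (mul_le_mul_of_nonneg_left hky hε.le)
  have e7 := (err_count hp hc hx1 hy1 hE1' (by positivity) hP5).trans
    (key 24 (by linarith only [hK24]))
  have e8 := err_budget hp hc0 hx0 hy0 hE1' (by positivity) hP5 hK1 hx hm'.le m1'
  rw [hn']
  linarith only [e1, e2, e3, e4, e5, e6, e7, e8, H9]

end

end Pool.Agent.MP_81e6aa_pr
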