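import Mathlib

/-!
Finite product probability spaces with coordinate dependent weights, written as finite sums.
-/

set_option autoImplicit false

namespace Pool.Agent.MP_81e6aa_pr

open Finset

noncomputable section

open Classical in
/-- indicator of a proposition -/
def ind (P : Prop) : ℝ := if P then 1 else 0

lemma ind_nonneg (P : Prop) : 0 ≤ ind P := by unfold ind; split_ifs <;> norm_num
lemma ind_le_one (P : Prop) : ind P ≤ 1 := by unfold ind; split_ifs <;> norm_num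
lemma ind_pos {P : Prop} (h : P) : ind P = 1 := by unfold ind; simp [h]
lemma ind_neg {P : Prop} (h : ¬ P) : ind P = 0 := by unfold ind; simp [h]
lemma ind_and (P Q : Prop) : ind (P ∧ Q) = ind P * ind Q := by
  by_cases hP : P <;> by_cases hQ : Q <;> simp [ind, hP, hQ]
lemma ind_mono {P Q : Prop} (h : P → Q) : ind P ≤ ind Q := by
  by_cases hP : P
  · rw [ind_pos hP, ind_pos (h hP)]
  · rw [ind_neg hP]; exact ind_nonneg _
lemma ind_congr {P Q : Prop} (h : P ↔ Q) : ind P = ind Q := by rw [propext h]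
lemma ind_not (P : Prop) : ind (¬ P) = 1 - ind P := by
  by_cases hP : P <;> simp [ind, hP]
lemma ind_le {P : Prop} {c : ℝ} (h0 : 0 ≤ c) (h : P → 1 ≤ c) : ind P ≤ c := by
  by_cases hP : P
  · rw [ind_pos hP]; exact h hP
  · rw [ind_neg hP]; exact h0
lemma ind_or_le (P Q : Prop) : ind (P ∨ Q) ≤ ind P + ind Q := by
  by_cases hP : P <;> by_cases hQ : Q <;> simp [ind, hP, hQ]
lemma ind_exists_le {ι : Type} (s : Finset ι) (P : ι → Prop) :
    ind (∃ i ∈ s, P i) ≤ ∑ i ∈ s, ind (P i) := by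
  refine ind_le (sum_nonneg fun _ _ => ind_nonneg _) ?_
  rintro ⟨i, hi, h⟩
  rw [← ind_pos h]
  exact single_le_sum (f := fun i => ind (P i)) (fun j _ => ind_nonneg _) hi
lemma ind_forall {ι : Type} (s : Finset ι) (P : ι → Prop) :
    ind (∀ i ∈ s, P i) = ∏ i ∈ s, ind (P i) := by
  by_cases h : ∀ i ∈ s, P i
  · rw [ind_pos h, prod_congr rfl fun i hi => ind_pos (h i hi)]; simp
  · rw [ind_neg h]
    push Not at h
    obtain ⟨i, hi, h⟩ := h
    exact (prod_eq_zero hi (ind_neg h)).symm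
lemma card_filter_eq_sum_ind {ι : Type} (s : Finset ι) (P : ι → Prop) [DecidablePred P] :
    ((s.filter P).card : ℝ) = ∑ i ∈ s, ind (P i) := by
  rw [card_filter]; push_cast
  refine sum_congr rfl fun i _ => ?_
  by_cases h : P i <;> simp [ind, h]

variable {I α β : Type} [Fintype I] [DecidableEq I] [Fintype α] [Fintype β]

/-- expectation for the product weights -/
def Ex (w : I → α → ℝ) (F : (I → α) → ℝ) : ℝ := ∑ x, (∏ i, w i (x i)) * F x

/-- nonnegative weights of mass at most one in each coordinate -/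
structure IsS (w : I → α → ℝ) : Prop where
  nonneg : ∀ i a, 0 ≤ w i a
  le : ∀ i, ∑ a, w i a ≤ 1

/-- probability vectors in each coordinate -/
structure IsP (w : I → α → ℝ) : Prop where
  nonneg : ∀ i a, 0 ≤ w i a
  sum : ∀ i, ∑ a, w i a = 1

omit [Fintype I] [DecidableEq I] in
lemma IsP.isS {w : I → α → ℝ} (h : IsP w) : IsS w := ⟨h.nonneg, fun i => (h.sum i).le⟩

variable {w : I → α → ℝ}

lemma Ex_prod (w f : I → α → ℝ) :
    Ex w (fun x => ∏ i, f i (x i)) = ∏ i, ∑ a, w i a * f i a := by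
  unfold Ex
  have := Finset.prod_univ_sum (fun _ : I => (univ : Finset α)) (fun i a => w i a * f i a)
  simp only [Fintype.piFinset_univ] at this
  rw [this]
  exact sum_congr rfl fun x _ => by rw [prod_mul_distrib]

lemma Ex_mono (hw : ∀ i a, 0 ≤ w i a) {F G : (I → α) → ℝ} (h : ∀ x, F x ≤ G x) :
    Ex w F ≤ Ex w G :=
  sum_le_sum fun x _ => mul_le_mul_of_nonneg_left (h x) (prod_nonneg fun _ _ => hw _ _)

/-- monotonicity, checked only on the support -/
lemma Ex_mono' (hw : ∀ i a, 0 ≤ w i a) {F G : (I → α) → ℝ}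
    (h : ∀ x, (∀ i, w i (x i) ≠ 0) → F x ≤ G x) : Ex w F ≤ Ex w G := by
  refine sum_le_sum fun x _ => ?_
  by_cases hx : ∀ i, w i (x i) ≠ 0
  · exact mul_le_mul_of_nonneg_left (h x hx) (prod_nonneg fun _ _ => hw _ _)
  · push Not at hx
    obtain ⟨i, hi⟩ := hx
    rw [prod_eq_zero (mem_univ i) hi]; simp

lemma Ex_nonneg (hw : ∀ i a, 0 ≤ w i a) {F : (I → α) → ℝ} (h : ∀ x, 0 ≤ F x) : 0 ≤ Ex w F :=
  sum_nonneg fun x _ => mul_nonneg (prod_nonneg fun _ _ => hw _ _) (h x)

lemma Ex_congr {F G : (I → α) → ℝ} (h : ∀ x, F x = G x) : Ex w F = Ex w G := by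
  rw [show F = G from funext h]

lemma Ex_add (F G : (I → α) → ℝ) : Ex w (fun x => F x + G x) = Ex w F + Ex w G := by
  unfold Ex; simp [mul_add, sum_add_distrib]

lemma Ex_sub (F G : (I → α) → ℝ) : Ex w (fun x => F x - G x) = Ex w F - Ex w G := by
  unfold Ex; simp [mul_sub, sum_sub_distrib]

lemma Ex_smul (c : ℝ) (F : (I → α) → ℝ) : Ex w (fun x => c * F x) = c * Ex w F := by
  unfold Ex; rw [mul_sum]; exact sum_congr rfl fun x _ => by ring

lemma Ex_mul_const (c : ℝ) (F : (I → α) → ℝ) : Ex w (fun x => F x * c) = Ex w F * c := by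
  unfold Ex; rw [sum_mul]; exact sum_congr rfl fun x _ => by ring

lemma Ex_sum {ι : Type} (s : Finset ι) (F : ι → (I → α) → ℝ) :
    Ex w (fun x => ∑ j ∈ s, F j x) = ∑ j ∈ s, Ex w (F j) := by
  unfold Ex; simp only [mul_sum]; rw [sum_comm]

lemma Ex_one (w : I → α → ℝ) : Ex w (fun _ => 1) = ∏ i, ∑ a, w i a := by
  have := Ex_prod w (fun _ _ => 1)
  simpa using this

lemma Ex_const (hw : IsP w) (c : ℝ) : Ex w (fun _ => c) = c := by
  have h := Ex_smul (w := w) c (fun _ => 1)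
  rw [Ex_one] at h
  simpa [hw.sum] using h

lemma Ex_const_le (hw : IsS w) {c : ℝ} (hc : 0 ≤ c) : Ex w (fun _ => c) ≤ c := by
  have h := Ex_smul (w := w) c (fun _ => 1)
  rw [Ex_one] at h
  simp only [mul_one] at h
  rw [h]
  exact mul_le_of_le_one_right hc
    (prod_le_one (fun i _ => sum_nonneg fun a _ => hw.nonneg i a) fun i _ => hw.le i)

lemma Ex_le_of_le (hw : IsS w) {F : (I → α) → ℝ} {c : ℝ} (hc : 0 ≤ c) (h : ∀ x, F x ≤ c) :
    Ex w F ≤ c := (Ex_mono hw.nonneg h).trans (Ex_const_le hw hc)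

lemma le_Ex (hw : IsP w) {F : (I → α) → ℝ} {c : ℝ} (h : ∀ x, c ≤ F x) : c ≤ Ex w F := by
  rw [← Ex_const hw c]; exact Ex_mono hw.nonneg h

lemma Ex_le (hw : IsP w) {F : (I → α) → ℝ} {c : ℝ} (h : ∀ x, F x ≤ c) : Ex w F ≤ c := by
  rw [← Ex_const hw c]; exact Ex_mono hw.nonneg h

lemma Ex_not (hw : IsP w) (P : (I → α) → Prop) :
    Ex w (fun x => ind (¬ P x)) = 1 - Ex w (fun x => ind (P x)) := by
  simp only [ind_not]; rw [Ex_sub, Ex_const hw]

lemma Ex_comm {J : Type} [Fintype J] [DecidableEq J] (w : I → α → ℝ) (w' : J → β → ℝ)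
    (F : (I → α) → (J → β) → ℝ) :
    Ex w (fun x => Ex w' (fun y => F x y)) = Ex w' (fun y => Ex w (fun x => F x y)) := by
  unfold Ex; simp only [mul_sum]; rw [sum_comm]
  exact sum_congr rfl fun y _ => sum_congr rfl fun x _ => by ring

lemma Ex_pair (w : I → α → ℝ) (w' : I → β → ℝ) (F : (I → α × β) → ℝ) :
    Ex (fun i (c : α × β) => w i c.1 * w' i c.2) F =
      Ex w (fun x => Ex w' (fun y => F (fun i => (x i, y i)))) := by
  unfold Ex
  rw [← Equiv.sum_comp (Equiv.arrowProdEquivProdArrow I (fun _ => α) (fun _ => β)).symm,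
    Fintype.sum_prod_type]
  refine sum_congr rfl fun x _ => ?_
  rw [mul_sum]
  refine sum_congr rfl fun y _ => ?_
  rw [← mul_assoc, ← prod_mul_distrib]
  rfl

omit [Fintype I] [DecidableEq I] in
lemma IsP.pair {w' : I → β → ℝ} (h : IsP w) (h' : IsP w') :
    IsP (fun i (c : α × β) => w i c.1 * w' i c.2) :=
  ⟨fun i c => mul_nonneg (h.nonneg _ _) (h'.nonneg _ _), fun i => by
    rw [Fintype.sum_prod_type, ← sum_mul_sum, h.sum, h'.sum, one_mul]⟩

lemma Ex_curry {Λ : Type} [Fintype Λ] [DecidableEq Λ] (w : I × Λ → α → ℝ)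
    (F : (I → Λ → α) → ℝ) :
    Ex (fun i (z : Λ → α) => ∏ l, w (i, l) (z l)) F = Ex w (fun x => F (fun i l => x (i, l))) := by
  unfold Ex
  rw [← Equiv.sum_comp (Equiv.curry I Λ α)]
  refine sum_congr rfl fun x _ => ?_
  rw [Fintype.prod_prod_type]
  rfl

lemma Ex_reindex {J : Type} [Fintype J] [DecidableEq J] (e : J ≃ I) (w : I → α → ℝ)
    (F : (J → α) → ℝ) :
    Ex w (fun x => F (fun j => x (e j))) = Ex (fun j => w (e j)) F := by
  unfold Ex
  rw [← Equiv.sum_comp (Equiv.arrowCongr e (Equiv.refl α))]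
  refine sum_congr rfl fun x _ => ?_
  rw [← Equiv.prod_comp e]
  simp

open Classical in
/-- take the coordinates in `Q` from `x` and the others from `y` -/
def splice (Q : I → Prop) (x y : I → α) : I → α := fun i => if Q i then x i else y i

lemma Ex_splice (hw : IsP w) (Q : I → Prop) (F : (I → α) → ℝ) :
    Ex w F = Ex w (fun x => Ex w (fun y => F (splice Q x y))) := by
  let e : ((I → α) × (I → α)) ≃ ((I → α) × (I → α)) :=
    { toFun := fun z => (splice Q z.1 z.2, splice Q z.2 z.1)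
      invFun := fun z => (splice Q z.1 z.2, splice Q z.2 z.1)
      left_inv := fun z => by
        ext v <;> by_cases hv : Q v <;> simp [splice, hv]
      right_inv := fun z => by
        ext v <;> by_cases hv : Q v <;> simp [splice, hv] }
  have h1 : Ex w F = Ex w (fun x => Ex w (fun _ => F x)) := by simp only [Ex_const hw]
  rw [h1]
  unfold Ex
  simp only [mul_sum]
  rw [← Fintype.sum_prod_type', ← Fintype.sum_prod_type', ← Equiv.sum_comp e]
  refine sum_congr rfl fun z _ => ?_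
  have hw' : (∏ i, w i (splice Q z.1 z.2 i)) * ∏ i, w i (splice Q z.2 z.1 i) =
      (∏ i, w i (z.1 i)) * ∏ i, w i (z.2 i) := by
    rw [← prod_mul_distrib, ← prod_mul_distrib]
    refine prod_congr rfl fun v _ => ?_
    by_cases hv : Q v <;> simp [splice, hv, mul_comm]
  show (∏ i, w i (splice Q z.1 z.2 i)) * ((∏ i, w i (splice Q z.2 z.1 i)) *
    F (splice Q z.1 z.2)) = _
  rw [← mul_assoc, hw', mul_assoc]

/-- dependence on the coordinates in `A` only -/
def Dep (A : I → Prop) (F : (I → α) → ℝ) : Prop :=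
  ∀ x y : I → α, (∀ i, A i → x i = y i) → F x = F y

lemma Ex_mul (hw : IsP w) {A B : I → Prop} {F G : (I → α) → ℝ} (hF : Dep A F) (hG : Dep B G)
    (hAB : ∀ i, A i → ¬ B i) : Ex w (fun x => F x * G x) = Ex w F * Ex w G := by
  rw [Ex_splice hw A]
  have h : ∀ x y, F (splice A x y) * G (splice A x y) = F x * G y := fun x y => by
    rw [hF (splice A x y) x (fun i hi => by simp [splice, hi]),
      hG (splice A x y) y (fun i hi => by
        have : ¬ A i := fun h => hAB i h hi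
        simp [splice, this])]
  simp only [h, Ex_smul, Ex_mul_const]

lemma Ex_prod_indep (hw : IsP w) {ι : Type} (s : Finset ι) (A : ι → I → Prop)
    (F : ι → (I → α) → ℝ) (hF : ∀ j ∈ s, Dep (A j) (F j))
    (hA : ∀ j ∈ s, ∀ k ∈ s, ∀ i, A j i → A k i → j = k) :
    Ex w (fun x => ∏ j ∈ s, F j x) = ∏ j ∈ s, Ex w (F j) := by
  classical
  induction s using Finset.induction_on with
  | empty => simpa using Ex_const hw 1
  | insert a s ha ih =>
    simp only [prod_insert ha]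
    rw [Ex_mul hw (B := fun i => ∃ k ∈ s, A k i) (hF a (mem_insert_self _ _)),
      ih (fun j hj => hF j (mem_insert_of_mem hj))
        (fun j hj k hk => hA j (mem_insert_of_mem hj) k (mem_insert_of_mem hk))]
    · intro x y hxy
      exact prod_congr rfl fun j hj =>
        hF j (mem_insert_of_mem hj) x y fun i hi => hxy i ⟨j, hj, hi⟩
    · rintro i hi ⟨k, hk, hik⟩
      exact ha (hA a (mem_insert_self _ _) k (mem_insert_of_mem hk) i hi hik ▸ hk)

lemma Ex_option {J : Type} [Fintype J] [DecidableEq J] [DecidableEq (Option J)]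
    (w : Option J → α → ℝ) (F : (Option J → α) → ℝ) :
    Ex w F = ∑ a, w none a * Ex (fun j => w (some j))
      (fun y => F (fun o => Option.casesOn o a y)) := by
  unfold Ex
  rw [← Equiv.sum_comp (Equiv.piOptionEquivProd (β := fun _ => α)).symm, Fintype.sum_prod_type]
  refine sum_congr rfl fun a _ => ?_
  rw [mul_sum]
  refine sum_congr rfl fun y _ => ?_
  rw [Fintype.prod_option, mul_assoc]
  rfl

/-- coordinatewise domination gives domination of the product weights -/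
lemma Ex_dom (I : Type) [Fintype I] : ∀ [DecidableEq I] (w : I → α → ℝ) (w' : I → β → ℝ)
    (r : I → α → β → Prop)
    (_ : ∀ i (g : α → ℝ) (h : β → ℝ), (∀ a b, r i a b → g a ≤ h b) →
      ∑ a, w i a * g a ≤ ∑ b, w' i b * h b)
    (F : (I → α) → ℝ) (G : (I → β) → ℝ)
    (_ : ∀ x y, (∀ i, r i (x i) (y i)) → F x ≤ G y), Ex w F ≤ Ex w' G := by
  refine Fintype.induction_empty_option (P := fun I _ => ∀ [DecidableEq I] (w : I → α → ℝ)
    (w' : I → β → ℝ) (r : I → α → β → Prop)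
    (_ : ∀ i (g : α → ℝ) (h : β → ℝ), (∀ a b, r i a b → g a ≤ h b) →
      ∑ a, w i a * g a ≤ ∑ b, w' i b * h b)
    (F : (I → α) → ℝ) (G : (I → β) → ℝ)
    (_ : ∀ x y, (∀ i, r i (x i) (y i)) → F x ≤ G y), Ex w F ≤ Ex w' G) ?_ ?_ ?_ I
  · intro J K _ e ih _ w w' r hr F G hFG
    classical
    let _ : Fintype J := Fintype.ofEquiv K e.symm
    have h1 := Ex_reindex e.symm (fun j => w (e j)) F
    have h2 := Ex_reindex e.symm (fun j => w' (e j)) G
    simp only [Equiv.apply_symm_apply] at h1 h2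
    rw [← h1, ← h2]
    refine ih _ _ (fun j => r (e j)) (fun j => hr (e j)) _ _ fun x y hxy => hFG _ _ fun k => ?_
    simpa using hxy (e.symm k)
  · intro _ w w' r _ F G hFG
    unfold Ex
    simp only [univ_unique, univ_eq_empty, prod_empty, one_mul, sum_singleton]
    exact hFG _ _ fun i => i.elim
  · intro J _ ih _ w w' r hr F G hFG
    classical
    rw [Ex_option w, Ex_option w']
    refine hr none _ _ fun a b hab => ?_
    refine ih _ _ (fun j => r (some j)) (fun j => hr (some j)) _ _ fun x y hxy =>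
      hFG _ _ fun o => ?_
    cases o with
    | none => exact hab
    | some j => exact hxy j

lemma Ex_all (w : I → α → ℝ) (hw : IsP w) (S : Finset I) (f : I → α → ℝ) :
    Ex w (fun x => ∏ i ∈ S, f i (x i)) = ∏ i ∈ S, ∑ a, w i a * f i a := by
  have h := Ex_prod w (fun i a => if i ∈ S then f i a else 1)
  have e1 : ∀ x : I → α, ∏ i, (if i ∈ S then f i (x i) else 1) = ∏ i ∈ S, f i (x i) := fun x => by
    rw [prod_ite_mem, univ_inter]
  have e2 : ∏ i, ∑ a, w i a * (if i ∈ S then f i a else 1) = ∏ i ∈ S, ∑ a, w i a * f i a := by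
    rw [← univ_inter S, ← prod_ite_mem, univ_inter]
    refine prod_congr rfl fun i _ => ?_
    split_ifs
    · rfl
    · simpa using hw.sum i
  simp only [e1, e2] at h
  exact h

/-- probability that all coordinates of `S` satisfy a predicate -/
lemma Ex_all_le (hw : IsP w) (S : Finset I) (P : α → Prop) {p : ℝ}
    (hp : ∀ i, ∑ a, w i a * ind (P a) ≤ p) :
    Ex w (fun x => ind (∀ i ∈ S, P (x i))) ≤ p ^ S.card := by
  simp only [ind_forall]
  rw [Ex_all w hw S (fun _ a => ind (P a)), ← prod_const]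
  exact prod_le_prod (fun i _ => sum_nonneg fun a _ => mul_nonneg (hw.nonneg _ _) (ind_nonneg _))
    fun i _ => hp i

/-- Bernoulli weights -/
def bern (q : ℝ) : Bool → ℝ := fun b => if b then q else 1 - q

omit [Fintype I] [DecidableEq I] in
lemma isP_bern {q : I → ℝ} (h0 : ∀ i, 0 ≤ q i) (h1 : ∀ i, q i ≤ 1) :
    IsP (fun i => bern (q i)) :=
  ⟨fun i b => by cases b <;> simp [bern, h0, h1], fun i => by simp [bern]⟩

/-- push forward along coordinatewise maps -/
lemma Ex_map (w : I → α → ℝ) (w' : I → β → ℝ) (f : I → α → β)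
    (h : ∀ i b, w' i b = ∑ a, w i a * ind (f i a = b)) (F : (I → β) → ℝ) :
    Ex w' F = Ex w (fun x => F (fun i => f i (x i))) := by
  have h1 : ∀ y : I → β, ∏ i, w' i (y i) = Ex w (fun x => ind ((fun i => f i (x i)) = y)) := by
    intro y
    simp only [h]
    rw [← Ex_prod w (fun i a => ind (f i a = y i))]
    refine Ex_congr fun x => ?_
    rw [← ind_forall]
    exact ind_congr ⟨fun h => funext fun i => h i (mem_univ _), fun h i _ => congrFun h i⟩
  have h2 : Ex w' F = ∑ y, Ex w (fun x => ind ((fun i => f i (x i)) = y) * F y) := by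
    unfold Ex at h1 ⊢
    refine sum_congr rfl fun y _ => ?_
    rw [h1, sum_mul]
    exact sum_congr rfl fun x _ => by ring
  rw [h2, ← Ex_sum]
  refine Ex_congr fun x => ?_
  rw [sum_eq_single (fun i => f i (x i))]
  · rw [ind_pos rfl, one_mul]
  · intro y _ hy; rw [ind_neg (Ne.symm hy), zero_mul]
  · simp

lemma Ex_union {q₁ q₂ : ℝ} (F : (I → Bool) → ℝ) :
    Ex (fun _ => bern (q₁ + (1 - q₁) * q₂)) F =
      Ex (fun _ => bern q₁) (fun x => Ex (fun _ => bern q₂) (fun y => F (fun i => x i || y i))) := by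
  rw [← Ex_pair (fun _ : I => bern q₁) (fun _ : I => bern q₂)
    (fun z => F (fun i => (z i).1 || (z i).2))]
  refine Ex_map _ _ (fun _ (z : Bool × Bool) => z.1 || z.2) (fun i b => ?_) F
  cases b <;> simp [Fintype.sum_prod_type, bern, ind] <;> ring

/-- domination for two nested events -/
lemma dom_two (u : α → ℝ) (v : β → ℝ) (hu : ∀ a, 0 ≤ u a) (hv : ∀ b, 0 ≤ v b)
    (hus : ∑ a, u a = 1) (hvs : ∑ b, v b = 1) (A₁ A₂ : α → Prop) (B₁ B₂ : β → Prop)
    (hA : ∀ a, A₂ a → A₁ a) (hB : ∀ b, B₂ b → B₁ b) (a₀ : α) (h₀ : ¬ A₁ a₀)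
    (h₁ : ∑ a, u a * ind (A₁ a) ≤ ∑ b, v b * ind (B₁ b))
    (h₂ : ∑ a, u a * ind (A₂ a) ≤ ∑ b, v b * ind (B₂ b)) (g : α → ℝ) (h : β → ℝ)
    (hgh : ∀ a b, ((A₁ a → B₁ b) ∧ (A₂ a → B₂ b)) → g a ≤ h b) :
    ∑ a, u a * g a ≤ ∑ b, v b * h b := by
  classical
  have n0 : (univ.filter fun a => ¬ A₁ a).Nonempty := ⟨a₀, by simpa using h₀⟩
  have n1 : (univ.filter fun a => ¬ A₂ a).Nonempty := ⟨a₀, by simpa using fun h => h₀ (hA _ h)⟩
  obtain ⟨c₀, hc₀, m₀⟩ := exists_max_image _ g n0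
  obtain ⟨c₁, hc₁, m₁⟩ := exists_max_image _ g n1
  obtain ⟨c₂, _, m₂⟩ := exists_max_image univ g ⟨a₀, mem_univ _⟩
  simp only [mem_filter, mem_univ, true_and, forall_const] at hc₀ hc₁ m₀ m₁ m₂
  have e01 : g c₀ ≤ g c₁ := m₁ _ fun h => hc₀ (hA _ h)
  have e12 : g c₁ ≤ g c₂ := m₂ _
  have s1 : ∑ a, u a * g a ≤
      ∑ a, u a * (g c₀ + (g c₁ - g c₀) * ind (A₁ a) + (g c₂ - g c₁) * ind (A₂ a)) := by
    refine sum_le_sum fun a _ => mul_le_mul_of_nonneg_left ?_ (hu a)
    by_cases h2 : A₂ a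
    · rw [ind_pos h2, ind_pos (hA _ h2)]; linarith [m₂ a]
    · by_cases h1 : A₁ a
      · rw [ind_neg h2, ind_pos h1]; linarith [m₁ a h2]
      · rw [ind_neg h2, ind_neg h1]; linarith [m₀ a h1]
  have s2 : ∑ b, v b * (g c₀ + (g c₁ - g c₀) * ind (B₁ b) + (g c₂ - g c₁) * ind (B₂ b)) ≤
      ∑ b, v b * h b := by
    refine sum_le_sum fun b _ => mul_le_mul_of_nonneg_left ?_ (hv b)
    by_cases h2 : B₂ b
    · rw [ind_pos h2, ind_pos (hB _ h2)]
      linarith [hgh c₂ b ⟨fun _ => hB _ h2, fun _ => h2⟩]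
    · by_cases h1 : B₁ b
      · rw [ind_neg h2, ind_pos h1]
        linarith [hgh c₁ b ⟨fun _ => h1, fun h => absurd h hc₁⟩]
      · rw [ind_neg h2, ind_neg h1]
        linarith [hgh c₀ b ⟨fun h => absurd h hc₀, fun h => absurd (hA _ h) hc₀⟩]
  have e1 : ∑ a, u a * (g c₀ + (g c₁ - g c₀) * ind (A₁ a) + (g c₂ - g c₁) * ind (A₂ a)) =
      g c₀ * ∑ a, u a + (g c₁ - g c₀) * ∑ a, u a * ind (A₁ a) +
        (g c₂ - g c₁) * ∑ a, u a * ind (A₂ a) := by
    simp only [mul_sum, ← sum_add_distrib]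
    exact sum_congr rfl fun a _ => by ring
  have e2 : ∑ b, v b * (g c₀ + (g c₁ - g c₀) * ind (B₁ b) + (g c₂ - g c₁) * ind (B₂ b)) =
      g c₀ * ∑ b, v b + (g c₁ - g c₀) * ∑ b, v b * ind (B₁ b) +
        (g c₂ - g c₁) * ∑ b, v b * ind (B₂ b) := by
    simp only [mul_sum, ← sum_add_distrib]
    exact sum_congr rfl fun a _ => by ring
  rw [e1, hus] at s1
  rw [e2, hvs] at s2
  have t1 := mul_le_mul_of_nonneg_left h₁ (sub_nonneg.2 e01)
  have t2 := mul_le_mul_of_nonneg_left h₂ (sub_nonneg.2 e12)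
  linarith

/-- lower tail bound for the number of successes among the coordinates `g a`, `a ∈ A` -/
lemma chernoff {κ : Type} [DecidableEq κ] (hw : IsP w) (A : Finset κ) (g : κ → I)
    (hg : Set.InjOn g A) (P : α → Prop) [DecidablePred P] {q : ℝ} (hq : 0 ≤ q)
    (hP : ∀ a ∈ A, q ≤ ∑ b, w (g a) b * ind (P b)) :
    Ex w (fun x => ind (((A.filter fun a => P (x (g a))).card : ℝ) < 2 / 3 * (q * A.card))) ≤
      Real.exp (-(q * A.card) / 20) := by
  set μ : ℝ := q * A.card with hμ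
  have hμ0 : 0 ≤ μ := by positivity
  have h1 : ∀ x : I → α, ind (((A.filter fun a => P (x (g a))).card : ℝ) < 2 / 3 * μ) ≤
      Real.exp (μ / 5) * ∏ i ∈ A.image g, (if P (x i) then (3 / 4 : ℝ) else 1) := by
    intro x
    rw [prod_image hg, prod_ite, prod_const, prod_const, one_pow, mul_one]
    refine ind_le (by positivity) fun h => ?_
    set k := (A.filter fun a => P (x (g a))).card
    have h34 : Real.exp (-(3 / 10)) ≤ 3 / 4 := by
      rw [Real.exp_neg, inv_le_comm₀ (Real.exp_pos _) (by norm_num)]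
      have := Real.quadratic_le_exp_of_nonneg (x := 3 / 10) (by norm_num)
      linarith
    have h2 : Real.exp (-(3 / 10)) ^ k ≤ (3 / 4 : ℝ) ^ k :=
      pow_le_pow_left₀ (Real.exp_pos _).le h34 k
    rw [← Real.exp_nat_mul] at h2
    calc (1 : ℝ) ≤ Real.exp (μ / 5 + k * -(3 / 10)) := Real.one_le_exp (by linarith)
      _ = Real.exp (μ / 5) * Real.exp (k * -(3 / 10)) := Real.exp_add _ _
      _ ≤ _ := mul_le_mul_of_nonneg_left h2 (Real.exp_pos _).le
  refine (Ex_mono hw.nonneg h1).trans ?_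
  rw [Ex_smul, Ex_all w hw (A.image g) (fun _ b => if P b then (3 / 4 : ℝ) else 1),
    prod_image hg]
  have h3 : ∏ a ∈ A, ∑ b, w (g a) b * (if P b then (3 / 4 : ℝ) else 1) ≤
      ∏ _a ∈ A, Real.exp (-q / 4) := by
    refine prod_le_prod (fun a _ => sum_nonneg fun b _ =>
      mul_nonneg (hw.nonneg _ _) (by split_ifs <;> norm_num)) fun a ha => ?_
    have e : ∑ b, w (g a) b * (if P b then (3 / 4 : ℝ) else 1) =
        ∑ b, w (g a) b - 1 / 4 * ∑ b, w (g a) b * ind (P b) := by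
      rw [mul_sum, ← sum_sub_distrib]
      refine sum_congr rfl fun b _ => ?_
      by_cases hb : P b
      · rw [ind_pos hb, if_pos hb]; ring
      · rw [ind_neg hb, if_neg hb]; ring
    rw [e, hw.sum]
    have := Real.add_one_le_exp (-q / 4)
    linarith [hP a ha]
  rw [prod_const, ← Real.exp_nat_mul] at h3
  refine (mul_le_mul_of_nonneg_left h3 (Real.exp_pos _).le).trans ?_
  rw [← Real.exp_add]
  apply le_of_eq
  congr 1
  rw [hμ]; ring

/-- Markov's inequality -/
lemma markov (hw : ∀ i a, 0 ≤ w i a) {F : (I → α) → ℝ} (hF : ∀ x, 0 ≤ F x) {b : ℝ} (hb : 0 < b) :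
    Ex w (fun x => ind (b < F x)) ≤ Ex w F / b := by
  rw [div_eq_mul_inv, ← Ex_mul_const]
  refine Ex_mono hw fun x => ind_le (mul_nonneg (hF x) (inv_nonneg.2 hb.le)) fun h => ?_
  rw [← div_eq_mul_inv, le_div_iff₀ hb]; linarith

end

end Pool.Agent.MP_81e6aa_pr
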