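import Pool.Agent.MP_81e6aa_pr.Pick

/-!
Triangle factors of vertex sets, and the codegree bound.
-/

set_option autoImplicit false

namespace Pool.Agent.MP_81e6aa_pr

open Finset

noncomputable section

variable {V E : Type} [DecidableEq V]

/-- a triangle of `B` -/
def Tri (pr : V → V → E) (B : E → Prop) (x y z : V) : Prop :=
  x ≠ y ∧ x ≠ z ∧ y ≠ z ∧ B (pr x y) ∧ B (pr x z) ∧ B (pr y z)

/-- the vertex set is a disjoint union of triangles of `B` -/
inductive Fac (pr : V → V → E) (B : E → Prop) : Finset V → Prop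
  | nil : Fac pr B ∅
  | cons {Y : Finset V} {x y z : V} : Fac pr B Y → Tri pr B x y z → x ∉ Y → y ∉ Y → z ∉ Y →
      Fac pr B (insert x (insert y (insert z Y)))

variable {pr : V → V → E} {B B' : E → Prop}

lemma Fac.mono (h : ∀ e, B e → B' e) {Y : Finset V} (hY : Fac pr B Y) : Fac pr B' Y := by
  induction hY with
  | nil => exact Fac.nil
  | cons _ ht hx hy hz ih =>
    exact ih.cons ⟨ht.1, ht.2.1, ht.2.2.1, h _ ht.2.2.2.1, h _ ht.2.2.2.2.1, h _ ht.2.2.2.2.2⟩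
      hx hy hz

lemma Fac.union {Y Z : Finset V} (hY : Fac pr B Y) (hZ : Fac pr B Z) (h : Disjoint Y Z) :
    Fac pr B (Y ∪ Z) := by
  induction hY with
  | nil => simpa using hZ
  | cons _ ht hx hy hz ih =>
    simp only [disjoint_insert_left] at h
    simp only [insert_union]
    exact (ih h.2.2.2).cons ht (by simp [hx, h.1]) (by simp [hy, h.2.1]) (by simp [hz, h.2.2.1])

lemma Fac.of_cherries (φ : V × Bool → V) (X : Finset V) :
    ∀ (_ : ∀ x ∈ X, ∀ x' ∈ X, ∀ b, x ≠ φ (x', b))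
    (_ : ∀ x ∈ X, ∀ x' ∈ X, ∀ b b', φ (x, b) = φ (x', b') → x = x' ∧ b = b')
    (_ : ∀ x ∈ X, ∀ b, B (pr x (φ (x, b))))
    (_ : ∀ x ∈ X, B (pr (φ (x, false)) (φ (x, true)))),
    Fac pr B (X ∪ (X ×ˢ univ).image φ) := by
  induction X using Finset.induction_on with
  | empty => intros; simpa using Fac.nil
  | insert a X ha ih =>
    intro h1 h2 h3 h4
    have m := mem_insert_self a X
    have e : insert a X ∪ (insert a X ×ˢ univ).image φ =
        insert a (insert (φ (a, false)) (insert (φ (a, true)) (X ∪ (X ×ˢ univ).image φ))) := by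
      ext v
      simp only [mem_union, mem_insert, mem_image, mem_product, mem_univ, and_true, Prod.exists,
        Bool.exists_bool]
      constructor
      · rintro ((h | h) | ⟨x, ⟨rfl | hx, h⟩ | ⟨rfl | hx, h⟩⟩)
        · exact Or.inl h
        · exact Or.inr (Or.inr (Or.inr (Or.inl h)))
        · exact Or.inr (Or.inl h.symm)
        · exact Or.inr (Or.inr (Or.inr (Or.inr ⟨x, Or.inl ⟨hx, h⟩⟩)))
        · exact Or.inr (Or.inr (Or.inl h.symm))
        · exact Or.inr (Or.inr (Or.inr (Or.inr ⟨x, Or.inr ⟨hx, h⟩⟩)))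
      · rintro (h | h | h | h | ⟨x, ⟨hx, h⟩ | ⟨hx, h⟩⟩)
        · exact Or.inl (Or.inl h)
        · exact Or.inr ⟨a, Or.inl ⟨Or.inl rfl, h.symm⟩⟩
        · exact Or.inr ⟨a, Or.inr ⟨Or.inl rfl, h.symm⟩⟩
        · exact Or.inl (Or.inr h)
        · exact Or.inr ⟨x, Or.inl ⟨Or.inr hx, h⟩⟩
        · exact Or.inr ⟨x, Or.inr ⟨Or.inr hx, h⟩⟩
    have hn : ∀ b, φ (a, b) ∉ X ∪ (X ×ˢ univ).image φ := by
      intro b hb
      rcases mem_union.1 hb with h | h
      · exact h1 _ (mem_insert_of_mem h) a m b rfl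
      · obtain ⟨⟨x, b'⟩, hx, h⟩ := mem_image.1 h
        have hx' := (mem_product.1 hx).1
        exact ha ((h2 x (mem_insert_of_mem hx') a m b' b h).1 ▸ hx')
    rw [e]
    refine (ih (fun x hx x' hx' => h1 x (mem_insert_of_mem hx) x' (mem_insert_of_mem hx'))
      (fun x hx x' hx' => h2 x (mem_insert_of_mem hx) x' (mem_insert_of_mem hx'))
      (fun x hx => h3 x (mem_insert_of_mem hx)) (fun x hx => h4 x (mem_insert_of_mem hx))).cons
      ⟨h1 a m a m _, h1 a m a m _, fun h => by simpa using (h2 a m a m _ _ h).2, h3 a m _,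
        h3 a m _, h4 a m⟩ ?_ (hn _) (hn _)
    intro hb
    rcases mem_union.1 hb with h | h
    · exact ha h
    · obtain ⟨⟨x, b'⟩, hx, h⟩ := mem_image.1 h
      exact h1 a m x (mem_insert_of_mem (mem_product.1 hx).1) b' h.symm

lemma Fac.partition {Y : Finset V} (hY : Fac pr B Y) :
    ∃ P : Finset (Finset V), (∀ s ∈ P, s ⊆ Y ∧ ∃ x y z, Tri pr B x y z ∧ s = {x, y, z}) ∧
      ∀ v ∈ Y, ∃! s, s ∈ P ∧ v ∈ s := by
  induction hY with
  | nil => exact ⟨∅, by simp, by simp⟩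
  | @cons Y x y z _ ht hx hy hz ih =>
    obtain ⟨P, h1, h2⟩ := ih
    refine ⟨insert {x, y, z} P, fun s hs => ?_, fun v hv => ?_⟩
    · rcases mem_insert.1 hs with rfl | hs
      · exact ⟨by intro v; simp only [mem_insert, mem_singleton]; tauto, x, y, z, ht, rfl⟩
      · exact ⟨(h1 s hs).1.trans ((subset_insert _ _).trans ((subset_insert _ _).trans
          (subset_insert _ _))), (h1 s hs).2⟩
    · by_cases hvY : v ∈ Y
      · obtain ⟨s, ⟨h3, h4⟩, h5⟩ := h2 v hvY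
        refine ⟨s, ⟨mem_insert_of_mem h3, h4⟩, fun s' ⟨h6, h7⟩ => ?_⟩
        rcases mem_insert.1 h6 with rfl | h6
        · simp only [mem_insert, mem_singleton] at h7
          rcases h7 with rfl | rfl | rfl <;> contradiction
        · exact h5 s' ⟨h6, h7⟩
      · refine ⟨{x, y, z}, ⟨mem_insert_self _ _, by simpa [hvY] using hv⟩, fun s' ⟨h6, h7⟩ => ?_⟩
        rcases mem_insert.1 h6 with rfl | h6
        · rfl
        · exact absurd ((h1 s' h6).1 h7) hvY

/-- greedy removal of triangles -/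
lemma exists_fac {g : ℕ} (hB : ∀ Y : Finset V, g ≤ Y.card → ∃ x ∈ Y, ∃ y ∈ Y, ∃ z ∈ Y,
    Tri pr B x y z) (j : ℕ) : ∀ Y : Finset V, g + 3 * j ≤ Y.card →
    ∃ Z ⊆ Y, Z.card = 3 * j ∧ Fac pr B Z := by
  induction j with
  | zero => intro Y _; exact ⟨∅, empty_subset _, rfl, Fac.nil⟩
  | succ j ih =>
    intro Y hY
    obtain ⟨Z, h1, h2, h3⟩ := ih Y (by omega)
    obtain ⟨x, hx, y, hy, z, hz, ht⟩ := hB (Y \ Z) (by rw [card_sdiff_of_subset h1]; omega)
    simp only [mem_sdiff] at hx hy hz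
    refine ⟨_, ?_, ?_, h3.cons ht hx.2 hy.2 hz.2⟩
    · simp only [insert_subset_iff]; exact ⟨hx.1, hy.1, hz.1, h1⟩
    · rw [card_insert_of_notMem (by simp [ht.1, ht.2.1, hx.2]),
        card_insert_of_notMem (by simp [ht.2.2.1, hy.2]), card_insert_of_notMem hz.2, h2]
      ring

variable [Fintype V]

open Classical in
/-- common neighbours -/
def cn (pr : V → V → E) (B : E → Prop) (y z : V) : Finset V :=
  univ.filter fun v => y ≠ z ∧ v ≠ y ∧ v ≠ z ∧ B (pr v y) ∧ B (pr v z)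

lemma mem_cn {y z v : V} : v ∈ cn pr B y z ↔ y ≠ z ∧ v ≠ y ∧ v ≠ z ∧ B (pr v y) ∧ B (pr v z) := by
  simp [cn]

/-- all codegrees are at most six -/
def Cod (pr : V → V → E) (B : E → Prop) : Prop := ∀ y z, (cn pr B y z).card ≤ 6

lemma cod_le [Fintype E] [DecidableEq E] (hpr : PairMap pr) {α : Type} [Fintype α]
    {w : E → α → ℝ} (hw : IsP w) (bl : α → Prop) {p : ℝ}
    (hp : ∀ e, ∑ a, w e a * ind (bl a) ≤ p) :
    Ex w (fun x => ind (¬ Cod pr fun e => bl (x e))) ≤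
      (Fintype.card V : ℝ) ^ 2 * (Fintype.card V * p ^ 2) ^ 7 := by
  have s1 : ∀ x : E → α, ind (¬ Cod pr fun e => bl (x e)) ≤
      ∑ q : V × V, ∑ S ∈ (univ : Finset V).powersetCard 7,
        ind (q.1 ≠ q.2 ∧ ∀ v ∈ S, v ≠ q.1 ∧ v ≠ q.2) *
        ind (∀ e ∈ (S ×ˢ ({q.1, q.2} : Finset V)).image (fun a => pr a.1 a.2), bl (x e)) := by
    intro x
    refine le_trans (ind_mono (Q := ∃ q ∈ (univ : Finset (V × V)),
      ∃ S ∈ (univ : Finset V).powersetCard 7, (q.1 ≠ q.2 ∧ ∀ v ∈ S, v ≠ q.1 ∧ v ≠ q.2) ∧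
      ∀ e ∈ (S ×ˢ ({q.1, q.2} : Finset V)).image (fun a => pr a.1 a.2), bl (x e)) ?_) ?_
    · intro h
      simp only [Cod, not_forall, not_le] at h
      obtain ⟨y, z, h⟩ := h
      obtain ⟨S, h1, h2⟩ := exists_subset_card_eq (n := 7) h
      obtain ⟨v₀, hv₀⟩ : S.Nonempty := card_pos.1 (by omega)
      refine ⟨(y, z), mem_univ _, S, mem_powersetCard.2 ⟨subset_univ _, h2⟩,
        ⟨(mem_cn.1 (h1 hv₀)).1, fun v hv => ⟨(mem_cn.1 (h1 hv)).2.1, (mem_cn.1 (h1 hv)).2.2.1⟩⟩,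
        fun e he => ?_⟩
      obtain ⟨⟨v, u⟩, h3, rfl⟩ := mem_image.1 he
      obtain ⟨h4, h5⟩ := mem_product.1 h3
      simp only [mem_insert, mem_singleton] at h5
      rcases h5 with rfl | rfl
      · exact (mem_cn.1 (h1 h4)).2.2.2.1
      · exact (mem_cn.1 (h1 h4)).2.2.2.2
    · refine (ind_exists_le _ _).trans (sum_le_sum fun T _ => (ind_exists_le _ _).trans
        (sum_le_sum fun S _ => ?_))
      rw [ind_and]
  refine (Ex_mono hw.nonneg s1).trans ?_
  rw [Ex_sum]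
  refine (sum_le_card_nsmul _ _ ((Fintype.card V * p ^ 2) ^ 7) fun q _ => ?_).trans
    (le_of_eq (by simp; left; ring))
  rw [Ex_sum]
  refine (sum_le_card_nsmul _ _ (p ^ 14) fun S hS => ?_).trans ?_
  · rw [Ex_smul]
    by_cases h : q.1 ≠ q.2 ∧ ∀ v ∈ S, v ≠ q.1 ∧ v ≠ q.2
    · rw [ind_pos h, one_mul]
      refine (Ex_all_le hw _ bl hp).trans (le_of_eq ?_)
      rw [card_image_of_injOn, card_product, (mem_powersetCard.1 hS).2, card_pair h.1]
      rintro ⟨v, u⟩ h1 ⟨v', u'⟩ h2 h3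
      simp only [coe_product, Set.mem_prod, mem_coe, mem_insert, mem_singleton] at h1 h2
      have a1 : ∀ v ∈ S, ∀ u, (u = q.1 ∨ u = q.2) → v ≠ u := by
        rintro v hv u (rfl | rfl)
        · exact (h.2 v hv).1
        · exact (h.2 v hv).2
      rcases hpr.inj _ _ _ _ (a1 v h1.1 u h1.2) (a1 v' h2.1 u' h2.2) h3 with h4 | h4
      · exact Prod.ext h4.1 h4.2
      · exact absurd h4.1 (a1 v h1.1 u' h2.2)
    · rw [ind_neg h, zero_mul]; positivity
  · rw [card_powersetCard, card_univ, nsmul_eq_mul, mul_pow, ← pow_mul]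
    refine mul_le_mul_of_nonneg_right ?_ (by positivity)
    exact_mod_cast Nat.choose_le_pow _ _

end

end Pool.Agent.MP_81e6aa_pr
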