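import Pool.Agent.MP_81e6aa_pr.Real

/-!
The quantitative statement for a fixed number of vertices.
-/

set_option autoImplicit false

namespace Pool.Agent.MP_81e6aa_pr

open Finset

noncomputable section

variable {V E : Type} [Fintype V] [DecidableEq V] [Fintype E] [DecidableEq E]
variable {pr : V → V → E} {m : ℕ} {θ : ℝ}

omit [Fintype V] [DecidableEq V] [Fintype E] [DecidableEq E] in
lemma not_touch (hpr : PairMap pr) {U : Finset V} {y z : V} (h : y ≠ z) (hy : y ∉ U)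
    (hz : z ∉ U) : ¬ touch pr U (pr y z) := by
  rintro ⟨x, hx, w, h1, h2⟩
  rcases hpr.inj _ _ _ _ h h1 h2 with h3 | h3
  · exact hy (h3.1 ▸ hx)
  · exact hz (h3.2 ▸ hx)

omit [Fintype E] [DecidableEq E] in
lemma real_succ (hpr : PairMap pr) (a c d : E → Bool) (z : E → Bool × Bool × Bool)
    {U R : Finset V} (hU : U = Uof pr m θ (B2 pr ∅ (fun e => a e = true) (fun e => c e = true)))
    {bl cl : E → Prop}
    (h1 : ∀ e, bl e → d e = false ∧ ((z e).1 = true ∨ (touch pr U e ∧ (z e).2.1 = true)))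
    (h2 : ∀ e, cl e ∧ ¬ touch pr U e → d e = false ∧ ((z e).1 = true ∨
      (touch pr U e ∧ (z e).2.1 = true) ∨ (¬ touch pr U e ∧ (z e).2.1 = false ∧ (z e).2.2 = true)))
    (f1 : Fac pr (B2 pr ∅ (fun e => a e = true) (fun e => c e = true)) (univ \ R))
    (f2 : Fac pr (B2 pr U bl cl) R) :
    Fac pr (buy pr m θ fun e => lab (a e, splice (Clo pr fun e => a e = true) c d e, z e))
      univ := by
  set l : E → ℕ := fun e => lab (a e, splice (Clo pr fun e => a e = true) c d e, z e) with hl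
  have e1 : B1 pr l = B2 pr ∅ (fun e => a e = true) (fun e => c e = true) := by
    rw [hl, B1_eq, B2_splice]
  have e2 : ∀ e, d e = false → B1 pr l e ∨ l e = lab (false, false, z e) := by
    intro e hd
    cases ha : a e
    · cases hs : splice (Clo pr fun e => a e = true) c d e
      · right; simp only [hl, ha, hs]
      · left
        by_cases hq : Clo pr (fun e => a e = true) e
        · rw [e1]
          exact Or.inr ⟨by simpa [splice, hq] using hs, hq⟩
        · simp [splice, hq, hd] at hs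
    · left; rw [e1]; exact Or.inl ha
  have e3 : ∀ e, d e = false → ((z e).1 = true ∨ (touch pr U e ∧ (z e).2.1 = true)) →
      B3 pr m θ l e := by
    intro e hd h
    rcases e2 e hd with h3 | h3
    · exact Or.inl h3
    · cases hz : (z e).1
      · refine Or.inr (Or.inr ⟨?_, ?_⟩)
        · simp [h3, lab, hz, (h.resolve_left (by simp [hz])).2]
        · rw [e1, ← hU]; exact (h.resolve_left (by simp [hz])).1
      · exact Or.inr (Or.inl (by simp [h3, lab, hz]))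
  rw [← sdiff_union_of_subset (subset_univ R)]
  refine (f1.mono fun e he => Or.inl (Or.inl (e1 ▸ he))).union (f2.mono fun e he => ?_)
    sdiff_disjoint
  rcases he with he | ⟨hc, x, y, w, a1, a2, a3, a4, a5, a6, a7, a8⟩
  · exact Or.inl (e3 e (h1 e he).1 (h1 e he).2)
  · have hnt : ¬ touch pr U e := a6 ▸ not_touch hpr a3 a4 a5
    obtain ⟨hd, h3⟩ := h2 e ⟨hc, hnt⟩
    cases hz : (z e).1
    · rcases e2 e hd with h4 | h4
      · exact Or.inl (Or.inl h4)
      · have h5 := (h3.resolve_left (by simp [hz])).resolve_left fun h => hnt h.1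
        exact Or.inr ⟨by simp [h4, lab, hz, h5.2.1, h5.2.2], x, y, w, a1, a2, a3, by simp,
          by simp, a6, e3 _ (h1 _ a7).1 (h1 _ a7).2, e3 _ (h1 _ a8).1 (h1 _ a8).2⟩
    · exact Or.inl (e3 e hd (Or.inl hz))

theorem fail_le (hpr : PairMap pr) {M s k : ℕ} (hn : Fintype.card V = 3 * M) (hm : 0 < m)
    (hmM : m ≤ M) (hg : 2 * s ≤ 3 * m) (hpow : ((M : ℝ) / m) ^ (8 * (2 * s)) ≤ 2 ^ m)
    (hθ : θ = 4 * (m / M)) {q₁ p₂ p μ r₀ lam : ℝ} (hq0 : 0 ≤ q₁) (hq1 : q₁ ≤ 1)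
    (hp : p ≤ 1 / 10) (hp₂ : p₂ ≤ p) (hp₂0 : 0 < p₂)
    (hδ : 1 ≤ 2 / 3 * (q₁ * s)) (hl1 : lam ≤ q₁ * s / 20)
    (hl2 : lam ≤ p * (2 / 3 * (q₁ * s) * (2 / 3 * (q₁ * s) - 1)) / 12)
    (hμ0 : 0 < μ) (hμ2 : μ ≤ 7 / 8 * (p₂ / 240 * m))
    (h1 : θ ^ 2 * (60 / (p / 240 * m)) ^ 2 ≤ r₀) (h2 : θ ^ 3 * (240 / (p₂ / 240 * m)) ^ 2 ≤ r₀)
    (hr₀ : 0 < r₀) (hk : 0 < k) (hmk : m < 2 ^ k) (hqc : 24 * k * (6 * r₀) ≤ p / 2) :
    Ex (fun _ => w5 q₁ p₂ p) (fun x : E → Seed =>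
      ind (¬ Fac pr (buy pr m θ fun e => lab (x e)) univ)) ≤
      ((Fintype.card V : ℝ) ^ 2 * (Fintype.card V * q₁ ^ 2) ^ 7 +
        4 ^ Fintype.card V * (2 * Real.exp (-lam)) ^ s) +
      ((Fintype.card V * 60 * Real.exp (-μ / 20) + 6 / m) +
        (Fintype.card V : ℝ) ^ 2 * (Fintype.card V * p ^ 2) ^ 7 + 1 / k) := by
  classical
  have hp0 : 0 < p := hp₂0.trans_le hp₂
  have hm' : (0 : ℝ) < m := by exact_mod_cast hm
  have hPq : IsP (fun _ : E => bern q₁) := isP_bern (fun _ => hq0) fun _ => hq1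
  have hPp : IsP (fun _ : E => bern p) := isP_bern (fun _ => hp0.le) fun _ => by linarith
  have hP3 : IsP (fun _ : E => w3 p₂ p) := isP_w3 hp₂0.le (by linarith) hp0.le (by linarith)
  set err : ℝ := (Fintype.card V * 60 * Real.exp (-μ / 20) + 6 / m) +
        (Fintype.card V : ℝ) ^ 2 * (Fintype.card V * p ^ 2) ^ 7 + 1 / k with herr
  have herr0 : 0 ≤ err := by positivity
  have key : ∀ a c : E → Bool, Ex (fun _ => bern p) (fun d : E → Bool => Ex (fun _ => w3 p₂ p)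
      (fun z => ind (¬ Fac pr (buy pr m θ fun e =>
        lab (a e, splice (Clo pr fun e => a e = true) c d e, z e)) univ))) ≤
      ind (¬ Dense pr (B2 pr ∅ (fun e => a e = true) (fun e => c e = true)) (2 * s)) + err := by
    intro a c
    by_cases hD : Dense pr (B2 pr ∅ (fun e => a e = true) (fun e => c e = true)) (2 * s)
    swap
    · rw [ind_pos hD]
      exact (Ex_le hPp fun _ => Ex_le hP3 fun _ => ind_le_one _).trans (by linarith)
    rw [ind_neg (not_not.2 hD), zero_add]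
    have hr := Uof_ready (hθ ▸ exists_ready hD hn hm hmM hg hpow)
    set U := Uof pr m θ (B2 pr ∅ (fun e => a e = true) (fun e => c e = true)) with hU
    obtain ⟨hu, Ξ, hΞ, R, hR, hsp⟩ := hr
    let qe : E → ℝ := fun e => if touch pr U e then p / 240 else p₂ / 240
    have hqe0 : ∀ e, 0 ≤ qe e := fun e => by simp only [qe]; split_ifs <;> positivity
    have hqe1 : ∀ e, 120 * qe e ≤ p := fun e => by simp only [qe]; split_ifs <;> linarith
    have h3 := phase2 hpr Ξ hΞ U R hm (fun ξ hξ => (hR ξ hξ).1) (fun ξ hξ => (hR ξ hξ).2.1) hu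
      (by rw [hθ]; positivity) hsp (qU := p / 240) (q' := p₂ / 240) (qc := p / 2) (qe := qe) hqe0
      (fun e => by linarith [hqe1 e])
      (fun x hx y hy => if_pos ⟨x, hx, y, fun h => hy (h ▸ hx), rfl⟩)
      (fun x hx y hy h => if_neg (not_touch hpr h hx hy)) (by positivity) (by positivity) hμ0
      (by nlinarith) hμ2 h1 h2 hr₀ hk hmk hqc (by linarith) hqe1
    have hPi := (isP_layers hqe0 fun e => by linarith [hqe1 e]).pair
      (isP_bern (I := E) (q := fun _ => p / 2) (fun _ => by positivity) fun _ => by linarith)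
    rw [← Ex_pair (fun e (z : Lay → Bool) => ∏ l, bern (qe e) (z l)) (fun _ => bern (p / 2))
      (fun y => ind (¬ ∃ ξ ∈ Ξ, Fac pr (B2 pr U (fun e => ∃ l, (y e).1 l = true)
        (fun e => (y e).2 = true)) (R ξ))), Ex_not hPi] at h3
    rw [← Ex_pair (fun _ : E => bern p) (fun _ => w3 p₂ p) (fun y => ind (¬ Fac pr (buy pr m θ
      fun e => lab (a e, splice (Clo pr fun e => a e = true) c (fun e => (y e).1) e, (y e).2))
      univ)), Ex_not (hPp.pair hP3)]
    refine le_trans (sub_le_sub_left ?_ 1) h3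
    refine Ex_dom E _ _ _ (fun e => pair_dom (touch pr U e) (hqe0 e) (by positivity) hp hp₂
      hp₂0.le (fun h => by simp only [qe, if_pos h]; linarith)
      (fun h => by simp only [qe, if_neg h]; linarith) (by linarith)) _ _ fun x y hxy =>
      ind_mono fun ⟨ξ, hξ, hf⟩ => ?_
    exact real_succ hpr a c _ _ hU (fun e he => (hxy e).2 he) (fun e he => (hxy e).1 (Or.inr he))
      (hR ξ hξ).2.2 hf
  rw [Ex_w5]
  have f1 := phase1 hpr hq0 hq1 hp0.le (by linarith) hδ hl1 hl2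
  refine le_trans (Ex_mono hPq.nonneg (G := fun a => Ex (fun _ => bern p) (fun c : E → Bool =>
    ind (¬ Dense pr (B2 pr ∅ (fun e => a e = true) (fun e => c e = true)) (2 * s)) + err))
    fun a => ?_) ?_
  · rw [Ex_splice hPp (Clo pr fun e => a e = true)]
    exact Ex_mono hPp.nonneg (key a)
  · simp only [Ex_add, Ex_const hPp, Ex_const hPq]
    linarith

lemma lab_lt {q₁ p₂ p : ℝ} (h5 : 0 ≤ q₁) (h6 : q₁ ≤ 1) (h1 : 0 ≤ p₂) (h2 : p₂ ≤ 1) (h3 : 0 ≤ p)
    (h4 : p ≤ 1) : ∑ z : Seed, w5 q₁ p₂ p z * ind (lab z < 5) ≤ q₁ + p₂ + 3 * p := by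
  have e : ∑ z : Seed, w5 q₁ p₂ p z * ind (lab z < 5) =
      1 - (1 - q₁) * ((1 - p) * ((1 - p₂) * ((1 - p) * (1 - p)))) := by
    simp [Fintype.sum_prod_type, bern, w3, w5, ind, lab]; ring
  rw [e]
  have a : ∀ x y : ℝ, 0 ≤ x → 0 ≤ y → 1 - (x + y) ≤ (1 - x) * (1 - y) := fun x y hx hy => by
    nlinarith [mul_nonneg hx hy]
  have b1 := a p p h3 h3
  have b2 := (a p₂ (p + p) h1 (by linarith)).trans
    (mul_le_mul_of_nonneg_left b1 (sub_nonneg.2 h2))
  have b3 := (a p (p₂ + (p + p)) h3 (by linarith)).trans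
    (mul_le_mul_of_nonneg_left b2 (sub_nonneg.2 h4))
  have b4 := (a q₁ (p + (p₂ + (p + p))) h5 (by linarith)).trans
    (mul_le_mul_of_nonneg_left b3 (sub_nonneg.2 h6))
  linarith

theorem count_le {q₁ p₂ p : ℝ} (h5 : 0 ≤ q₁) (h6 : q₁ ≤ 1) (h1 : 0 ≤ p₂) (h2 : p₂ ≤ 1)
    (h3 : 0 ≤ p) (h4 : p ≤ 1) (t : ℕ) :
    Ex (fun _ => w5 q₁ p₂ p) (fun x : E → Seed =>
      ind (¬ (univ.filter fun e => lab (x e) < 5).card ≤ t)) ≤
      Real.exp (Fintype.card E * (q₁ + p₂ + 3 * p)) / 2 ^ t := by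
  have hP : IsP (fun _ : E => w5 q₁ p₂ p) := isP_w5 h5 h6 h1 h2 h3 h4
  have s1 : ∀ x : E → Seed, ind (¬ (univ.filter fun e => lab (x e) < 5).card ≤ t) ≤
      (∏ e, (if lab (x e) < 5 then (2 : ℝ) else 1)) * (2 ^ t)⁻¹ := by
    intro x
    rw [prod_ite, prod_const, prod_const, one_pow, mul_one]
    refine ind_le (by positivity) fun h => ?_
    rw [← div_eq_mul_inv, one_le_div (by positivity)]
    exact pow_le_pow_right₀ (by norm_num) (not_le.1 h).le
  refine (Ex_mono hP.nonneg s1).trans ?_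
  rw [Ex_mul_const, Ex_prod _ (fun _ z => if lab z < 5 then (2 : ℝ) else 1), div_eq_mul_inv,
    Real.exp_nat_mul, prod_const, card_univ]
  refine mul_le_mul_of_nonneg_right ?_ (by positivity)
  rcases isEmpty_or_nonempty E with hE | ⟨⟨e⟩⟩
  · simp
  refine pow_le_pow_left₀ (sum_nonneg fun z _ => mul_nonneg (hP.nonneg e z)
    (by split_ifs <;> norm_num)) ?_ _
  have e1 : ∑ z : Seed, w5 q₁ p₂ p z * (if lab z < 5 then (2 : ℝ) else 1) =
      ∑ z : Seed, w5 q₁ p₂ p z * ind (lab z < 5) + ∑ z : Seed, w5 q₁ p₂ p z := by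
    rw [← sum_add_distrib]
    refine sum_congr rfl fun z _ => ?_
    by_cases h : lab z < 5
    · rw [if_pos h, ind_pos h]; ring
    · rw [if_neg h, ind_neg h]; ring
  rw [e1, hP.sum e]
  linarith [lab_lt h5 h6 h1 h2 h3 h4, Real.add_one_le_exp (q₁ + p₂ + 3 * p)]

open Classical in
theorem budget_le (hpr : PairMap pr) {q₁ p₂ p : ℝ} (h5 : 0 ≤ q₁) (h6 : q₁ ≤ 1) (h1 : 0 ≤ p₂)
    (h2 : p₂ ≤ 1) (h3 : 0 ≤ p) (h4 : p ≤ 1) :
    Ex (fun _ => w5 q₁ p₂ p) (fun x : E → Seed =>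
      ((univ.filter (buy pr m θ fun e => lab (x e))).card : ℝ)) ≤
      Fintype.card E * q₁ + Fintype.card E * p₂ + m * Fintype.card V * p +
        (Fintype.card V : ℝ) ^ 3 * (q₁ + p₂ + 3 * p) ^ 3 := by
  have hP : IsP (fun _ : E => w5 q₁ p₂ p) := isP_w5 h5 h6 h1 h2 h3 h4
  have hPq : IsP (fun _ : E => bern q₁) := isP_bern (fun _ => h5) fun _ => h6
  have hPp : IsP (fun _ : E => bern p) := isP_bern (fun _ => h3) fun _ => h4
  have hP3 : IsP (fun _ : E => w3 p₂ p) := isP_w3 h1 h2 h3 h4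
  let C : (E → Seed) → V × V × V → Prop := fun x t => (t.1 ≠ t.2.1 ∧ t.1 ≠ t.2.2 ∧ t.2.1 ≠ t.2.2) ∧
    ∀ e ∈ ({pr t.1 t.2.1, pr t.1 t.2.2, pr t.2.1 t.2.2} : Finset E), lab (x e) < 5
  have s1 : ∀ x : E → Seed, ((univ.filter (buy pr m θ fun e => lab (x e))).card : ℝ) ≤
      ∑ e, ind ((x e).1 = true) + ∑ e, ind ((x e).2.2.1 = true) +
      ∑ e, ind (touch pr (Uof pr m θ (B1 pr fun e => lab (x e))) e) * ind ((x e).2.2.2.1 = true) +
      ∑ t, ind (C x t) := by
    intro x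
    have a1 : ∑ t, ind (C x t) = ∑ e, ∑ t, ind (C x t ∧ pr t.2.1 t.2.2 = e) := by
      rw [sum_comm]
      refine sum_congr rfl fun t _ => ?_
      simp only [ind_and, ← mul_sum]
      rw [← card_filter_eq_sum_ind, filter_eq]; simp
    rw [card_filter_eq_sum_ind, a1, ← sum_add_distrib, ← sum_add_distrib, ← sum_add_distrib]
    refine sum_le_sum fun e _ => ?_
    rw [← ind_and]
    refine le_trans (ind_mono (Q := (((x e).1 = true ∨ (x e).2.2.1 = true) ∨
      (touch pr (Uof pr m θ (B1 pr fun e => lab (x e))) e ∧ (x e).2.2.2.1 = true)) ∨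
      ∃ t ∈ univ, C x t ∧ pr t.2.1 t.2.2 = e) fun hb => ?_) ((ind_or_le _ _).trans (add_le_add
      ((ind_or_le _ _).trans (add_le_add_left (ind_or_le _ _) _)) (ind_exists_le _ _)))
    have hlt := buy_lt _ _ hb
    rcases hb with ((hb | hb) | hb | hb) | hb
    · refine Or.inl (Or.inl (Or.inl ?_))
      revert hb; simp only [lab]; split_ifs <;> simp_all
    · obtain ⟨_, a, b, c, c1, c2, c3, _, _, rfl, c4, c5⟩ := hb
      refine Or.inr ⟨(a, b, c), mem_univ _, ⟨⟨c1, c2, c3⟩, ?_⟩, rfl⟩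
      simp only [mem_insert, mem_singleton, forall_eq_or_imp, forall_eq]
      exact ⟨lt_of_eq_of_lt c4 (by norm_num), lt_of_eq_of_lt c5 (by norm_num), hlt⟩
    · refine Or.inl (Or.inl (Or.inr ?_))
      revert hb; simp only [lab]; split_ifs <;> simp_all
    · refine Or.inl (Or.inr ⟨hb.2, ?_⟩)
      have := hb.1
      revert this; simp only [lab]; split_ifs <;> simp_all
    · obtain ⟨_, a, b, c, c1, c2, c3, _, _, rfl, c4, c5⟩ := hb
      refine Or.inr ⟨(a, b, c), mem_univ _, ⟨⟨c1, c2, c3⟩, ?_⟩, rfl⟩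
      simp only [mem_insert, mem_singleton, forall_eq_or_imp, forall_eq]
      exact ⟨(B3_lt c4).trans (by norm_num), (B3_lt c5).trans (by norm_num), hlt⟩
  refine (Ex_mono hP.nonneg s1).trans ?_
  rw [Ex_add, Ex_add, Ex_add, Ex_sum, Ex_sum, Ex_sum (univ : Finset (V × V × V))]
  refine add_le_add (add_le_add (add_le_add ?_ ?_) ?_) ?_
  · refine (sum_le_card_nsmul _ _ q₁ fun e _ => ?_).trans (le_of_eq (by simp))
    have := Ex_all _ hP {e} (fun _ z => ind (z.1 = true))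
    simp only [prod_singleton] at this
    rw [this]
    simp [Fintype.sum_prod_type, bern, w3, w5, ind]
    exact le_of_eq (by ring)
  · refine (sum_le_card_nsmul _ _ p₂ fun e _ => ?_).trans (le_of_eq (by simp))
    have := Ex_all _ hP {e} (fun _ z => ind (z.2.2.1 = true))
    simp only [prod_singleton] at this
    rw [this]
    simp [Fintype.sum_prod_type, bern, w3, w5, ind]
    exact le_of_eq (by ring)
  · rw [Ex_w5]
    refine Ex_le hPq fun a => Ex_le hPp fun c => ?_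
    simp only [B1_eq]
    set U := Uof pr m θ (B2 pr ∅ (fun e => a e = true) (fun e => c e = true)) with hU
    have hu : 8 * U.card ≤ m := Uof_card _
    rw [Ex_sum]
    have b1 : ∀ e, Ex (fun _ => w3 p₂ p) (fun z : E → Bool × Bool × Bool =>
        ind (touch pr U e) * ind ((z e).2.1 = true)) = ind (touch pr U e) * p := by
      intro e
      have := Ex_all _ hP3 {e} (fun _ z => ind (z.2.1 = true))
      simp only [prod_singleton] at this
      rw [Ex_smul, this]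
      congr 1
      simp [Fintype.sum_prod_type, bern, w3, ind]; ring
    simp only [b1]
    rw [← sum_mul, ← card_filter_eq_sum_ind]
    refine mul_le_mul_of_nonneg_right ?_ h3
    have b2 : (univ.filter (touch pr U)).card ≤ m * Fintype.card V := by
      have : univ.filter (touch pr U) ⊆ (U ×ˢ univ).image fun t : V × V => pr t.1 t.2 := by
        intro e he
        obtain ⟨x, hx, y, _, rfl⟩ := (mem_filter.1 he).2
        exact mem_image.2 ⟨(x, y), mem_product.2 ⟨hx, mem_univ _⟩, rfl⟩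
      refine (card_le_card this).trans (card_image_le.trans ?_)
      rw [card_product, card_univ]
      exact Nat.mul_le_mul_right _ (by omega)
    exact_mod_cast b2
  · refine (sum_le_card_nsmul _ _ ((q₁ + p₂ + 3 * p) ^ 3) fun t _ => ?_).trans
      (le_of_eq (by simp; left; ring))
    simp only [C, ind_and]
    rw [Ex_smul]
    by_cases ht : t.1 ≠ t.2.1 ∧ t.1 ≠ t.2.2 ∧ t.2.1 ≠ t.2.2
    · rw [← ind_and, ← ind_and, ind_pos ht, one_mul]
      refine (Ex_all_le hP _ (fun z => lab z < 5) fun _ => lab_lt h5 h6 h1 h2 h3 h4).trans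
        (le_of_eq ?_)
      obtain ⟨t1, t2, t3⟩ := ht
      rw [card_eq_three.2 ⟨_, _, _, fun h => ?_, fun h => ?_, fun h => ?_, rfl⟩]
      · rcases hpr.inj _ _ _ _ t1 t2 h with h | h
        · exact t3 h.2
        · exact t2 h.1
      · rcases hpr.inj _ _ _ _ t1 t3 h with h | h
        · exact t1 h.1
        · exact t2 h.1
      · rcases hpr.inj _ _ _ _ t2 t3 h with h | h
        · exact t1 h.1
        · exact t2 h.1
    · rw [← ind_and, ← ind_and, ind_neg ht, zero_mul]; positivity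

theorem finite_bound (hpr : PairMap pr) {M s k : ℕ} (hn : Fintype.card V = 3 * M) (hm : 0 < m)
    (hmM : m ≤ M) (hg : 2 * s ≤ 3 * m) (hpow : ((M : ℝ) / m) ^ (8 * (2 * s)) ≤ 2 ^ m)
    (hθ : θ = 4 * (m / M)) {q₁ p₂ p μ r₀ lam : ℝ} (hq0 : 0 ≤ q₁) (hq1 : q₁ ≤ 1)
    (hp : p ≤ 1 / 10) (hp₂ : p₂ ≤ p) (hp₂0 : 0 < p₂)
    (hδ : 1 ≤ 2 / 3 * (q₁ * s)) (hl1 : lam ≤ q₁ * s / 20)
    (hl2 : lam ≤ p * (2 / 3 * (q₁ * s) * (2 / 3 * (q₁ * s) - 1)) / 12)
    (hμ0 : 0 < μ) (hμ2 : μ ≤ 7 / 8 * (p₂ / 240 * m))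
    (h1 : θ ^ 2 * (60 / (p / 240 * m)) ^ 2 ≤ r₀) (h2 : θ ^ 3 * (240 / (p₂ / 240 * m)) ^ 2 ≤ r₀)
    (hr₀ : 0 < r₀) (hk : 0 < k) (hmk : m < 2 ^ k) (hqc : 24 * k * (6 * r₀) ≤ p / 2)
    (t b : ℕ) (ht : t ≤ Fintype.card E) (hb : 0 < b) :
    ∃ S : (Fin t ↪ E) → Finset (Fin t),
      (∀ (σ σ' : Fin t ↪ E) (i : Fin t), (∀ j, j ≤ i → σ j = σ' j) → (i ∈ S σ ↔ i ∈ S σ')) ∧
      (∀ σ, (S σ).card ≤ b) ∧
      (1 - ((((Fintype.card V : ℝ) ^ 2 * (Fintype.card V * q₁ ^ 2) ^ 7 +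
        4 ^ Fintype.card V * (2 * Real.exp (-lam)) ^ s) +
      ((Fintype.card V * 60 * Real.exp (-μ / 20) + 6 / m) +
        (Fintype.card V : ℝ) ^ 2 * (Fintype.card V * p ^ 2) ^ 7 + 1 / k)) +
        ((Fintype.card E * q₁ + Fintype.card E * p₂ + m * Fintype.card V * p +
          (Fintype.card V : ℝ) ^ 3 * (q₁ + p₂ + 3 * p) ^ 3) / b +
        Real.exp (Fintype.card E * (q₁ + p₂ + 3 * p)) / 2 ^ t))) * Fintype.card (Fin t ↪ E) ≤
        ∑ σ : Fin t ↪ E, ind (Fac pr (fun e => ∃ i ∈ S σ, σ i = e) univ) := by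
  classical
  have hp0 : 0 < p := hp₂0.trans_le hp₂
  have hP : IsP (fun _ : E => w5 q₁ p₂ p) :=
    isP_w5 hq0 hq1 hp₂0.le (by linarith) hp0.le (by linarith)
  obtain ⟨S, s1, s2, s3⟩ := transfer hP lab lab_le (buy pr m θ) buy_lt buy_causal
    (fun B => Fac pr B univ) t b ht
  refine ⟨S, s1, s2, le_trans (mul_le_mul_of_nonneg_right ?_ (by positivity)) s3⟩
  have f1 := fail_le hpr hn hm hmM hg hpow hθ hq0 hq1 hp hp₂ hp₂0 hδ hl1 hl2 hμ0 hμ2 h1 h2 hr₀ hk
    hmk hqc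
  have f2 := budget_le (m := m) (θ := θ) hpr hq0 hq1 hp₂0.le (by linarith) hp0.le (by linarith)
  have f3 := count_le (E := E) hq0 hq1 hp₂0.le (by linarith) hp0.le (by linarith) t
  have hb' : (0 : ℝ) < b := by exact_mod_cast hb
  have f4 := (markov hP.nonneg (F := fun x : E → Seed =>
    ((univ.filter (buy pr m θ fun e => lab (x e))).card : ℝ)) (fun _ => by positivity) hb').trans
    (div_le_div_of_nonneg_right f2 hb'.le)
  have f5 : Ex (fun _ : E => w5 q₁ p₂ p) (fun x => 1 -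
      (ind (¬ Fac pr (buy pr m θ fun e => lab (x e)) univ) +
      (ind ((b : ℝ) < (univ.filter (buy pr m θ fun e => lab (x e))).card) +
      ind (¬ (univ.filter fun e => lab (x e) < 5).card ≤ t)))) ≤
      Ex (fun _ : E => w5 q₁ p₂ p) (fun x => ind (Fac pr (buy pr m θ fun e => lab (x e)) univ ∧
        (univ.filter (buy pr m θ fun e => lab (x e))).card ≤ b ∧
        (univ.filter fun e => lab (x e) < 5).card ≤ t)) := by
    refine Ex_mono hP.nonneg fun x => ?_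
    rw [← not_le, Nat.cast_le, sub_le_comm, ← ind_not, not_and_or, not_and_or]
    exact (ind_or_le _ _).trans (add_le_add_right (ind_or_le _ _) _)
  rw [Ex_sub, Ex_add, Ex_add, Ex_const hP] at f5
  linarith

end

end Pool.Agent.MP_81e6aa_pr
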