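import Pool.Agent.MP_81e6aa_pr.Ex

/-!
Hall's condition for random picks (a first moment bound in the style of Walkup).
-/

set_option autoImplicit false

namespace Pool.Agent.MP_81e6aa_pr

open Finset

noncomputable section

lemma Ex_all_S {I α : Type} [Fintype I] [DecidableEq I] [Fintype α] {w : I → α → ℝ} (hw : IsS w)
    (S : Finset I) (f : I → α → ℝ) (hf : ∀ i a, 0 ≤ f i a) :
    Ex w (fun x => ∏ i ∈ S, f i (x i)) ≤ ∏ i ∈ S, ∑ a, w i a * f i a := by
  have h := Ex_prod w (fun i a => if i ∈ S then f i a else 1)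
  have e1 : ∀ x : I → α, ∏ i, (if i ∈ S then f i (x i) else 1) = ∏ i ∈ S, f i (x i) := fun x => by
    rw [prod_ite_mem, univ_inter]
  simp only [e1] at h
  rw [h, ← univ_inter S, ← prod_ite_mem, univ_inter]
  refine prod_le_prod (fun i _ => sum_nonneg fun a _ => mul_nonneg (hw.nonneg _ _) ?_) fun i _ => ?_
  · split_ifs
    · exact hf _ _
    · norm_num
  · split_ifs
    · exact le_rfl
    · simpa using hw.le i

lemma choose_le_three (n k : ℕ) (hk : 0 < k) : (n.choose k : ℝ) ≤ (3 * n / k) ^ k := by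
  have h1 : (n.choose k : ℝ) ≤ (n : ℝ) ^ k / k.factorial := Nat.choose_le_pow_div k n
  have hk' : (0 : ℝ) < k := by exact_mod_cast hk
  have h2 := Real.pow_div_factorial_le_exp (k : ℝ) hk'.le k
  have h3 : Real.exp (k : ℝ) ≤ 3 ^ k := by
    rw [← mul_one (k : ℝ), Real.exp_nat_mul]
    exact pow_le_pow_left₀ (Real.exp_pos _).le (by linarith [Real.exp_one_lt_d9]) k
  have hf : (0 : ℝ) < k.factorial := by exact_mod_cast k.factorial_pos
  refine h1.trans ?_
  rw [div_pow, mul_pow, div_le_div_iff₀ hf (by positivity)]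
  have h4 : (k : ℝ) ^ k ≤ 3 ^ k * k.factorial := by
    rw [← div_le_iff₀ hf]; exact h2.trans h3
  calc (n : ℝ) ^ k * (k : ℝ) ^ k ≤ (n : ℝ) ^ k * (3 ^ k * k.factorial) :=
        mul_le_mul_of_nonneg_left h4 (by positivity)
    _ = _ := by ring

lemma viol_num {a p t s : ℕ} {M : ℝ} (hM : 0 < M) (ha : (a : ℝ) ≤ 2 * M)
    (hp : (t : ℝ) * p ≤ 2 * M * s) (hs : t ≤ 2 * s) (h1 : 1 ≤ s) (ht : (t : ℝ) ≤ M) :
    (a.choose t : ℝ) * ((p.choose s : ℝ) * (t * (6 / 7 / M)) ^ (s * 60)) ≤ (1 / 2) ^ t / M := by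
  rcases Nat.eq_zero_or_pos t with rfl | ht0
  · rw [Nat.cast_zero, zero_mul, zero_pow (by omega)]; simp; positivity
  have ht' : (0 : ℝ) < t := by exact_mod_cast ht0
  have hs' : (0 : ℝ) < s := by exact_mod_cast h1
  set z : ℝ := t / M with hz
  have hz0 : 0 < z := by positivity
  have hz1 : z ≤ 1 := by rw [hz, div_le_one hM]; exact ht
  have h6 : 1 ≤ 6 / z := by rw [le_div_iff₀ hz0]; linarith
  have e1 : (a.choose t : ℝ) ≤ (6 / z) ^ (2 * s) := by
    refine (choose_le_three a t ht0).trans (le_trans ?_ (pow_le_pow_right₀ h6 hs))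
    refine pow_le_pow_left₀ (by positivity) ?_ t
    rw [hz, div_div_eq_mul_div]
    exact div_le_div_of_nonneg_right (by linarith) ht'.le
  have e2 : (p.choose s : ℝ) ≤ (6 / z) ^ s := by
    refine (choose_le_three p s h1).trans (pow_le_pow_left₀ (by positivity) ?_ s)
    rw [hz, div_div_eq_mul_div, div_le_div_iff₀ hs' ht']
    linarith
  have e3 : (t : ℝ) * (6 / 7 / M) = 6 / 7 * z := by rw [hz]; ring
  rw [e3]
  have e4 : (6 / z) ^ 3 * (6 / 7 * z) ^ 60 ≤ 1 / 16 * z := by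
    have : (6 / z) ^ 3 * (6 / 7 * z) ^ 60 = (216 * (6 / 7) ^ 60) * (z ^ 56 * z) := by
      field_simp; ring
    rw [this]
    have h7 : z ^ 56 * z ≤ z := mul_le_of_le_one_left hz0.le (pow_le_one₀ hz0.le hz1)
    exact mul_le_mul (by norm_num) h7 (by positivity) (by norm_num)
  have e5 : (1 / 16 * z) ^ s ≤ (1 / 2) ^ t / M := by
    rw [mul_pow]
    have f1 : z ^ s ≤ z := by
      have := pow_le_pow_of_le_one hz0.le hz1 h1
      rwa [pow_one] at this
    have f2 : (1 / 16 : ℝ) ^ s ≤ (1 / 2) ^ t * (1 / 2) ^ t := by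
      rw [← mul_pow, show (1 / 16 : ℝ) = (1 / 2 * (1 / 2)) ^ 2 by norm_num, ← pow_mul]
      exact pow_le_pow_of_le_one (by norm_num) (by norm_num) hs
    have f3 : (1 / 2 : ℝ) ^ t * t ≤ 1 := by
      have : (t : ℝ) ≤ 2 ^ t := by exact_mod_cast (Nat.lt_two_pow_self).le
      rw [one_div, inv_pow, inv_mul_le_iff₀ (by positivity)]; linarith
    calc (1 / 16 : ℝ) ^ s * z ^ s ≤ ((1 / 2) ^ t * (1 / 2) ^ t) * z :=
          mul_le_mul f2 f1 (by positivity) (by positivity)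
      _ = (1 / 2) ^ t / M * ((1 / 2) ^ t * t) := by rw [hz]; ring
      _ ≤ _ := mul_le_of_le_one_right (by positivity) f3
  calc (a.choose t : ℝ) * ((p.choose s : ℝ) * (6 / 7 * z) ^ (s * 60))
      ≤ (6 / z) ^ (2 * s) * ((6 / z) ^ s * (6 / 7 * z) ^ (s * 60)) :=
        mul_le_mul e1 (mul_le_mul_of_nonneg_right e2 (by positivity)) (by positivity)
          (by positivity)
    _ = ((6 / z) ^ 3 * (6 / 7 * z) ^ 60) ^ s := by
        rw [mul_pow ((6 / z) ^ 3), ← pow_mul, ← pow_mul, ← mul_assoc, ← pow_add, mul_comm 60 s]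
        congr 2; ring
    _ ≤ (1 / 16 * z) ^ s := pow_le_pow_left₀ (by positivity) e4 s
    _ ≤ _ := e5

variable {V : Type} [Fintype V] [DecidableEq V]

/-- some `σ t` vertices of `P` make all their picks in a set of `t ≤ M` vertices of `A` -/
def Viol (P A : Finset V) (M : ℝ) (σ : ℕ → ℕ) (π : V × Fin 60 → V) : Prop :=
  ∃ T ⊆ A, (T.card : ℝ) ≤ M ∧ ∃ S ⊆ P, S.card = σ T.card ∧ ∀ v ∈ S, ∀ c, π (v, c) ∈ T

lemma viol_le {w : V × Fin 60 → V → ℝ} (hw : IsS w) (P A : Finset V) {M : ℝ} (hM : 0 < M)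
    (σ : ℕ → ℕ) (hA : (A.card : ℝ) ≤ 2 * M) (hP : ∀ t : ℕ, (t : ℝ) * P.card ≤ 2 * M * σ t)
    (hσ : ∀ t, t ≤ 2 * σ t) (h1 : ∀ t, 1 ≤ σ t)
    (hw2 : ∀ v ∈ P, ∀ c a, w (v, c) a ≤ 6 / 7 / M) :
    Ex w (fun π => ind (Viol P A M σ π)) ≤ 2 / M := by
  classical
  have s1 : ∀ π, ind (Viol P A M σ π) ≤ ∑ T ∈ A.powerset, ∑ S ∈ P.powersetCard (σ T.card),
      ind ((T.card : ℝ) ≤ M) * ∏ κ ∈ S ×ˢ (univ : Finset (Fin 60)), ind (π κ ∈ T) := by
    intro π
    refine le_trans (ind_mono (Q := ∃ T ∈ A.powerset, ∃ S ∈ P.powersetCard (σ T.card),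
      (T.card : ℝ) ≤ M ∧ ∀ κ ∈ S ×ˢ (univ : Finset (Fin 60)), π κ ∈ T) ?_) ?_
    · rintro ⟨T, h1, h2, S, h3, h4, h5⟩
      exact ⟨T, mem_powerset.2 h1, S, mem_powersetCard.2 ⟨h3, h4⟩, h2,
        fun κ hκ => h5 κ.1 (mem_product.1 hκ).1 κ.2⟩
    · refine (ind_exists_le _ _).trans (sum_le_sum fun T _ => (ind_exists_le _ _).trans
        (sum_le_sum fun S _ => ?_))
      rw [ind_and, ind_forall]
  refine (Ex_mono hw.nonneg s1).trans ?_
  rw [Ex_sum]
  let f : ℕ → ℝ := fun t => ind ((t : ℝ) ≤ M) *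
    ((P.card.choose (σ t) : ℝ) * (t * (6 / 7 / M)) ^ (σ t * 60))
  have s2 : ∀ T ∈ A.powerset, Ex w (fun π => ∑ S ∈ P.powersetCard (σ T.card),
      ind ((T.card : ℝ) ≤ M) * ∏ κ ∈ S ×ˢ (univ : Finset (Fin 60)), ind (π κ ∈ T)) ≤
      f T.card := by
    intro T _
    rw [Ex_sum]
    have s3 : ∀ S ∈ P.powersetCard (σ T.card), Ex w (fun π => ind ((T.card : ℝ) ≤ M) *
        ∏ κ ∈ S ×ˢ (univ : Finset (Fin 60)), ind (π κ ∈ T)) ≤
        ind ((T.card : ℝ) ≤ M) * (T.card * (6 / 7 / M)) ^ (σ T.card * 60) := by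
      intro S hS
      obtain ⟨hS1, hS2⟩ := mem_powersetCard.1 hS
      rw [Ex_smul]
      refine mul_le_mul_of_nonneg_left ?_ (ind_nonneg _)
      refine (Ex_all_S hw _ (fun _ a => ind (a ∈ T)) fun _ _ => ind_nonneg _).trans ?_
      have : σ T.card * 60 = (S ×ˢ (univ : Finset (Fin 60))).card := by simp [hS2]
      rw [this, ← prod_const]
      refine prod_le_prod (fun κ _ => sum_nonneg fun a _ =>
        mul_nonneg (hw.nonneg _ _) (ind_nonneg _)) fun κ hκ => ?_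
      have e : ∑ a, w κ a * ind (a ∈ T) = ∑ a ∈ T, w κ a := by
        rw [← univ_inter T, ← sum_ite_mem, univ_inter]
        exact sum_congr rfl fun a _ => by by_cases h : a ∈ T <;> simp [ind, h]
      rw [e, ← nsmul_eq_mul, ← sum_const]
      exact sum_le_sum fun a _ => hw2 κ.1 (hS1 (mem_product.1 hκ).1) κ.2 a
    refine (sum_le_sum s3).trans ?_
    rw [sum_const, card_powersetCard, nsmul_eq_mul]
    exact le_of_eq (by simp only [f]; ring)
  refine (sum_le_sum s2).trans ?_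
  rw [sum_powerset_apply_card f]
  have s4 : ∀ t ∈ range (A.card + 1), A.card.choose t • f t ≤ (1 / 2) ^ t / M := by
    intro t _
    rw [nsmul_eq_mul]
    by_cases ht : (t : ℝ) ≤ M
    · simp only [f, ind_pos ht, one_mul]
      exact viol_num hM hA (hP t) (hσ t) (h1 t) ht
    · simp only [f, ind_neg ht, zero_mul, mul_zero]; positivity
  refine (sum_le_sum s4).trans ?_
  rw [← sum_div]
  exact div_le_div_of_nonneg_right (sum_geometric_two_le _) hM.le

/-- `x` picked `y` or `y` picked `x` -/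
def Pk (π : V × Fin 60 → V) (x y : V) : Prop := (∃ c, π (x, c) = y) ∨ ∃ c, π (y, c) = x

omit [Fintype V] in
lemma hall {X Cen Lf : Finset V} {m : ℕ} (hC : Cen ⊆ X) (hX : X.card = m) (hL : Lf.card = 2 * m)
    (π : V × Fin 60 → V) (h1 : ∀ v ∈ X, ∀ c, π (v, c) ∈ Lf) (h2 : ∀ v ∈ Lf, ∀ c, π (v, c) ∈ Cen)
    (hA : ¬ Viol X Lf m (fun t => t / 2 + 1) π)
    (hB : ¬ Viol Lf Cen (m / 2) (fun t => 2 * t + 1) π) :
    ∃ φ : V × Bool → V, (∀ x ∈ X, ∀ b, φ (x, b) ∈ Lf ∧ Pk π x (φ (x, b))) ∧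
      ∀ x ∈ X, ∀ x' ∈ X, ∀ b b', φ (x, b) = φ (x', b') → x = x' ∧ b = b' := by
  classical
  let Γ : V → Finset V := fun x => Lf.filter fun y => Pk π x y
  have key : ∀ S : Finset (V × Bool), S ⊆ X ×ˢ univ → S.card ≤ (S.biUnion fun p => Γ p.1).card := by
    intro S hS
    by_contra hlt
    push Not at hlt
    set T := S.biUnion fun p => Γ p.1 with hT
    have hTL : T ⊆ Lf := biUnion_subset.2 fun p _ => filter_subset _ _
    rcases le_or_gt T.card m with hm | hm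
    · have c1 : S.card ≤ (S.image Prod.fst).card * 2 := by
        have : S ⊆ S.image Prod.fst ×ˢ (univ : Finset Bool) := fun p hp =>
          mem_product.2 ⟨mem_image_of_mem _ hp, mem_univ _⟩
        simpa using card_le_card this
      obtain ⟨S', h3, h4⟩ := exists_subset_card_eq (s := S.image Prod.fst) (n := T.card / 2 + 1)
        (by omega)
      refine hA ⟨T, hTL, by exact_mod_cast hm, S', fun v hv => ?_, h4, fun v hv c => ?_⟩
      · obtain ⟨p, hp, rfl⟩ := mem_image.1 (h3 hv)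
        exact (mem_product.1 (hS hp)).1
      · obtain ⟨p, hp, rfl⟩ := mem_image.1 (h3 hv)
        exact mem_biUnion.2 ⟨p, hp, mem_filter.2 ⟨h1 _ (mem_product.1 (hS hp)).1 c,
          Or.inl ⟨c, rfl⟩⟩⟩
    · set Z := Cen.filter fun x => ∀ b, (x, b) ∉ S with hZ
      have c1 : Z.card * 2 + S.card ≤ m * 2 := by
        have d : Disjoint (Z ×ˢ (univ : Finset Bool)) S := disjoint_left.2 fun p hp =>
          (mem_filter.1 (mem_product.1 hp).1).2 p.2
        have : Z ×ˢ (univ : Finset Bool) ∪ S ⊆ X ×ˢ univ := union_subset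
          (product_subset_product_left ((filter_subset _ _).trans hC)) hS
        have := card_le_card this
        rw [card_union_of_disjoint d] at this
        simpa [hX] using this
      have c2 : (Lf \ T).card + T.card = 2 * m := by rw [card_sdiff_add_card_eq_card hTL, hL]
      obtain ⟨S', h3, h4⟩ := exists_subset_card_eq (s := Lf \ T) (n := 2 * Z.card + 1) (by omega)
      refine hB ⟨Z, filter_subset _ _, ?_, S', h3.trans sdiff_subset, h4, fun v hv c => ?_⟩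
      · have : (Z.card : ℝ) * 2 ≤ m := by exact_mod_cast (by omega : Z.card * 2 ≤ m)
        linarith
      · obtain ⟨h5, h6⟩ := mem_sdiff.1 (h3 hv)
        exact mem_filter.2 ⟨h2 v h5 c, fun b hb => h6 (mem_biUnion.2 ⟨_, hb,
          mem_filter.2 ⟨h5, Or.inr ⟨c, rfl⟩⟩⟩)⟩
  obtain ⟨f, hf1, hf2⟩ := (all_card_le_biUnion_card_iff_exists_injective
    (fun p : {p : V × Bool // p ∈ X ×ˢ (univ : Finset Bool)} => Γ p.1.1)).1 (fun s => by
      have := key (s.image Subtype.val) (fun p hp => by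
        obtain ⟨p', _, rfl⟩ := mem_image.1 hp
        exact p'.2)
      rwa [card_image_of_injective _ Subtype.val_injective, image_biUnion] at this)
  refine ⟨fun p => if h : p ∈ X ×ˢ (univ : Finset Bool) then f ⟨p, h⟩ else p.1,
    fun x hx b => ?_, fun x hx x' hx' b b' h => ?_⟩
  · have h : (x, b) ∈ X ×ˢ (univ : Finset Bool) := mem_product.2 ⟨hx, mem_univ _⟩
    simp only [dif_pos h]
    exact mem_filter.1 (hf2 ⟨_, h⟩)
  · have h3 : (x, b) ∈ X ×ˢ (univ : Finset Bool) := mem_product.2 ⟨hx, mem_univ _⟩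
    have h4 : (x', b') ∈ X ×ˢ (univ : Finset Bool) := mem_product.2 ⟨hx', mem_univ _⟩
    simp only [dif_pos h3, dif_pos h4] at h
    exact Prod.mk.inj (congrArg Subtype.val (hf1 h))

end

end Pool.Agent.MP_81e6aa_pr
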