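import Pool.Agent.MP_81e6aa_pr.Asym

/-!
Asymptotics and diagonal choice of the parameter.
-/

set_option autoImplicit false

namespace Pool.Agent.MP_81e6aa_pr

open Finset Filter Topology

noncomputable section

/-- the bought edges contain a triangle factor -/
def TF {n t : ℕ} (σ : Fin t ↪ {e : Sym2 (Fin n) // ¬ e.IsDiag}) (S : Finset (Fin t)) : Prop :=
  ∃ P : Finset (Finset (Fin n)),
    (∀ s : Finset (Fin n), s ∈ P →
      (SimpleGraph.fromEdgeSet ((S.image (fun i : Fin t => (σ i).1) : Finset (Sym2 (Fin n))) :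
        Set (Sym2 (Fin n)))).IsNClique 3 s) ∧
    ∀ v : Fin n, ∃! s : Finset (Fin n), s ∈ P ∧ v ∈ s

lemma exists_pr {n : ℕ} (hn : 2 ≤ n) :
    ∃ pr : Fin n → Fin n → {e : Sym2 (Fin n) // ¬ e.IsDiag}, PairMap pr ∧
      ∀ x y, x ≠ y → (pr x y).1 = s(x, y) := by
  let e₀ : {e : Sym2 (Fin n) // ¬ e.IsDiag} := ⟨s(⟨0, by omega⟩, ⟨1, by omega⟩), by simp⟩
  let pr : Fin n → Fin n → {e : Sym2 (Fin n) // ¬ e.IsDiag} := fun x y =>
    if h : x = y then e₀ else ⟨s(x, y), by simpa using h⟩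
  have h1 : ∀ x y, x ≠ y → (pr x y).1 = s(x, y) := fun x y h => by simp only [pr, dif_neg h]
  refine ⟨pr, ⟨fun x y => ?_, fun x y x' y' h h' e => ?_⟩, h1⟩
  · by_cases h : x = y
    · rw [h]
    · exact Subtype.ext (by rw [h1 x y h, h1 y x (Ne.symm h), Sym2.eq_swap])
  · have := congrArg Subtype.val e
    rw [h1 x y h, h1 x' y' h'] at this
    exact Sym2.eq_iff.1 this

lemma tf_of_fac {n t : ℕ} {pr : Fin n → Fin n → {e : Sym2 (Fin n) // ¬ e.IsDiag}}
    (h1 : ∀ x y, x ≠ y → (pr x y).1 = s(x, y)) (σ : Fin t ↪ {e : Sym2 (Fin n) // ¬ e.IsDiag})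
    (S : Finset (Fin t)) (h : Fac pr (fun e => ∃ i ∈ S, σ i = e) univ) : TF σ S := by
  obtain ⟨P, p1, p2⟩ := h.partition
  refine ⟨P, fun s hs => ?_, fun v => p2 v (mem_univ _)⟩
  obtain ⟨_, x, y, z, ⟨a1, a2, a3, a4, a5, a6⟩, rfl⟩ := p1 s hs
  have key : ∀ u v, u ≠ v → (∃ i ∈ S, σ i = pr u v) → (SimpleGraph.fromEdgeSet
      ((S.image (fun i : Fin t => (σ i).1) : Finset (Sym2 (Fin n))) :
        Set (Sym2 (Fin n)))).Adj u v := by
    rintro u v huv ⟨i, hi, e⟩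
    rw [SimpleGraph.fromEdgeSet_adj]
    exact ⟨mem_coe.2 (mem_image.2 ⟨i, hi, by rw [e, h1 u v huv]⟩), huv⟩
  exact SimpleGraph.is3Clique_triple_iff.2 ⟨key _ _ a1 a4, key _ _ a2 a5, key _ _ a3 a6⟩

/-- cube root of the number of vertices -/
def xx (m : ℕ) : ℝ := (3 * (m : ℝ)) ^ ((1 : ℝ) / 3)

/-- cube root of the logarithm of the number of vertices -/
def yy (m : ℕ) : ℝ := (Real.log (3 * (m : ℝ))) ^ ((1 : ℝ) / 3)

/-- the order of the hitting time -/
def ff (m : ℕ) : ℝ := xx m ^ 4 * yy m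

/-- the number of revealed edges -/
def tt (m : ℕ) : ℕ := ⌈5 * 30000 * ff m⌉₊

lemma ff_eq (m : ℕ) :
    ff m = (3 * (m : ℝ)) ^ ((4 : ℝ) / 3) * (Real.log (3 * (m : ℝ))) ^ ((1 : ℝ) / 3) := by
  unfold ff xx yy
  rw [← Real.rpow_natCast, ← Real.rpow_mul (by positivity)]
  norm_num

lemma cube_root {a : ℝ} (ha : 0 ≤ a) : (a ^ ((1 : ℝ) / 3)) ^ 3 = a := by
  rw [← Real.rpow_natCast, ← Real.rpow_mul ha]; norm_num

lemma tend3 : Tendsto (fun m : ℕ => 3 * (m : ℝ)) atTop atTop :=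
  tendsto_natCast_atTop_atTop.const_mul_atTop (by norm_num)

lemma xx_tend : Tendsto xx atTop atTop := (tendsto_rpow_atTop (by norm_num)).comp tend3

lemma yy_tend : Tendsto yy atTop atTop :=
  (tendsto_rpow_atTop (by norm_num)).comp (Real.tendsto_log_atTop.comp tend3)

lemma xx_cube (m : ℕ) : xx m ^ 3 = 3 * m := cube_root (by positivity)

lemma yy_cube {m : ℕ} (hm : 1 ≤ m) : yy m ^ 3 = Real.log (3 * m) := by
  have : (1 : ℝ) ≤ m := by exact_mod_cast hm
  exact cube_root (Real.log_nonneg (by linarith))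

lemma ff_tend : Tendsto ff atTop atTop :=
  ((tendsto_pow_atTop (by norm_num)).comp xx_tend).atTop_mul_atTop₀ yy_tend

lemma ev_pow (T : ℝ) {j : ℕ} (hj : j ≤ 15) : ∀ᶠ m in atTop, T * yy m ^ j ≤ xx m := by
  have h1 := (Real.isLittleO_pow_log_id_atTop (n := 5)).comp_tendsto xx_tend
  have h2 := h1.bound (c := 1 / (243 * (|T| + 1))) (by positivity)
  filter_upwards [h2, xx_tend.eventually_ge_atTop 1, yy_tend.eventually_ge_atTop 1,
    eventually_ge_atTop 1] with m h3 hx hy hm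
  have h4 : yy m ^ 15 = 243 * Real.log (xx m) ^ 5 := by
    rw [show 15 = 3 * 5 by norm_num, pow_mul, yy_cube hm, ← xx_cube, Real.log_pow]
    push_cast; ring
  simp only [Function.comp, id, Real.norm_eq_abs] at h3
  rw [abs_of_nonneg (show 0 ≤ xx m by linarith), one_div, ← div_eq_inv_mul,
    le_div_iff₀ (by positivity)] at h3
  have h5 : yy m ^ j ≤ yy m ^ 15 := pow_le_pow_right₀ hy hj
  have h6 : T * yy m ^ j ≤ (|T| + 1) * yy m ^ 15 :=
    mul_le_mul (by linarith [le_abs_self T]) h5 (by positivity) (by positivity)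
  have h7 := mul_le_mul_of_nonneg_right (le_abs_self (Real.log (xx m) ^ 5))
    (show 0 ≤ 243 * (|T| + 1) by positivity)
  rw [h4] at h6
  linarith

/-- a strategy with budget `ff m / K` that fails with probability `O(1 / K)` -/
def Works (m K : ℕ) : Prop :=
  ∃ S : (Fin (tt m) ↪ {e : Sym2 (Fin (3 * m)) // ¬ e.IsDiag}) → Finset (Fin (tt m)),
    (∀ (σ σ' : Fin (tt m) ↪ {e : Sym2 (Fin (3 * m)) // ¬ e.IsDiag}) (i : Fin (tt m)),
      (∀ j, j ≤ i → σ j = σ' j) → (i ∈ S σ ↔ i ∈ S σ')) ∧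
    (∀ σ, (S σ).card ≤ ⌈ff m / K⌉₊) ∧
    1 - 150008 / (K : ℝ) ≤ (Nat.card {σ // TF σ (S σ)} : ℝ) /
      Nat.card (Fin (tt m) ↪ {e : Sym2 (Fin (3 * m)) // ¬ e.IsDiag})

lemma ev_works {K : ℕ} (hK : 3 ≤ K) : ∀ᶠ m in atTop, Works m K := by
  have hK' : (0 : ℝ) < K := by exact_mod_cast (by omega)
  filter_upwards [xx_tend.eventually_ge_atTop 1, yy_tend.eventually_ge_atTop 1,
    eventually_ge_atTop 1, eventually_ge_atTop (128 * (K ^ 4) ^ 2),
    ev_pow (30 * 30000) (j := 1) (by norm_num), xx_tend.eventually_ge_atTop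
      (20 * (1 + 3 * (384 * ((K : ℝ) ^ 4) ^ 2)) * (K ^ 2 * (384 * ((K : ℝ) ^ 4) ^ 2))),
    yy_tend.eventually_ge_atTop
      (54 * (1 + 3 * (384 * ((K : ℝ) ^ 4) ^ 2)) * (K ^ 2 * (384 * ((K : ℝ) ^ 4) ^ 2)) ^ 2),
    ev_pow (K * 30000 ^ 14) (j := 14) (by norm_num), yy_tend.eventually_ge_atTop K,
    xx_tend.eventually_ge_atTop (1440 * K ^ 24 * K),
    ev_pow (K * (125 * 30000 ^ 3 * K)) (j := 2) (by norm_num)] with m hx hy hm H1 H2 H4 H5 H6 H7
      H8 H9
  classical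
  have hx0 : 0 < xx m := by linarith
  obtain ⟨pr, hpr, h1⟩ := exists_pr (n := 3 * m) (by omega)
  have hE : 2 * Fintype.card {e : Sym2 (Fin (3 * m)) // ¬ e.IsDiag} = 3 * m * (3 * m - 1) := by
    rw [Sym2.card_subtype_not_diag, Fintype.card_fin, Nat.choose_two_right]
    exact Nat.mul_div_cancel' (Nat.even_mul_pred_self _).two_dvd
  obtain ⟨n', hn'⟩ : ∃ n', 3 * m = n' + 2 := ⟨3 * m - 2, by omega⟩
  obtain ⟨S, s1, s2, s3, s4⟩ := param_bound hpr hK (M := m) (Fintype.card_fin _)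
    (by rw [hE, sq]; exact Nat.mul_le_mul_left _ (Nat.sub_le _ _))
    (by
      rw [show 4 = 2 * 2 by norm_num, mul_assoc, hE, hn', show n' + 2 - 1 = n' + 1 by omega]
      nlinarith) (c := 30000) (ε := 1 / K) rfl (xx_cube m) (yy_cube hm) hx hy (by positivity) H1
    (by simpa using H2) H4 H5 (by rw [div_le_div_iff₀ hx0 hK']; linarith)
    (by rw [one_div, ← div_eq_inv_mul, le_div_iff₀ hK']; linarith)
    (by rw [div_le_div_iff₀ hx0 hK']; linarith) (by rw [div_le_div_iff₀ hx0 hK']; linarith)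
  refine ⟨S, s1, s2, ?_⟩
  have hne : Nonempty (Fin (tt m) ↪ {e : Sym2 (Fin (3 * m)) // ¬ e.IsDiag}) :=
    Function.Embedding.nonempty_of_card_le (by rw [Fintype.card_fin]; exact s3)
  rw [Nat.card_eq_fintype_card, Nat.card_eq_fintype_card,
    le_div_iff₀ (by exact_mod_cast Fintype.card_pos), Fintype.card_subtype,
    card_filter_eq_sum_ind]
  refine le_trans (le_of_eq ?_) (s4.trans (sum_le_sum fun σ _ => ind_mono (tf_of_fac h1 σ _)))
  congr 1
  ring

theorem main : ∃ b : ℕ → ℕ, Tendsto (fun m : ℕ => (b m : ℝ) / ff m) atTop (𝓝 0) ∧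
    ∃ S : ∀ m : ℕ, (Fin (tt m) ↪ {e : Sym2 (Fin (3 * m)) // ¬ e.IsDiag}) → Finset (Fin (tt m)),
      (∀ (m : ℕ) (σ σ' : Fin (tt m) ↪ {e : Sym2 (Fin (3 * m)) // ¬ e.IsDiag}) (i : Fin (tt m)),
        (∀ j, j ≤ i → σ j = σ' j) → (i ∈ S m σ ↔ i ∈ S m σ')) ∧
      (∀ m σ, (S m σ).card ≤ b m) ∧
      Tendsto (fun m : ℕ => (Nat.card {σ // TF σ (S m σ)} : ℝ) /
        (Nat.card (Fin (tt m) ↪ {e : Sym2 (Fin (3 * m)) // ¬ e.IsDiag}) : ℝ)) atTop (𝓝 1) := by
  classical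
  let Kf : ℕ → ℕ := fun m => Nat.findGreatest (Works m) m
  have hK : Tendsto Kf atTop atTop := by
    refine tendsto_atTop.2 fun K => ?_
    filter_upwards [ev_works (K := max K 3) (le_max_right _ _), eventually_ge_atTop (max K 3)]
      with m h1 h2
    exact (le_max_left _ _).trans (Nat.le_findGreatest h2 h1)
  have hW : ∀ᶠ m in atTop, Works m (Kf m) := by
    filter_upwards [ev_works (K := 3) le_rfl, eventually_ge_atTop 3] with m h1 h2
    exact Nat.findGreatest_spec h2 h1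
  have hK' : Tendsto (fun m => ((Kf m : ℝ))⁻¹) atTop (𝓝 0) :=
    (tendsto_natCast_atTop_atTop.comp hK).inv_tendsto_atTop
  refine ⟨fun m => ⌈ff m / Kf m⌉₊, ?_, fun m => if h : Works m (Kf m) then h.choose else fun _ => ∅,
    fun m => ?_, fun m => ?_, ?_⟩
  · have h1 : Tendsto (fun m => ((Kf m : ℝ))⁻¹ + (ff m)⁻¹) atTop (𝓝 0) := by
      simpa using hK'.add ff_tend.inv_tendsto_atTop
    refine squeeze_zero' ?_ ?_ h1
    · filter_upwards [ff_tend.eventually_gt_atTop 0] with m hm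
      positivity
    · filter_upwards [ff_tend.eventually_gt_atTop 0] with m hm
      rw [div_le_iff₀ hm, add_mul, inv_mul_cancel₀ hm.ne', ← div_eq_inv_mul]
      exact (Nat.ceil_lt_add_one (by positivity)).le
  · by_cases h : Works m (Kf m)
    · simp only [dif_pos h]; exact h.choose_spec.1
    · simp [dif_neg h]
  · by_cases h : Works m (Kf m)
    · simp only [dif_pos h]; exact h.choose_spec.2.1
    · simp [dif_neg h]
  · have h1 : Tendsto (fun m => 1 - 150008 * ((Kf m : ℝ))⁻¹) atTop (𝓝 1) := by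
      simpa using (hK'.const_mul 150008).const_sub 1
    refine tendsto_of_tendsto_of_tendsto_of_le_of_le' h1 tendsto_const_nhds ?_
      (Eventually.of_forall fun m => ?_)
    · filter_upwards [hW] with m h
      simp only [dif_pos h]
      rw [← div_eq_mul_inv]
      exact h.choose_spec.2.2
    · refine div_le_one_of_le₀ ?_ (by positivity)
      exact_mod_cast Finite.card_subtype_le _

lemma tt_bounds : ∀ᶠ m in atTop, 150000 * ff m ≤ (tt m : ℝ) ∧ (tt m : ℝ) ≤ 150001 * ff m := by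
  filter_upwards [ff_tend.eventually_ge_atTop 1] with m hm
  have h1 := Nat.le_ceil (5 * 30000 * ff m)
  have h2 := Nat.ceil_lt_add_one (a := 5 * 30000 * ff m) (by positivity)
  unfold tt
  constructor <;> linarith

end

end Pool.Agent.MP_81e6aa_pr
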