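import Pool.Agent.MP_81e6aa_pr.Ex

/-!
The Park-Pham theorem for binomial random sets, with a failure probability tending to zero.
-/

set_option autoImplicit false

namespace Pool.Agent.MP_81e6aa_pr

open Finset

noncomputable section

variable {I : Type} [Fintype I] [DecidableEq I]

/-- the part of `S` outside the set `x` -/
def rem (S : Finset I) (x : I → Bool) : Finset I := S.filter fun e => x e = false

omit [Fintype I] in
lemma exists_frag (H : Finset (Finset I)) (x : I → Bool) (S : Finset I) (hS : S ∈ H) :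
    ∃ T : Finset I, T ⊆ S ∧ (∀ e ∈ T, x e = false) ∧ (∃ S' ∈ H, rem S' x = T) ∧
      ∀ S'' ∈ H, rem S'' x ⊆ T → T ⊆ S'' := by
  obtain ⟨S', hS', hmin⟩ := exists_min_image (H.filter fun S' => rem S' x ⊆ S)
    (fun S' => (rem S' x).card) ⟨S, mem_filter.2 ⟨hS, filter_subset _ _⟩⟩
  obtain ⟨h1, h2⟩ := mem_filter.1 hS'
  refine ⟨rem S' x, h2, fun e he => (mem_filter.1 he).2, ⟨S', h1, rfl⟩, fun S'' h3 h4 => ?_⟩
  have := hmin S'' (mem_filter.2 ⟨h3, h4.trans h2⟩)
  rw [← eq_of_subset_of_card_le h4 this]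
  exact filter_subset _ _

lemma flip_le {q : ℝ} (hq : 0 < q) (hq1 : q ≤ 1) (U : Finset I) (F : (I → Bool) → ℝ)
    (hF : ∀ z, 0 ≤ F z) :
    q ^ U.card * Ex (fun _ => bern q) (fun x => ind (∀ e ∈ U, x e = false) *
      F (fun e => x e || decide (e ∈ U))) ≤ Ex (fun _ => bern q) F := by
  let τ : (I → Bool) ≃ (I → Bool) :=
    { toFun := fun x e => if e ∈ U then !x e else x e
      invFun := fun x e => if e ∈ U then !x e else x e
      left_inv := fun x => by funext e; by_cases h : e ∈ U <;> simp [h]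
      right_inv := fun x => by funext e; by_cases h : e ∈ U <;> simp [h] }
  have hb : ∀ b, 0 ≤ bern q b := fun b => by cases b <;> simp [bern, hq.le, hq1]
  unfold Ex
  rw [← Equiv.sum_comp τ (fun x => (∏ i, bern q (x i)) * F x), mul_sum]
  refine sum_le_sum fun x _ => ?_
  beta_reduce
  by_cases hx : ∀ e ∈ U, x e = false
  · have e1 : τ x = fun e => x e || decide (e ∈ U) := by
      funext e
      by_cases h : e ∈ U
      · simp [τ, h, hx e h]
      · simp [τ, h]
    rw [ind_pos hx, one_mul, e1, ← mul_assoc]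
    refine mul_le_mul_of_nonneg_right ?_ (hF _)
    have e2 : q ^ U.card = ∏ i, (if i ∈ U then q else 1) := by
      rw [prod_ite_mem, univ_inter, prod_const]
    rw [e2, ← prod_mul_distrib]
    refine prod_le_prod (fun i _ => mul_nonneg (by split_ifs <;> positivity) (hb _)) fun i _ => ?_
    by_cases h : i ∈ U
    · simp only [h, if_true, hx i h, decide_true, Bool.or_true, bern]
      simp only [Bool.false_eq_true, if_false]
      nlinarith
    · simp [h]
  · rw [ind_neg hx]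
    simp only [zero_mul, mul_zero]
    exact mul_nonneg (prod_nonneg fun _ _ => hb _) (hF _)

lemma cost_le {q K r : ℝ} (hr : 0 < r) (hK : 1 ≤ K) (hq : q = K * r) (hq1 : q ≤ 1)
    (H : Finset (Finset I)) {l M : ℕ} (hH : ∀ S ∈ H, S.card ≤ l)
    (U : (I → Bool) → Finset (Finset I))
    (hU : ∀ x, ∀ T ∈ U x, M ≤ T.card ∧ (∀ e ∈ T, x e = false) ∧ (∃ S' ∈ H, rem S' x = T) ∧
      ∀ S'' ∈ H, rem S'' x ⊆ T → T ⊆ S'') :
    Ex (fun _ => bern q) (fun x => ∑ T ∈ U x, r ^ T.card) ≤ 2 ^ l / K ^ M := by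
  classical
  have hq0 : 0 < q := by rw [hq]; positivity
  have hP : IsP (fun _ : I => bern q) := isP_bern (fun _ => hq0.le) fun _ => hq1
  have hcan : ∀ z : I → Bool, ∃ C : Finset I, C.card ≤ l ∧
      ((∃ S ∈ H, ∀ e ∈ S, z e = true) → C ∈ H ∧ ∀ e ∈ C, z e = true) := by
    intro z
    by_cases h : ∃ S ∈ H, ∀ e ∈ S, z e = true
    · obtain ⟨S, h1, h2⟩ := h
      exact ⟨S, hH S h1, fun _ => ⟨h1, h2⟩⟩
    · exact ⟨∅, by simp, fun h' => absurd h' h⟩
  choose can hcan1 hcan2 using hcan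
  have h1 : ∀ x, ∑ T ∈ U x, r ^ T.card ≤ ∑ T : Finset I, r ^ T.card *
      (ind (∀ e ∈ T, x e = false) *
        ind (M ≤ T.card ∧ T ⊆ can (fun e => x e || decide (e ∈ T)))) := by
    intro x
    refine le_trans (sum_le_sum fun T hT => ?_) (sum_le_sum_of_subset_of_nonneg (subset_univ (U x))
      fun T _ _ => mul_nonneg (by positivity) (mul_nonneg (ind_nonneg _) (ind_nonneg _)))
    obtain ⟨a1, a2, ⟨S', a3, a4⟩, a5⟩ := hU x T hT
    obtain ⟨b1, b2⟩ := hcan2 (fun e => x e || decide (e ∈ T)) ⟨S', a3, fun e he => by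
      cases hx : x e
      · have : e ∈ T := a4 ▸ mem_filter.2 ⟨he, hx⟩
        simp [this]
      · simp⟩
    have a6 : T ⊆ can (fun e => x e || decide (e ∈ T)) := a5 _ b1 fun e he => by
      obtain ⟨c1, c2⟩ := mem_filter.1 he
      simpa [c2] using b2 e c1
    rw [ind_pos a2, ind_pos (And.intro a1 a6), mul_one, mul_one]
  refine (Ex_mono hP.nonneg h1).trans ?_
  rw [Ex_sum]
  have h2 : ∀ T : Finset I, Ex (fun _ => bern q) (fun x => r ^ T.card *
      (ind (∀ e ∈ T, x e = false) *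
        ind (M ≤ T.card ∧ T ⊆ can (fun e => x e || decide (e ∈ T))))) ≤
      Ex (fun _ => bern q) (fun z => (K ^ M)⁻¹ * ind (T ⊆ can z)) := by
    intro T
    rw [Ex_smul, Ex_smul]
    by_cases hM : M ≤ T.card
    · have := flip_le hq0 hq1 T (fun z => ind (T ⊆ can z)) fun _ => ind_nonneg _
      simp only [hM, true_and]
      have hK' : K ^ M ≤ K ^ T.card := pow_le_pow_right₀ hK hM
      have hKM : 0 < K ^ M := by positivity
      rw [← div_eq_inv_mul, le_div_iff₀ hKM]
      refine le_trans ?_ this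
      rw [hq, mul_pow, mul_comm _ (K ^ M), ← mul_assoc]
      exact mul_le_mul_of_nonneg_right (mul_le_mul_of_nonneg_right hK' (by positivity))
        (Ex_nonneg (hq ▸ hP.nonneg) fun _ => mul_nonneg (ind_nonneg _) (ind_nonneg _))
    · simp only [hM, false_and, ind_neg not_false, mul_zero, Ex_const hP]
      exact mul_nonneg (by positivity) (Ex_nonneg hP.nonneg fun _ => ind_nonneg _)
  refine (sum_le_sum fun T _ => h2 T).trans ?_
  rw [← Ex_sum]
  refine Ex_le hP fun z => ?_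
  rw [← mul_sum, ← card_filter_eq_sum_ind, div_eq_inv_mul]
  refine mul_le_mul_of_nonneg_left ?_ (by positivity)
  have : (univ.filter fun T => T ⊆ can z) = (can z).powerset := by ext T; simp
  rw [this, card_powerset]
  exact_mod_cast Nat.pow_le_pow_right (by norm_num) (hcan1 z)

lemma pp_num {Λ : ℝ} (hΛ : 0 < Λ) (k : ℕ) :
    (2 : ℝ) ^ (2 ^ (k + 1)) / (8 * (1 + Λ / 2 ^ k)) ^ (2 ^ k) ≤ (1 / 2) ^ (k + 1) / Λ := by
  have hM : (0 : ℝ) < 2 ^ k := by positivity
  have h1 : 1 + Λ ≤ (1 + Λ / 2 ^ k) ^ (2 ^ k) := by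
    have := one_add_mul_le_pow (a := Λ / 2 ^ k) (by have : 0 ≤ Λ / 2 ^ k := by positivity
                                                    linarith) (2 ^ k)
    have e : ((2 ^ k : ℕ) : ℝ) * (Λ / 2 ^ k) = Λ := by push_cast; field_simp
    rwa [e] at this
  have h2 : (2 : ℝ) ^ (k + 1) ≤ 2 ^ (2 ^ k) :=
    pow_le_pow_right₀ (by norm_num) (Nat.lt_two_pow_self)
  have h3 : (8 : ℝ) ^ (2 ^ k) = 2 ^ (2 ^ (k + 1)) * 2 ^ (2 ^ k) := by
    rw [pow_succ 2 k, mul_comm (2 ^ k) 2, pow_mul, ← mul_pow]; norm_num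
  rw [mul_pow, h3, div_le_div_iff₀ (by positivity) hΛ, one_div, inv_pow, mul_assoc,
    mul_left_comm]
  refine mul_le_mul_of_nonneg_left ?_ (by positivity)
  rw [← div_eq_inv_mul, le_div_iff₀ (by positivity), mul_comm]
  exact mul_le_mul h2 (by linarith) hΛ.le (by positivity)

theorem park_pham_aux {r Λ : ℝ} (hr : 0 < r) (hΛ : 0 < Λ) (k : ℕ) : ∀ (q : ℝ) (_ : q < 1)
    (_ : r * (8 * k + 16 * Λ * (1 - (1 / 2) ^ k)) ≤ q) (H : Finset (Finset I))
    (_ : ∀ S ∈ H, S.card < 2 ^ k) (c : ℝ)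
    (_ : ∀ G : Finset (Finset I), (∀ S ∈ H, ∃ U ∈ G, U ⊆ S) → c ≤ ∑ U ∈ G, r ^ U.card),
    c * Ex (fun _ => bern q) (fun x => ind (¬ ∃ S ∈ H, ∀ e ∈ S, x e = true)) ≤
      (1 - (1 / 2) ^ k) / Λ := by
  induction k with
  | zero =>
    intro q hq1 hq H hH c hc
    have hP : IsP (fun _ : I => bern q) := isP_bern (fun _ => by simpa using hq) fun _ => hq1.le
    rcases H.eq_empty_or_nonempty with rfl | ⟨S, hS⟩
    · have := hc ∅ (by simp)
      simp only [sum_empty] at this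
      simp only [pow_zero, sub_self, zero_div]
      exact mul_nonpos_of_nonpos_of_nonneg this (Ex_nonneg hP.nonneg fun _ => ind_nonneg _)
    · have hS0 : S = ∅ := by simpa using hH S hS
      have : ∀ x : I → Bool, ind (¬ ∃ S ∈ H, ∀ e ∈ S, x e = true) = 0 := fun x =>
        ind_neg (not_not.2 ⟨S, hS, by simp [hS0]⟩)
      simp only [this, Ex_const hP]
      simp
  | succ k ih =>
    intro q hq1 hq H hH c hc
    classical
    have hh : (1 / 2 : ℝ) ^ k ≤ 1 := pow_le_one₀ (by norm_num) (by norm_num)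
    have hh0 : (0 : ℝ) < (1 / 2 : ℝ) ^ k := by positivity
    set K : ℝ := 8 * (1 + Λ / 2 ^ k) with hK
    have hK1 : 1 ≤ K := by
      have : 0 ≤ Λ / 2 ^ k := by positivity
      linarith
    set q₁ := K * r with hq₁
    have hq₁0 : 0 < q₁ := by positivity
    have hsplit : r * (8 * ((k + 1 : ℕ) : ℝ) + 16 * Λ * (1 - (1 / 2) ^ (k + 1))) =
        r * (8 * k + 16 * Λ * (1 - (1 / 2) ^ k)) + q₁ := by
      rw [hq₁, hK]; push_cast; rw [pow_succ, one_div, inv_pow]; field_simp; ring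
    have hQ0 : 0 ≤ r * (8 * k + 16 * Λ * (1 - (1 / 2) ^ k)) := by
      have : 0 ≤ 1 - (1 / 2 : ℝ) ^ k := by linarith
      positivity
    have hq₁q : q₁ ≤ q := by linarith
    have hq₁1 : 0 < 1 - q₁ := by linarith
    set q₂ := (q - q₁) / (1 - q₁) with hq₂
    have hq₂1 : q₂ < 1 := by rw [hq₂, div_lt_one hq₁1]; linarith
    have hq₂2 : q - q₁ ≤ q₂ := by rw [hq₂, le_div_iff₀ hq₁1]; nlinarith
    have hqq : q = q₁ + (1 - q₁) * q₂ := by rw [hq₂]; field_simp; ring
    have hP : IsP (fun _ : I => bern q) := isP_bern (fun _ => by linarith) fun _ => hq1.le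
    have hP₁ : IsP (fun _ : I => bern q₁) := isP_bern (fun _ => hq₁0.le) fun _ => by linarith
    have hP₂ : IsP (fun _ : I => bern q₂) := isP_bern (fun _ => by linarith) fun _ => hq₂1.le
    have hRHS : (1 - (1 / 2 : ℝ) ^ (k + 1)) / Λ = (1 - (1 / 2) ^ k) / Λ + (1 / 2) ^ (k + 1) / Λ := by
      rw [pow_succ]; ring
    rcases le_total c 0 with hc0 | hc0
    · refine (mul_nonpos_of_nonpos_of_nonneg hc0 (Ex_nonneg hP.nonneg fun _ => ind_nonneg _)).trans
        (div_nonneg ?_ hΛ.le)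
      rw [pow_succ]; linarith
    have hfr : ∀ (x : I → Bool) (S : Finset I), ∃ T : Finset I, S ∈ H → (T ⊆ S ∧
        (∀ e ∈ T, x e = false) ∧ (∃ S' ∈ H, rem S' x = T) ∧
        ∀ S'' ∈ H, rem S'' x ⊆ T → T ⊆ S'') := by
      intro x S
      by_cases hS : S ∈ H
      · obtain ⟨T, hT⟩ := exists_frag H x S hS
        exact ⟨T, fun _ => hT⟩
      · exact ⟨∅, fun h => absurd h hS⟩
    choose fr hfr using hfr
    let U : (I → Bool) → Finset (Finset I) := fun x =>
      (H.image (fr x)).filter fun T => 2 ^ k ≤ T.card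
    let H' : (I → Bool) → Finset (Finset I) := fun x =>
      (H.image (fr x)).filter fun T => T.card < 2 ^ k
    have hcost := cost_le hr hK1 hq₁ (by linarith) H (l := 2 ^ (k + 1)) (M := 2 ^ k)
      (fun S hS => (hH S hS).le) U (fun x T hT => by
        obtain ⟨h1, h2⟩ := mem_filter.1 hT
        obtain ⟨S, hS, rfl⟩ := mem_image.1 h1
        exact ⟨h2, (hfr x S hS).2⟩)
    have hstep : ∀ x : I → Bool, c * Ex (fun _ => bern q₂)
        (fun y => ind (¬ ∃ S ∈ H, ∀ e ∈ S, (x e || y e) = true)) ≤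
        (1 - (1 / 2) ^ k) / Λ + ∑ T ∈ U x, r ^ T.card := by
      intro x
      have hcs : 0 ≤ ∑ T ∈ U x, r ^ T.card := sum_nonneg fun _ _ => by positivity
      have h1 := ih q₂ hq₂1 (by linarith) (H' x) (fun T hT => (mem_filter.1 hT).2)
        (c - ∑ T ∈ U x, r ^ T.card) (fun G hG => by
          have h2 := hc (G ∪ U x) fun S hS => by
            by_cases h : (fr x S).card < 2 ^ k
            · obtain ⟨T, h3, h4⟩ := hG (fr x S) (mem_filter.2 ⟨mem_image_of_mem _ hS, h⟩)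
              exact ⟨T, mem_union_left _ h3, h4.trans (hfr x S hS).1⟩
            · exact ⟨fr x S, mem_union_right _ (mem_filter.2 ⟨mem_image_of_mem _ hS, not_lt.1 h⟩),
                (hfr x S hS).1⟩
          have h3 := sum_union_inter (s₁ := G) (s₂ := U x) (f := fun T => r ^ T.card)
          have h4 : 0 ≤ ∑ T ∈ G ∩ U x, r ^ T.card := sum_nonneg fun _ _ => by positivity
          linarith)
      have h5 : Ex (fun _ => bern q₂) (fun y => ind (¬ ∃ S ∈ H, ∀ e ∈ S, (x e || y e) = true)) ≤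
          Ex (fun _ => bern q₂) (fun y => ind (¬ ∃ S ∈ H' x, ∀ e ∈ S, y e = true)) := by
        refine Ex_mono hP₂.nonneg fun y => ind_mono fun h ⟨T, hT, hy⟩ => h ?_
        obtain ⟨S, hS, rfl⟩ := mem_image.1 (mem_filter.1 hT).1
        obtain ⟨S', h6, h7⟩ := (hfr x S hS).2.2.1
        refine ⟨S', h6, fun e he => ?_⟩
        cases hx : x e
        · simpa using hy e (h7 ▸ mem_filter.2 ⟨he, hx⟩)
        · simp
      have h6 : Ex (fun _ => bern q₂) (fun y => ind (¬ ∃ S ∈ H' x, ∀ e ∈ S, y e = true)) ≤ 1 :=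
        Ex_le hP₂ fun _ => ind_le_one _
      have h7 := mul_le_mul_of_nonneg_left h5 hc0
      have h8 := mul_le_mul_of_nonneg_left h6 hcs
      linarith
    rw [hqq, Ex_union, ← Ex_smul, hRHS]
    refine (Ex_mono hP₁.nonneg hstep).trans ?_
    rw [Ex_add, Ex_const hP₁]
    have := pp_num hΛ k
    linarith

/-- Park-Pham: if every cover of `H` has `r`-cost at least `c`, a binomial random set of density
`24 k r` contains a member of `H` except with probability at most `1 / (c k)`. -/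
theorem park_pham {r q c : ℝ} (hr : 0 < r) {k : ℕ} (hk : 0 < k) (hq1 : q < 1)
    (hq : 24 * k * r ≤ q) (H : Finset (Finset I)) (hH : ∀ S ∈ H, S.card < 2 ^ k)
    (hc : ∀ G : Finset (Finset I), (∀ S ∈ H, ∃ U ∈ G, U ⊆ S) → c ≤ ∑ U ∈ G, r ^ U.card) :
    c * Ex (fun _ => bern q) (fun x => ind (¬ ∃ S ∈ H, ∀ e ∈ S, x e = true)) ≤ 1 / k := by
  have hk' : (0 : ℝ) < k := by exact_mod_cast hk
  have hh0 : (0 : ℝ) < (1 / 2 : ℝ) ^ k := by positivity
  refine (park_pham_aux hr hk' k q hq1 (le_trans ?_ hq) H hH c hc).trans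
    (div_le_div_of_nonneg_right (by linarith) hk'.le)
  have : 0 ≤ r * k * (1 / 2 : ℝ) ^ k := by positivity
  nlinarith

end

end Pool.Agent.MP_81e6aa_pr
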