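import Pool.Agent.MP_81e6aa_pr.Phase2

/-!
The first phase: every large vertex set spans a triangle; the choice of the set `U`.
-/

set_option autoImplicit false

namespace Pool.Agent.MP_81e6aa_pr

open Finset

noncomputable section

variable {V E : Type} [Fintype V] [DecidableEq V] [Fintype E] [DecidableEq E] {pr : V → V → E}

/-- every set of at least `g` vertices spans a triangle of `B` -/
def Dense (pr : V → V → E) (B : E → Prop) (g : ℕ) : Prop :=
  ∀ Y : Finset V, g ≤ Y.card → ∃ x ∈ Y, ∃ y ∈ Y, ∃ z ∈ Y, Tri pr B x y z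

omit [Fintype E] in
lemma cherry_count (hpr : PairMap pr) (a : E → Bool) (hcod : Cod pr fun e => a e = true)
    {C L : Finset V} (hd : Disjoint C L) :
    ∑ x ∈ C, ((L.filter fun y => a (pr x y) = true).card : ℝ) *
      ((L.filter fun y => a (pr x y) = true).card - 1) ≤
      12 * (((C ×ˢ (L ×ˢ L)).filter fun t => t.2.1 ≠ t.2.2 ∧ a (pr t.1 t.2.1) = true ∧
        a (pr t.1 t.2.2) = true).image fun t => pr t.2.1 t.2.2).card := by
  set T := (C ×ˢ (L ×ˢ L)).filter fun t => t.2.1 ≠ t.2.2 ∧ a (pr t.1 t.2.1) = true ∧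
        a (pr t.1 t.2.2) = true with hT
  have h1 : T.card = ∑ x ∈ C, (L.filter fun y => a (pr x y) = true).offDiag.card := by
    rw [hT, card_filter, sum_product]
    refine sum_congr rfl fun x _ => ?_
    rw [← card_filter]
    congr 1
    ext ⟨y, z⟩
    simp only [mem_filter, mem_product, mem_offDiag]
    tauto
  have h2 : T.card ≤ 12 * (T.image fun t => pr t.2.1 t.2.2).card := by
    refine card_le_mul_card_image_of_maps_to (fun _ => mem_image_of_mem _) 12 fun b hb => ?_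
    obtain ⟨⟨x₀, y₀, z₀⟩, h0, rfl⟩ := mem_image.1 hb
    have h0' : y₀ ≠ z₀ := (mem_filter.1 h0).2.1
    have : (T.filter fun t => pr t.2.1 t.2.2 = pr y₀ z₀) ⊆
        cn pr (fun e => a e = true) y₀ z₀ ×ˢ {(y₀, z₀), (z₀, y₀)} := by
      rintro ⟨x, y, z⟩ h
      simp only [hT, mem_filter, mem_product] at h
      obtain ⟨⟨⟨b1, b2, b3⟩, b4, b5, b6⟩, b7⟩ := h
      have c1 : x ≠ y := fun e => disjoint_left.1 hd b1 (e ▸ b2)
      have c2 : x ≠ z := fun e => disjoint_left.1 hd b1 (e ▸ b3)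
      rcases hpr.inj _ _ _ _ b4 h0' b7 with ⟨rfl, rfl⟩ | ⟨rfl, rfl⟩
      · exact mem_product.2 ⟨mem_cn.2 ⟨h0', c1, c2, b5, b6⟩, by simp⟩
      · exact mem_product.2 ⟨mem_cn.2 ⟨h0', c2, c1, b6, b5⟩, by simp⟩
    refine (card_le_card this).trans ?_
    rw [card_product]
    exact Nat.mul_le_mul (hcod y₀ z₀) card_le_two
  have h3 : ((T.card : ℕ) : ℝ) ≤ 12 * (T.image fun t => pr t.2.1 t.2.2).card := by exact_mod_cast h2
  refine le_trans (le_of_eq ?_) h3
  rw [h1, Nat.cast_sum]
  refine sum_congr rfl fun x _ => ?_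
  rw [offDiag_card, Nat.cast_sub (Nat.le_mul_self _)]
  push_cast; ring

theorem phase1 (hpr : PairMap pr) {q h lam : ℝ} (hq0 : 0 ≤ q) (hq1 : q ≤ 1) (hh0 : 0 ≤ h)
    (hh1 : h ≤ 1) {s : ℕ} (hδ : 1 ≤ 2 / 3 * (q * s)) (hl1 : lam ≤ q * s / 20)
    (hl2 : lam ≤ h * (2 / 3 * (q * s) * (2 / 3 * (q * s) - 1)) / 12) :
    Ex (fun _ => bern q) (fun a : E → Bool => Ex (fun _ => bern h) (fun c : E → Bool =>
      ind (¬ Dense pr (B2 pr ∅ (fun e => a e = true) (fun e => c e = true)) (2 * s)))) ≤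
      (Fintype.card V : ℝ) ^ 2 * (Fintype.card V * q ^ 2) ^ 7 +
        4 ^ Fintype.card V * (2 * Real.exp (-lam)) ^ s := by
  have hPq : IsP (fun _ : E => bern q) := isP_bern (fun _ => hq0) fun _ => hq1
  have hPh : IsP (fun _ : E => bern h) := isP_bern (fun _ => hh0) fun _ => hh1
  let d : (E → Bool) → Finset V → V → ℝ := fun a L x => (L.filter fun y => a (pr x y) = true).card
  have key : ∀ a : E → Bool, Ex (fun _ => bern h) (fun c : E → Bool =>
      ind (¬ Dense pr (B2 pr ∅ (fun e => a e = true) (fun e => c e = true)) (2 * s))) ≤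
      ind (¬ Cod pr fun e => a e = true) + ∑ P : Finset V × Finset V,
        ind (Disjoint P.1 P.2 ∧ P.1.card = s ∧ P.2.card = s) *
          ∏ x ∈ P.1, Real.exp (-(h * (d a P.2 x * (d a P.2 x - 1)) / 12)) := by
    intro a
    have hnn : 0 ≤ ∑ P : Finset V × Finset V,
        ind (Disjoint P.1 P.2 ∧ P.1.card = s ∧ P.2.card = s) *
          ∏ x ∈ P.1, Real.exp (-(h * (d a P.2 x * (d a P.2 x - 1)) / 12)) :=
      sum_nonneg fun P _ => mul_nonneg (ind_nonneg _) (prod_nonneg fun _ _ => (Real.exp_pos _).le)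
    by_cases hcod : Cod pr fun e => a e = true
    swap
    · rw [ind_pos hcod]
      exact (Ex_le hPh fun _ => ind_le_one _).trans (by linarith)
    rw [ind_neg (not_not.2 hcod), zero_add]
    let Q : Finset V × Finset V → Finset E := fun P =>
      ((P.1 ×ˢ (P.2 ×ˢ P.2)).filter fun t => t.2.1 ≠ t.2.2 ∧ a (pr t.1 t.2.1) = true ∧
        a (pr t.1 t.2.2) = true).image fun t => pr t.2.1 t.2.2
    have s1 : ∀ c : E → Bool,
        ind (¬ Dense pr (B2 pr ∅ (fun e => a e = true) (fun e => c e = true)) (2 * s)) ≤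
        ∑ P : Finset V × Finset V, ind (Disjoint P.1 P.2 ∧ P.1.card = s ∧ P.2.card = s) *
          ind (∀ e ∈ Q P, c e = false) := by
      intro c
      simp only [← ind_and]
      refine le_trans (ind_mono fun hD => ?_) (ind_exists_le _ _)
      simp only [Dense, not_forall] at hD
      obtain ⟨Y, hY, hD⟩ := hD
      obtain ⟨C, c1, c2⟩ := exists_subset_card_eq (s := Y) (n := s) (by omega)
      obtain ⟨L, l1, l2⟩ := exists_subset_card_eq (s := Y \ C) (n := s)
        (by rw [card_sdiff_of_subset c1]; omega)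
      have hd : Disjoint C L := disjoint_sdiff.mono_right l1
      refine ⟨(C, L), mem_univ _, ⟨hd, c2, l2⟩, fun e he => ?_⟩
      obtain ⟨⟨x, y, z⟩, h0, rfl⟩ := mem_image.1 he
      simp only [mem_filter, mem_product] at h0
      obtain ⟨⟨b1, b2, b3⟩, b4, b5, b6⟩ := h0
      have e1 : x ≠ y := fun e => disjoint_left.1 hd b1 (e ▸ b2)
      have e2 : x ≠ z := fun e => disjoint_left.1 hd b1 (e ▸ b3)
      by_contra hc
      exact hD ⟨x, c1 b1, y, sdiff_subset (l1 b2), z, sdiff_subset (l1 b3), e1, e2, b4, Or.inl b5,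
        Or.inl b6, Or.inr ⟨by simpa using hc, x, y, z, e1, e2, b4, by simp, by simp, rfl, b5, b6⟩⟩
    refine (Ex_mono hPh.nonneg s1).trans ?_
    rw [Ex_sum]
    refine sum_le_sum fun P _ => ?_
    rw [Ex_smul]
    by_cases hP : Disjoint P.1 P.2 ∧ P.1.card = s ∧ P.2.card = s
    swap
    · rw [ind_neg hP, zero_mul, zero_mul]
    refine mul_le_mul_of_nonneg_left ?_ (ind_nonneg _)
    refine (Ex_all_le hPh (Q P) (fun b => b = false) (p := Real.exp (-h)) fun _ => ?_).trans ?_
    · have := Real.add_one_le_exp (-h)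
      simp only [Fintype.sum_bool, bern, ind, if_true, Bool.false_eq_true, if_false,
        Bool.true_eq_false]
      linarith
    · rw [← Real.exp_nat_mul, ← Real.exp_sum, Real.exp_le_exp, sum_neg_distrib, ← sum_div,
        ← mul_sum]
      have := mul_le_mul_of_nonneg_left (cherry_count hpr a hcod hP.1) hh0
      simp only [d, Q]
      linarith
  refine (Ex_mono hPq.nonneg key).trans ?_
  rw [Ex_add, Ex_sum]
  refine add_le_add (cod_le hpr hPq (fun b => b = true) fun _ => by simp [bern, ind]) ?_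
  refine (sum_le_card_nsmul _ _ ((2 * Real.exp (-lam)) ^ s) fun P _ => ?_).trans (le_of_eq ?_)
  swap
  · rw [card_univ, Fintype.card_prod, Fintype.card_finset, nsmul_eq_mul]
    push_cast
    rw [← mul_pow]; norm_num
  rw [Ex_smul]
  by_cases hP : Disjoint P.1 P.2 ∧ P.1.card = s ∧ P.2.card = s
  swap
  · rw [ind_neg hP, zero_mul]; positivity
  obtain ⟨hd, c1, c2⟩ := hP
  have hne : ∀ x ∈ P.1, ∀ y ∈ P.2, x ≠ y := fun x hx y hy e => disjoint_left.1 hd hx (e ▸ hy)
  rw [ind_pos ⟨hd, c1, c2⟩, one_mul, Ex_prod_indep hPq P.1 (fun x i => ∃ y ∈ P.2, i = pr x y)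
    (fun x a => Real.exp (-(h * (d a P.2 x * (d a P.2 x - 1)) / 12))), ← c1, ← prod_const]
  · refine prod_le_prod (fun x _ => Ex_nonneg hPq.nonneg fun _ => (Real.exp_pos _).le)
      fun x hx => ?_
    have t1 := chernoff hPq P.2 (fun y => pr x y) (fun y hy y' hy' e => by
      rcases hpr.inj _ _ _ _ (hne x hx y hy) (hne x hx y' hy') e with h4 | h4
      · exact h4.2
      · exact h4.2.trans h4.1) (fun b => b = true) hq0 (fun _ _ => by simp [bern, ind])
    rw [c2] at t1
    have t2 : ∀ a : E → Bool, Real.exp (-(h * (d a P.2 x * (d a P.2 x - 1)) / 12)) ≤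
        ind (d a P.2 x < 2 / 3 * (q * s)) + Real.exp (-lam) := by
      intro a
      by_cases hlt : d a P.2 x < 2 / 3 * (q * s)
      · rw [ind_pos hlt]
        have : 0 ≤ d a P.2 x * (d a P.2 x - 1) := by
          simp only [d]
          rcases Nat.eq_zero_or_pos (P.2.filter fun y => a (pr x y) = true).card with h0 | h0
          · simp [h0]
          · exact mul_nonneg (by positivity) (sub_nonneg.2 (by exact_mod_cast h0))
        have h5 : Real.exp (-(h * (d a P.2 x * (d a P.2 x - 1)) / 12)) ≤ 1 :=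
          Real.exp_le_one_iff.2 (by have := mul_nonneg hh0 this; linarith)
        linarith [Real.exp_pos (-lam)]
      · rw [ind_neg hlt, zero_add, Real.exp_le_exp]
        have h5 : 2 / 3 * (q * s) * (2 / 3 * (q * s) - 1) ≤ d a P.2 x * (d a P.2 x - 1) :=
          mul_le_mul (not_lt.1 hlt) (by linarith [not_lt.1 hlt]) (by linarith)
            (by linarith [not_lt.1 hlt])
        have := mul_le_mul_of_nonneg_left h5 hh0
        linarith
    refine (Ex_mono hPq.nonneg t2).trans ?_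
    rw [Ex_add, Ex_const hPq]
    have t3 : Real.exp (-(q * s) / 20) ≤ Real.exp (-lam) := Real.exp_le_exp.2 (by linarith)
    simp only [d]
    linarith
  · intro x _ a b hab
    have : (P.2.filter fun y => a (pr x y) = true) = P.2.filter fun y => b (pr x y) = true :=
      filter_congr fun y hy => by rw [hab _ ⟨y, hy, rfl⟩]
    simp only [d, this]
  · rintro x hx x' hx' i ⟨y, hy, rfl⟩ ⟨y', hy', e⟩
    rcases hpr.inj _ _ _ _ (hne x hx y hy) (hne x' hx' y' hy') e with h4 | h4
    · exact h4.1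
    · exact absurd h4.1 (hne x hx y' hy')

lemma choose_sub_le {n k : ℕ} (hk : k ≤ n) (j : ℕ) (hj : j ≤ k) :
    ((n - j).choose (k - j) : ℝ) ≤ (k / n : ℝ) ^ j * n.choose k := by
  induction j with
  | zero => simp
  | succ j ih =>
    have h1 := Nat.add_one_mul_choose_eq (n - (j + 1)) (k - (j + 1))
    rw [show n - (j + 1) + 1 = n - j by omega, show k - (j + 1) + 1 = k - j by omega] at h1
    have h2 : ((n : ℝ) - j) * (n - (j + 1)).choose (k - (j + 1)) =
        (n - j).choose (k - j) * ((k : ℝ) - j) := by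
      rw [← Nat.cast_sub (by omega), ← Nat.cast_sub (by omega)]; exact_mod_cast h1
    have hn : (0 : ℝ) < n := by exact_mod_cast (by omega)
    have hnj : (0 : ℝ) < n - j := sub_pos.2 (by exact_mod_cast (by omega))
    have hkn : (k : ℝ) ≤ n := by exact_mod_cast hk
    have h3 : ((n - (j + 1)).choose (k - (j + 1)) : ℝ) ≤ k / n * (n - j).choose (k - j) := by
      refine le_of_mul_le_mul_left ?_ hnj
      rw [h2, ← mul_assoc, mul_comm]
      refine mul_le_mul_of_nonneg_right ?_ (by positivity)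
      rw [← mul_div_assoc, le_div_iff₀ hn]
      have : (0 : ℝ) ≤ j := by positivity
      nlinarith
    refine h3.trans ?_
    rw [pow_succ', mul_assoc]
    exact mul_le_mul_of_nonneg_left (ih (by omega)) (by positivity)

/-- the data needed by the second phase -/
def Ready (pr : V → V → E) (B : E → Prop) (m : ℕ) (θ : ℝ) (U : Finset V) : Prop :=
  8 * U.card ≤ m ∧ ∃ Ξ : Finset (Finset V), Ξ.Nonempty ∧ ∃ R : Finset V → Finset V,
    (∀ ξ ∈ Ξ, (R ξ).card = 3 * m ∧ U ⊆ R ξ ∧ Fac pr B (univ \ R ξ)) ∧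
    ∀ U' : Finset V, Disjoint U' U → ∑ ξ ∈ Ξ, ind (U' ⊆ R ξ) ≤ θ ^ U'.card * Ξ.card

omit [Fintype E] [DecidableEq E] in
theorem exists_ready {B : E → Prop} {g m M : ℕ} (hB : Dense pr B g) (hn : Fintype.card V = 3 * M)
    (hm : 0 < m) (hmM : m ≤ M) (hg : g ≤ 3 * m) (hpow : ((M : ℝ) / m) ^ (8 * g) ≤ 2 ^ m) :
    ∃ U, Ready pr B m (4 * (m / M)) U := by
  have hm' : (0 : ℝ) < m := by exact_mod_cast hm
  have hM' : (0 : ℝ) < M := by exact_mod_cast (by omega)
  have hmM' : (m : ℝ) ≤ M := by exact_mod_cast hmM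
  set ρ : ℝ := m / M with hρ
  have hρ0 : 0 < ρ := by positivity
  have hρ1 : ρ ≤ 1 := by rw [hρ, div_le_one hM']; exact hmM'
  set Ξ₀ := (univ : Finset V).powersetCard (3 * m - g) with hΞ₀
  have hR : ∀ ξ : Finset V, ∃ R : Finset V, ξ ∈ Ξ₀ → ξ ⊆ R ∧ R.card = 3 * m ∧
      Fac pr B (univ \ R) := by
    intro ξ
    by_cases hξ : ξ ∈ Ξ₀
    · have h1 := (mem_powersetCard.1 hξ).2
      obtain ⟨Z, z1, z2, z3⟩ := exists_fac hB (M - m) (univ \ ξ)
        (by rw [card_sdiff_of_subset (subset_univ _), card_univ, hn, h1]; omega)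
      refine ⟨univ \ Z, fun _ => ⟨fun v hv => ?_, ?_, ?_⟩⟩
      · exact mem_sdiff.2 ⟨mem_univ _, fun h => (mem_sdiff.1 (z1 h)).2 hv⟩
      · rw [card_sdiff_of_subset (subset_univ _), card_univ, hn, z2]; omega
      · rwa [Finset.sdiff_sdiff_eq_self (subset_univ _)]
    · exact ⟨∅, fun h => absurd h hξ⟩
  choose R hR using hR
  let N : Finset V → ℝ := fun U => (Ξ₀.filter fun ξ => U ⊆ R ξ).card
  have hθ : 0 < 4 * ρ := by positivity
  obtain ⟨U, _, hU⟩ := exists_max_image univ (fun U => N U / (4 * ρ) ^ U.card) ⟨∅, mem_univ _⟩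
  have hΞ₀c : (Ξ₀.card : ℝ) = (3 * M).choose (3 * m - g) := by
    rw [hΞ₀, card_powersetCard, card_univ, hn]
  have hΞ₀p : (0 : ℝ) < Ξ₀.card := by
    rw [hΞ₀c]; exact_mod_cast Nat.choose_pos (by omega)
  have h0 : (4 * ρ) ^ U.card * Ξ₀.card ≤ N U := by
    have := hU ∅ (mem_univ _)
    rw [le_div_iff₀ (by positivity)] at this
    simpa [N, mul_comm] using this
  have h1 : N U ≤ 2 ^ U.card * (ρ ^ U.card * (ρ⁻¹ ^ g * Ξ₀.card)) := by
    have a1 : N U ≤ ∑ U₀ ∈ U.powerset, ∑ ξ ∈ Ξ₀, ind (U.card ≤ U₀.card + g) * ind (U₀ ⊆ ξ) := by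
      simp only [N]
      rw [card_filter_eq_sum_ind, sum_comm]
      refine sum_le_sum fun ξ hξ => ?_
      simp only [← ind_and]
      refine le_trans (ind_mono fun h => ?_) (ind_exists_le _ _)
      refine ⟨U ∩ ξ, mem_powerset.2 inter_subset_left, ?_, inter_subset_right⟩
      have b1 := card_le_card (sdiff_subset_sdiff h (Subset.refl ξ))
      have b2 := card_sdiff_add_card_inter U ξ
      rw [card_sdiff_of_subset (hR ξ hξ).1, (hR ξ hξ).2.1, (mem_powersetCard.1 hξ).2] at b1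
      omega
    refine a1.trans ((sum_le_card_nsmul _ _ (ρ ^ U.card * (ρ⁻¹ ^ g * Ξ₀.card))
      fun U₀ _ => ?_).trans (le_of_eq (by simp)))
    rw [← mul_sum, ← card_filter_eq_sum_ind]
    by_cases hc : U.card ≤ U₀.card + g
    swap
    · rw [ind_neg hc, zero_mul]; positivity
    rw [ind_pos hc, one_mul]
    by_cases hj : U₀.card ≤ 3 * m - g
    swap
    · have : Ξ₀.filter (fun ξ => U₀ ⊆ ξ) = ∅ := filter_eq_empty_iff.2 fun ξ hξ h =>
        hj ((mem_powersetCard.1 hξ).2 ▸ card_le_card h)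
      rw [this]; simp; positivity
    rw [hΞ₀, card_filter_powersetCard_subset _ _ _ (subset_univ _) hj, card_univ, hn, ← hΞ₀,
      hΞ₀c, ← mul_assoc]
    refine (choose_sub_le (by omega) _ hj).trans (mul_le_mul_of_nonneg_right ?_ (by positivity))
    have c1 : (((3 * m - g : ℕ) : ℝ) / ((3 * M : ℕ) : ℝ)) ≤ ρ := by
      have : ((3 * m - g : ℕ) : ℝ) ≤ 3 * m := by exact_mod_cast Nat.sub_le _ _
      rw [hρ, div_le_div_iff₀ (by push_cast; positivity) hM']
      push_cast
      nlinarith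
    refine (pow_le_pow_left₀ (by positivity) c1 _).trans ?_
    rw [inv_pow, ← div_eq_mul_inv, le_div_iff₀ (by positivity), ← pow_add]
    exact pow_le_pow_of_le_one hρ0.le hρ1 hc
  have h2 : (2 : ℝ) ^ U.card ≤ ρ⁻¹ ^ g := by
    have a1 := h0.trans h1
    rw [mul_pow, show (4 : ℝ) = 2 * 2 by norm_num, mul_pow] at a1
    have a2 : 0 < (2 : ℝ) ^ U.card * ρ ^ U.card * Ξ₀.card := by positivity
    refine le_of_mul_le_mul_left ?_ a2
    linarith
  refine ⟨U, ?_, Ξ₀.filter fun ξ => U ⊆ R ξ, ?_, R, fun ξ hξ => ?_, fun U' hU' => ?_⟩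
  · have a1 := pow_le_pow_left₀ (by positivity) h2 8
    rw [← pow_mul, ← pow_mul, hρ, inv_div, mul_comm g] at a1
    have := (pow_le_pow_iff_right₀ (by norm_num : (1 : ℝ) < 2)).1 (a1.trans hpow)
    omega
  · have : (0 : ℝ) < N U := lt_of_lt_of_le (by positivity) h0
    simp only [N] at this
    exact card_pos.1 (by exact_mod_cast this)
  · obtain ⟨a1, a2⟩ := mem_filter.1 hξ
    exact ⟨(hR ξ a1).2.1, a2, (hR ξ a1).2.2⟩
  · have a1 := hU (U' ∪ U) (mem_univ _)
    rw [div_le_div_iff₀ (by positivity) (by positivity), card_union_of_disjoint hU', pow_add,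
      ← mul_assoc] at a1
    have a2 := le_of_mul_le_mul_right a1 (by positivity)
    rw [← card_filter_eq_sum_ind, filter_filter, mul_comm]
    refine le_trans (le_of_eq ?_) a2
    simp only [N, union_subset_iff, and_comm]

end

end Pool.Agent.MP_81e6aa_pr
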