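import Pool.Agent.MP_81e6aa_pr.Spread
import Pool.Agent.MP_81e6aa_pr.PP

/-!
The second phase: one of the sets `R ξ` gets a triangle factor.
-/

set_option autoImplicit false

namespace Pool.Agent.MP_81e6aa_pr

open Finset

noncomputable section

variable {V E : Type} [Fintype V] [DecidableEq V] [Fintype E] [DecidableEq E]

/-- blind pairs, and closing pairs outside `U` of blind cherries -/
def B2 (pr : V → V → E) (U : Finset V) (bl cl : E → Prop) (e : E) : Prop :=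
  bl e ∨ (cl e ∧ ∃ x y z, x ≠ y ∧ x ≠ z ∧ y ≠ z ∧ y ∉ U ∧ z ∉ U ∧ e = pr y z ∧
    bl (pr x y) ∧ bl (pr x z))

variable {pr : V → V → E}

omit [Fintype V] [Fintype E] in
lemma fac_of_cherry {bl cl : E → Prop} {U X Lf : Finset V} {φ : V × Bool → V}
    (hφ : Cherry pr bl X Lf φ) (hd : Disjoint X Lf) (hLU : Disjoint Lf U)
    (hc : Lf.card = 2 * X.card) (hcl : ∀ e ∈ closing pr X φ, cl e) :
    Fac pr (B2 pr U bl cl) (X ∪ Lf) := by
  have hne : ∀ x ∈ X, ∀ x' ∈ X, ∀ b, x ≠ φ (x', b) := fun x hx x' hx' b h =>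
    disjoint_left.1 hd hx (h ▸ hφ.mem x' hx' b)
  have e : (X ×ˢ univ).image φ = Lf := by
    refine eq_of_subset_of_card_le (fun v hv => ?_) (le_of_eq ?_)
    · obtain ⟨⟨x, b⟩, h, rfl⟩ := mem_image.1 hv
      exact hφ.mem x (mem_product.1 h).1 b
    · rw [card_image_of_injOn, hc, card_product, card_univ, Fintype.card_bool, mul_comm]
      rintro ⟨x, b⟩ h ⟨x', b'⟩ h' h2
      obtain ⟨a1, a2⟩ := hφ.inj x (by simpa using h) x' (by simpa using h') b b' h2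
      exact Prod.ext a1 a2
  rw [← e]
  exact Fac.of_cherries φ X hne hφ.inj (fun x hx b => Or.inl (hφ.adj x hx b)) fun x hx =>
    Or.inr ⟨hcl _ (mem_image_of_mem _ hx), x, _, _, hne x hx x hx _, hne x hx x hx _,
      fun h => by simpa using (hφ.inj x hx x hx _ _ h).2, disjoint_left.1 hLU (hφ.mem x hx _),
      disjoint_left.1 hLU (hφ.mem x hx _), rfl, hφ.adj x hx _, hφ.adj x hx _⟩

lemma layers_le {q : ℝ} (h0 : 0 ≤ q) (h1 : q ≤ 1) :
    ∑ z : Lay → Bool, (∏ l, bern q (z l)) * ind (∃ l, z l = true) ≤ 120 * q := by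
  have hP : IsP (fun _ : Lay => bern q) := isP_bern (fun _ => h0) fun _ => h1
  have h2 : Ex (fun _ : Lay => bern q) (fun z => ind (∃ l, z l = true)) ≤
      Ex (fun _ : Lay => bern q) (fun z => ∑ l, ind (z l = true)) :=
    Ex_mono hP.nonneg fun z => by
      simpa using ind_exists_le (univ : Finset Lay) (fun l => z l = true)
  rw [Ex_sum] at h2
  refine h2.trans ((sum_le_card_nsmul _ _ q fun l _ => ?_).trans (le_of_eq (by simp)))
  have := Ex_all _ hP {l} (fun _ b => ind (b = true))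
  simp only [prod_singleton] at this
  rw [this]
  simp [bern, ind]

omit [Fintype E] [DecidableEq E] in
lemma isP_layers {qe : E → ℝ} (h0 : ∀ e, 0 ≤ qe e) (h1 : ∀ e, qe e ≤ 1) :
    IsP (fun e (z : Lay → Bool) => ∏ l, bern (qe e) (z l)) := by
  have hP : ∀ e, IsP (fun _ : Lay => bern (qe e)) := fun e =>
    isP_bern (fun _ => h0 e) fun _ => h1 e
  refine ⟨fun e z => prod_nonneg fun l _ => (hP e).nonneg l _, fun e => ?_⟩
  have := Ex_const (hP e) 1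
  simpa [Ex] using this

theorem phase2 (hpr : PairMap pr) {ι : Type} (Ξ : Finset ι) (hΞ : Ξ.Nonempty) (U : Finset V)
    (R : ι → Finset V) {m : ℕ} (hm : 0 < m) (hR : ∀ ξ ∈ Ξ, (R ξ).card = 3 * m)
    (hU : ∀ ξ ∈ Ξ, U ⊆ R ξ) (hu : 8 * U.card ≤ m) {θ : ℝ} (hθ0 : 0 ≤ θ)
    (hθ : ∀ U' : Finset V, Disjoint U' U → ∑ ξ ∈ Ξ, ind (U' ⊆ R ξ) ≤ θ ^ U'.card * Ξ.card)
    {qU q' qc μ r₀ p : ℝ} {qe : E → ℝ} (hq0 : ∀ e, 0 ≤ qe e) (hq1 : ∀ e, qe e ≤ 1)
    (hqU : ∀ x ∈ U, ∀ y ∉ U, qe (pr x y) = qU)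
    (hq' : ∀ x ∉ U, ∀ y ∉ U, x ≠ y → qe (pr x y) = q') (hqU0 : 0 < qU) (hq'0 : 0 < q')
    (hμ0 : 0 < μ) (hμ1 : μ ≤ qU * m) (hμ2 : μ ≤ 7 / 8 * (q' * m))
    (h1 : θ ^ 2 * (60 / (qU * m)) ^ 2 ≤ r₀) (h2 : θ ^ 3 * (240 / (q' * m)) ^ 2 ≤ r₀)
    (hr₀ : 0 < r₀) {k : ℕ} (hk : 0 < k) (hmk : m < 2 ^ k) (hqc : 24 * k * (6 * r₀) ≤ qc)
    (hqc1 : qc < 1) (hp : ∀ e, 120 * qe e ≤ p) :
    Ex (fun e (z : Lay → Bool) => ∏ l, bern (qe e) (z l)) (fun x => Ex (fun _ => bern qc)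
      (fun γ => ind (¬ ∃ ξ ∈ Ξ,
        Fac pr (B2 pr U (fun e => ∃ l, x e l = true) (fun e => γ e = true)) (R ξ)))) ≤
      (Fintype.card V * 60 * Real.exp (-μ / 20) + 6 / m) +
        (Fintype.card V : ℝ) ^ 2 * (Fintype.card V * p ^ 2) ^ 7 + 1 / k := by
  classical
  have hm' : (0 : ℝ) < m := by exact_mod_cast hm
  have hk' : (0 : ℝ) < k := by exact_mod_cast hk
  have hΞ' : (0 : ℝ) < Ξ.card := by exact_mod_cast card_pos.2 hΞ
  have hPc : IsP (fun _ : E => bern qc) :=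
    isP_bern (fun _ => le_trans (by positivity) hqc) fun _ => hqc1.le
  have hP : IsP (fun j : E × Lay => bern (qe j.1)) := isP_bern (fun _ => hq0 _) fun _ => hq1 _
  obtain ⟨v₀, _⟩ : (R hΞ.choose).Nonempty := card_pos.1 (by rw [hR _ hΞ.choose_spec]; omega)
  have hCen : ∀ ξ, ∃ C : Finset V, ξ ∈ Ξ → C ⊆ R ξ \ U ∧ C.card = m - U.card := by
    intro ξ
    by_cases hξ : ξ ∈ Ξ
    · obtain ⟨C, h⟩ := exists_subset_card_eq (s := R ξ \ U) (n := m - U.card)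
        (by rw [card_sdiff_of_subset (hU ξ hξ), hR ξ hξ]; omega)
      exact ⟨C, fun _ => h⟩
    · exact ⟨∅, fun h => absurd h hξ⟩
  choose Cen hCen using hCen
  let X : ι → Finset V := fun ξ => U ∪ Cen ξ
  let Lf : ι → Finset V := fun ξ => R ξ \ X ξ
  let qv : V → ℝ := fun v => if v ∈ U then qU else q'
  let δ : ι → V → ℝ := fun ξ v => 2 / 3 * (qv v * (tg (X ξ) (Cen ξ) (Lf ξ) v).card)
  have hCU : ∀ ξ ∈ Ξ, ∀ v ∈ Cen ξ, v ∉ U := fun ξ hξ v hv => (mem_sdiff.1 ((hCen ξ hξ).1 hv)).2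
  have hXR : ∀ ξ ∈ Ξ, X ξ ⊆ R ξ := fun ξ hξ =>
    union_subset (hU ξ hξ) ((hCen ξ hξ).1.trans sdiff_subset)
  have hXc : ∀ ξ ∈ Ξ, (X ξ).card = m := fun ξ hξ => by
    rw [card_union_of_disjoint (disjoint_right.2 (hCU ξ hξ)), (hCen ξ hξ).2]; omega
  have hLc : ∀ ξ ∈ Ξ, (Lf ξ).card = 2 * m := fun ξ hξ => by
    rw [card_sdiff_of_subset (hXR ξ hξ), hR ξ hξ, hXc ξ hξ]; omega
  have hd : ∀ ξ, Disjoint (X ξ) (Lf ξ) := fun ξ => disjoint_sdiff
  have hLU : ∀ ξ, Disjoint (Lf ξ) U := fun ξ =>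
    (hd ξ).symm.mono_right subset_union_left
  have hC7 : ∀ ξ ∈ Ξ, 7 * m ≤ 8 * (Cen ξ).card := fun ξ hξ => by rw [(hCen ξ hξ).2]; omega
  have hμ : ∀ ξ ∈ Ξ, ∀ v ∈ X ξ ∪ Lf ξ, μ ≤ qv v * (tg (X ξ) (Cen ξ) (Lf ξ) v).card := by
    intro ξ hξ v hv
    have h7 : 7 * (m : ℝ) ≤ 8 * (Cen ξ).card := by exact_mod_cast hC7 ξ hξ
    by_cases hX : v ∈ X ξ
    · rw [tg, if_pos hX, hLc ξ hξ]
      simp only [qv]
      push_cast
      split_ifs <;> nlinarith
    · rw [tg, if_neg hX]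
      simp only [qv, if_neg fun h => hX (mem_union_left _ h)]
      nlinarith
  have hδ : ∀ ξ ∈ Ξ, ∀ v ∈ X ξ ∪ Lf ξ, 0 < δ ξ v := fun ξ hξ v hv => by
    simp only [δ]; linarith [hμ ξ hξ v hv]
  have hmass : ∀ ξ ∈ Ξ, 1 - (Fintype.card V * 60 * Real.exp (-μ / 20) + 6 / m) ≤
      Ex (fun j : E × Lay => bern (qe j.1)) (fun ω => Ex (pw pr (X ξ) (Cen ξ) (Lf ξ) (δ ξ) ω)
        (fun π => ind (Good (X ξ) (Cen ξ) (Lf ξ) m π))) := by
    intro ξ hξ
    refine mass_ge hpr hm subset_union_right (hd ξ) (hXc ξ hξ) (hLc ξ hξ) (hC7 ξ hξ) hq0 hq1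
      (qv := qv) (fun v hv a ha => ?_) (fun _ => rfl) hμ0 (hμ ξ hξ)
    have hne := ne_of_mem_tg subset_union_right (hd ξ) ha
    have haU : a ∉ U := by
      unfold tg at ha
      split_ifs at ha
      · exact disjoint_left.1 (hLU ξ) ha
      · exact hCU ξ hξ a ha
    simp only [qv]
    split_ifs with h
    · exact hqU v h a haU
    · exact hq' v h a haU hne
  have hρ : ∀ ξ ∈ Ξ, ∀ x ∈ X ξ, ∀ y ∈ Lf ξ, 60 / δ ξ x + ind (x ∈ Cen ξ) * (60 / δ ξ y) ≤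
      if x ∈ U then 60 / (qU * m) else 240 / (q' * m) := by
    intro ξ hξ x hx y hy
    have h7 : 7 * (m : ℝ) ≤ 8 * (Cen ξ).card := by exact_mod_cast hC7 ξ hξ
    simp only [δ, tg, if_pos hx, if_neg (disjoint_right.1 (hd ξ) hy), hLc ξ hξ, qv,
      if_neg (disjoint_left.1 (hLU ξ) hy)]
    push_cast
    split_ifs with h
    · rw [ind_neg fun h' => hCU ξ hξ x h' h, zero_mul, add_zero]
      exact div_le_div_of_nonneg_left (by norm_num) (by positivity) (by nlinarith)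
    · have a1 : 60 / (2 / 3 * (q' * (2 * m))) ≤ 120 / (q' * m) := by
        rw [div_le_div_iff₀ (by positivity) (by positivity)]; nlinarith
      have a2 : 60 / (2 / 3 * (q' * (Cen ξ).card)) ≤ 120 / (q' * m) := by
        rw [div_le_div_iff₀ (by have : (0 : ℝ) < (Cen ξ).card := by linarith
                                positivity) (by positivity)]
        nlinarith
      have a3 := mul_le_mul (ind_le_one (x ∈ Cen ξ)) a2 (by positivity) zero_le_one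
      have a4 : 240 / (q' * m) = 120 / (q' * m) + 1 * (120 / (q' * m)) := by ring
      linarith
  let mass : (E × Lay → Bool) → ℝ := fun ω => (Ξ.card : ℝ)⁻¹ *
    ∑ ξ ∈ Ξ, Ex (pw pr (X ξ) (Cen ξ) (Lf ξ) (δ ξ) ω) (fun π => ind (Good (X ξ) (Cen ξ) (Lf ξ) m π))
  have hmass1 : ∀ ω, mass ω ≤ 1 := by
    intro ω
    simp only [mass]
    rw [inv_mul_le_iff₀ hΞ', mul_one]
    refine (sum_le_card_nsmul _ _ 1 fun ξ hξ =>
      Ex_le_of_le (pw_isS (hδ ξ hξ) ω) zero_le_one fun _ => ind_le_one _).trans (by simp)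
  have key : ∀ ω : E × Lay → Bool, Ex (fun _ => bern qc) (fun γ => ind (¬ ∃ ξ ∈ Ξ,
      Fac pr (B2 pr U (fun e => ∃ l, ω (e, l) = true) (fun e => γ e = true)) (R ξ))) ≤
      (1 - mass ω) + ind (¬ Cod pr fun e => ∃ l, ω (e, l) = true) + 1 / k := by
    intro ω
    set bl : E → Prop := fun e => ∃ l, ω (e, l) = true with hbl
    have hle : Ex (fun _ => bern qc) (fun γ => ind (¬ ∃ ξ ∈ Ξ,
      Fac pr (B2 pr U bl (fun e => γ e = true)) (R ξ))) ≤ 1 := Ex_le hPc fun _ => ind_le_one _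
    have hk1 : (0 : ℝ) ≤ 1 / k := by positivity
    by_cases hcod : Cod pr bl
    swap
    · rw [ind_pos hcod]; linarith [hmass1 ω]
    rw [ind_neg (not_not.2 hcod), add_zero]
    let H : Finset (Finset E) := univ.filter fun J =>
      ∃ ξ ∈ Ξ, ∃ φ, Cherry pr bl (X ξ) (Lf ξ) φ ∧ J = closing pr (X ξ) φ
    have hpp := park_pham (r := 6 * r₀) (c := mass ω) (by positivity) hk hqc1 hqc H
      (fun S hS => by
        obtain ⟨ξ, hξ, φ, _, rfl⟩ := (mem_filter.1 hS).2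
        exact lt_of_le_of_lt (card_image_le.trans (hXc ξ hξ).le) hmk)
      (fun G hG => by
        simp only [mass]
        rw [inv_mul_le_iff₀ hΞ', mul_sum]
        have s1 : ∀ ξ ∈ Ξ, Ex (pw pr (X ξ) (Cen ξ) (Lf ξ) (δ ξ) ω)
            (fun π => ind (Good (X ξ) (Cen ξ) (Lf ξ) m π)) ≤ ∑ I ∈ G,
            Ex (pw pr (X ξ) (Cen ξ) (Lf ξ) (δ ξ) ω)
              (fun π => ind (Str pr bl (X ξ) (Lf ξ) I π)) := by
          intro ξ hξ
          rw [← Ex_sum]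
          refine Ex_mono' (pw_nonneg ω) fun π hπ =>
            le_trans (ind_mono fun hg => ?_) (ind_exists_le _ _)
          have b1 : ∀ v ∈ X ξ, ∀ c, π (v, c) ∈ Lf ξ ∧ bl (pr v (π (v, c))) := fun v hv c => by
            have := mem_filter.1 (pw_supp (κ := (v, c)) (mem_union_left _ hv) (hπ _))
            rw [tg, if_pos hv] at this
            exact ⟨this.1, _, this.2⟩
          have b2 : ∀ v ∈ Lf ξ, ∀ c, π (v, c) ∈ Cen ξ ∧ bl (pr v (π (v, c))) := fun v hv c => by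
            have := mem_filter.1 (pw_supp (κ := (v, c)) (mem_union_right _ hv) (hπ _))
            rw [tg, if_neg (disjoint_right.1 (hd ξ) hv)] at this
            exact ⟨this.1, _, this.2⟩
          obtain ⟨φ, c1, c2⟩ := hall subset_union_right (hXc ξ hξ) (hLc ξ hξ) π
            (fun v hv c => (b1 v hv c).1) (fun v hv c => (b2 v hv c).1) hg.1 hg.2
          have hφ : Cherry pr bl (X ξ) (Lf ξ) φ := ⟨fun x hx b => (c1 x hx b).1, fun x hx b => by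
            rcases (c1 x hx b).2 with ⟨c, hc⟩ | ⟨c, hc⟩
            · rw [← hc]; exact (b1 x hx c).2
            · have := (b2 _ (c1 x hx b).1 c).2
              rwa [hc, hpr.symm] at this, c2⟩
          obtain ⟨I, d1, d2⟩ := hG _ (mem_filter.2 ⟨mem_univ _, ξ, hξ, φ, hφ, rfl⟩)
          exact ⟨I, d1, φ, hφ, fun x hx b => (c1 x hx b).2, d2⟩
        refine (sum_le_sum s1).trans ?_
        rw [sum_comm]
        refine sum_le_sum fun I _ => ?_
        rw [mul_comm]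
        exact spread_le hpr v₀ Ξ U R X Cen Lf δ ω hcod hθ0 (by positivity) (by positivity) hθ
          (fun ξ _ => hd ξ) hXR (fun ξ _ => sdiff_subset) (fun ξ _ => hLU ξ) hδ hρ h1 h2 I)
    have h5 : Ex (fun _ => bern qc) (fun γ => ind (¬ ∃ ξ ∈ Ξ,
        Fac pr (B2 pr U bl (fun e => γ e = true)) (R ξ))) ≤
        Ex (fun _ => bern qc) (fun γ => ind (¬ ∃ S ∈ H, ∀ e ∈ S, γ e = true)) := by
      refine Ex_mono hPc.nonneg fun γ => ind_mono fun h ⟨S, hS, hγ⟩ => h ?_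
      obtain ⟨ξ, hξ, φ, hφ, rfl⟩ := (mem_filter.1 hS).2
      refine ⟨ξ, hξ, ?_⟩
      rw [← union_sdiff_of_subset (hXR ξ hξ)]
      exact fac_of_cherry hφ (hd ξ) (hLU ξ) (by rw [hLc ξ hξ, hXc ξ hξ]) hγ
    have h6 : Ex (fun _ => bern qc) (fun γ : E → Bool => ind (¬ ∃ S ∈ H, ∀ e ∈ S, γ e = true)) ≤ 1 :=
      Ex_le hPc fun _ => ind_le_one _
    have h7 := mul_le_mul_of_nonneg_left h6 (sub_nonneg.2 (hmass1 ω))
    linarith
  have hcod := cod_le hpr (isP_layers hq0 hq1) (fun z => ∃ l, z l = true) (p := p)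
    fun e => (layers_le (hq0 e) (hq1 e)).trans (hp e)
  rw [Ex_curry (fun j : E × Lay => bern (qe j.1))] at hcod ⊢
  refine (Ex_mono hP.nonneg key).trans ?_
  rw [Ex_add, Ex_add, Ex_sub, Ex_const hP, Ex_const hP, Ex_smul, Ex_sum]
  have h8 := card_nsmul_le_sum _ _ _ hmass
  rw [nsmul_eq_mul, ← le_inv_mul_iff₀ hΞ'] at h8
  linarith

end

end Pool.Agent.MP_81e6aa_pr
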