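import Pool.Agent.MP_81e6aa_pr.Hall

/-!
Random picks among the neighbours in a random graph.
-/

set_option autoImplicit false

namespace Pool.Agent.MP_81e6aa_pr

open Finset

noncomputable section

section Wit
variable {K V : Type} [Fintype K] [DecidableEq K] [Fintype V] [DecidableEq V] {w : K → V → ℝ}

lemma graph_le (hw : IsS w) (G : Finset (K × V)) :
    Ex w (fun π => ind (∀ p ∈ G, π p.1 = p.2)) ≤ ∏ p ∈ G, w p.1 p.2 := by
  have e1 : ∀ π : K → V, ind (∀ p ∈ G, π p.1 = p.2) =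
      ∏ κ, ∏ p ∈ G.filter (fun p => p.1 = κ), ind (π κ = p.2) := by
    intro π
    rw [ind_forall, ← prod_fiberwise G Prod.fst]
    exact prod_congr rfl fun κ _ => prod_congr rfl fun p hp => by rw [(mem_filter.1 hp).2]
  simp only [e1]
  rw [Ex_prod w (fun κ a => ∏ p ∈ G.filter (fun p => p.1 = κ), ind (a = p.2)),
    ← prod_fiberwise G Prod.fst]
  refine prod_le_prod (fun κ _ => sum_nonneg fun a _ => mul_nonneg (hw.nonneg _ _)
    (prod_nonneg fun _ _ => ind_nonneg _)) fun κ _ => ?_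
  rcases (G.filter fun p => p.1 = κ).eq_empty_or_nonempty with h | ⟨p₀, h⟩
  · rw [h]; simpa using hw.le κ
  · rw [sum_eq_single p₀.2]
    · by_cases h2 : ∀ p ∈ G.filter (fun p => p.1 = κ), p = p₀
      · have : G.filter (fun p => p.1 = κ) = {p₀} := eq_singleton_iff_unique_mem.2 ⟨h, h2⟩
        rw [this, prod_singleton, prod_singleton, ind_pos rfl, mul_one, (mem_filter.1 h).2]
      · push Not at h2
        obtain ⟨p, h3, h4⟩ := h2
        rw [prod_eq_zero h3 (ind_neg fun h5 => h4 (Prod.ext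
          ((mem_filter.1 h3).2.trans (mem_filter.1 h).2.symm) h5.symm)), mul_zero]
        exact prod_nonneg fun _ _ => hw.nonneg _ _
    · intro a _ ha
      rw [prod_eq_zero h (ind_neg ha), mul_zero]
    · simp

lemma req_le_aux (hw : IsS w) {ρ : Type} [DecidableEq ρ] (Wit : ρ → Finset (K × V))
    (Req : Finset ρ) : ∀ (_ : ∀ r ∈ Req, ∀ r' ∈ Req, ∀ p ∈ Wit r, p ∈ Wit r' → r = r')
    (G : Finset (K × V)) (_ : ∀ r ∈ Req, ∀ p ∈ Wit r, p ∉ G),
    Ex w (fun π => ind ((∀ p ∈ G, π p.1 = p.2) ∧ ∀ r ∈ Req, ∃ p ∈ Wit r, π p.1 = p.2)) ≤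
      (∏ p ∈ G, w p.1 p.2) * ∏ r ∈ Req, ∑ p ∈ Wit r, w p.1 p.2 := by
  induction Req using Finset.induction_on with
  | empty => intro _ G _; simpa using graph_le hw G
  | insert r Req hr ih =>
    intro hd G hG
    have s1 : ∀ π : K → V, ind ((∀ p ∈ G, π p.1 = p.2) ∧
        ∀ r' ∈ insert r Req, ∃ p ∈ Wit r', π p.1 = p.2) ≤ ∑ p₀ ∈ Wit r,
        ind ((∀ p ∈ insert p₀ G, π p.1 = p.2) ∧ ∀ r' ∈ Req, ∃ p ∈ Wit r', π p.1 = p.2) := by
      intro π
      refine le_trans (ind_mono ?_) (ind_exists_le _ _)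
      rintro ⟨h1, h2⟩
      obtain ⟨p₀, h3, h4⟩ := h2 r (mem_insert_self _ _)
      exact ⟨p₀, h3, forall_mem_insert _ _ _ |>.2 ⟨h4, h1⟩,
        fun r' hr' => h2 r' (mem_insert_of_mem hr')⟩
    refine (Ex_mono hw.nonneg s1).trans ?_
    rw [Ex_sum, prod_insert hr, sum_mul, mul_sum]
    refine sum_le_sum fun p₀ hp₀ => (ih (fun a ha b hb => hd a (mem_insert_of_mem ha) b
      (mem_insert_of_mem hb)) (insert p₀ G) fun r' hr' p hp => ?_).trans ?_
    · rw [mem_insert, not_or]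
      refine ⟨fun h => hr ?_, hG r' (mem_insert_of_mem hr') p hp⟩
      rw [hd r (mem_insert_self _ _) r' (mem_insert_of_mem hr') p₀ hp₀ (h ▸ hp)]
      exact hr'
    · rw [prod_insert (hG r (mem_insert_self _ _) p₀ hp₀)]
      exact le_of_eq (by ring)

lemma req_le (hw : IsS w) {ρ : Type} [DecidableEq ρ] (Wit : ρ → Finset (K × V))
    (Req : Finset ρ) (hd : ∀ r ∈ Req, ∀ r' ∈ Req, ∀ p ∈ Wit r, p ∈ Wit r' → r = r') :
    Ex w (fun π => ind (∀ r ∈ Req, ∃ p ∈ Wit r, π p.1 = p.2)) ≤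
      ∏ r ∈ Req, ∑ p ∈ Wit r, w p.1 p.2 := by
  simpa using req_le_aux hw Wit Req hd ∅ (by simp)

end Wit

variable {V E : Type} [Fintype V] [DecidableEq V] [Fintype E] [DecidableEq E]

/-- `pr x y` names the unordered pair `x y` -/
structure PairMap (pr : V → V → E) : Prop where
  symm : ∀ x y, pr x y = pr y x
  inj : ∀ x y x' y', x ≠ y → x' ≠ y' → pr x y = pr x' y' → (x = x' ∧ y = y') ∨ (x = y' ∧ y = x')

/-- layers of coins -/
abbrev Lay := Fin 60 × Bool

/-- centres pick leaves, leaves pick ordinary centres -/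
def tg (X Cen Lf : Finset V) (v : V) : Finset V := if v ∈ X then Lf else Cen

/-- the candidates of a pick -/
def nb (pr : V → V → E) (X Cen Lf : Finset V) (ω : E × Lay → Bool) (κ : V × Fin 60) : Finset V :=
  (tg X Cen Lf κ.1).filter fun a => ω (pr κ.1 a, (κ.2, decide (κ.1 ∈ X))) = true

/-- the weights of the picks -/
def pw (pr : V → V → E) (X Cen Lf : Finset V) (δ : V → ℝ) (ω : E × Lay → Bool)
    (κ : V × Fin 60) (a : V) : ℝ :=
  if κ.1 ∈ X ∪ Lf then
    ind (a ∈ nb pr X Cen Lf ω κ ∧ δ κ.1 ≤ (nb pr X Cen Lf ω κ).card) / (nb pr X Cen Lf ω κ).card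
  else ind (a = κ.1)

variable {pr : V → V → E} {X Cen Lf : Finset V} {δ : V → ℝ}

omit [Fintype V] [Fintype E] [DecidableEq E] in
lemma pw_nonneg (ω : E × Lay → Bool) (κ : V × Fin 60) (a : V) : 0 ≤ pw pr X Cen Lf δ ω κ a := by
  unfold pw; split_ifs
  · exact div_nonneg (ind_nonneg _) (by positivity)
  · exact ind_nonneg _

omit [Fintype E] [DecidableEq E] in
lemma pw_sum (hδ : ∀ v ∈ X ∪ Lf, 0 < δ v) (ω : E × Lay → Bool) (κ : V × Fin 60) :
    ∑ a, pw pr X Cen Lf δ ω κ a =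
      ind (κ.1 ∈ X ∪ Lf → δ κ.1 ≤ (nb pr X Cen Lf ω κ).card) := by
  unfold pw
  by_cases h : κ.1 ∈ X ∪ Lf
  · simp only [h, if_true, forall_const]
    by_cases h2 : δ κ.1 ≤ (nb pr X Cen Lf ω κ).card
    · simp only [h2, and_true, ind_pos trivial]
      rw [← sum_div, ← card_filter_eq_sum_ind, filter_mem_eq_inter, univ_inter]
      exact div_self (ne_of_gt ((hδ _ h).trans_le h2))
    · simp [h2, ind]
  · simp only [h, if_false, false_imp_iff, ind_pos trivial]
    rw [← card_filter_eq_sum_ind, filter_eq']; simp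

omit [Fintype E] [DecidableEq E] in
lemma pw_isS (hδ : ∀ v ∈ X ∪ Lf, 0 < δ v) (ω : E × Lay → Bool) : IsS (pw pr X Cen Lf δ ω) :=
  ⟨pw_nonneg ω, fun κ => by rw [pw_sum hδ]; exact ind_le_one _⟩

omit [Fintype V] [Fintype E] [DecidableEq E] in
lemma pw_le (hδ : ∀ v ∈ X ∪ Lf, 0 < δ v) (ω : E × Lay → Bool) {κ : V × Fin 60}
    (hκ : κ.1 ∈ X ∪ Lf) (a : V) :
    pw pr X Cen Lf δ ω κ a ≤ ind (a ∈ nb pr X Cen Lf ω κ) / δ κ.1 := by
  unfold pw
  rw [if_pos hκ]
  by_cases h : a ∈ nb pr X Cen Lf ω κ ∧ δ κ.1 ≤ (nb pr X Cen Lf ω κ).card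
  · rw [ind_pos h, ind_pos h.1]
    exact div_le_div_of_nonneg_left (by norm_num) (hδ _ hκ) h.2
  · rw [ind_neg h, zero_div]
    exact div_nonneg (ind_nonneg _) (hδ _ hκ).le

omit [Fintype V] [Fintype E] [DecidableEq E] in
lemma pw_supp {ω : E × Lay → Bool} {κ : V × Fin 60} (hκ : κ.1 ∈ X ∪ Lf) {a : V}
    (h : pw pr X Cen Lf δ ω κ a ≠ 0) : a ∈ nb pr X Cen Lf ω κ := by
  by_contra h2
  apply h
  unfold pw
  rw [if_pos hκ, ind_neg fun h3 => h2 h3.1, zero_div]

omit [Fintype V] in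
lemma not_mem_tg (hC : Cen ⊆ X) (hd : Disjoint X Lf) (v : V) : v ∉ tg X Cen Lf v := by
  unfold tg
  split_ifs with h
  · exact disjoint_left.1 hd h
  · exact fun h' => h (hC h')

omit [Fintype V] in
lemma ne_of_mem_tg (hC : Cen ⊆ X) (hd : Disjoint X Lf) {v a : V} (ha : a ∈ tg X Cen Lf v) :
    v ≠ a := fun e => not_mem_tg hC hd v (by rwa [← e] at ha)

lemma pos_left {a b : ℝ} (h : 0 < a * b) (hb : 0 ≤ b) : 0 < a := by
  by_contra h2
  nlinarith

/-- no violation of Hall's condition -/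
def Good (X Cen Lf : Finset V) (m : ℕ) (π : V × Fin 60 → V) : Prop :=
  ¬ Viol X Lf m (fun t => t / 2 + 1) π ∧ ¬ Viol Lf Cen (m / 2) (fun t => 2 * t + 1) π

lemma mass_ge (hpr : PairMap pr) {m : ℕ} (hm : 0 < m) (hC : Cen ⊆ X) (hd : Disjoint X Lf)
    (hX : X.card = m) (hL : Lf.card = 2 * m) (hCen : 7 * m ≤ 8 * Cen.card)
    {qe : E → ℝ} (hq0 : ∀ e, 0 ≤ qe e) (hq1 : ∀ e, qe e ≤ 1) {qv : V → ℝ}
    (hqv : ∀ v ∈ X ∪ Lf, ∀ a ∈ tg X Cen Lf v, qe (pr v a) = qv v)
    (hδ : ∀ v, δ v = 2 / 3 * (qv v * (tg X Cen Lf v).card)) {μ : ℝ} (hμ0 : 0 < μ)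
    (hμ : ∀ v ∈ X ∪ Lf, μ ≤ qv v * (tg X Cen Lf v).card) :
    1 - (Fintype.card V * 60 * Real.exp (-μ / 20) + 6 / m) ≤
      Ex (fun j : E × Lay => bern (qe j.1))
        (fun ω => Ex (pw pr X Cen Lf δ ω) (fun π => ind (Good X Cen Lf m π))) := by
  have hP : IsP (fun j : E × Lay => bern (qe j.1)) := isP_bern (fun _ => hq0 _) fun _ => hq1 _
  have hδ0 : ∀ v ∈ X ∪ Lf, 0 < δ v := fun v hv => by rw [hδ]; linarith [hμ v hv]
  have hm' : (0 : ℝ) < m := by exact_mod_cast hm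
  let wb : V × Fin 60 → V → ℝ := fun κ a =>
    Ex (fun j : E × Lay => bern (qe j.1)) (fun ω => pw pr X Cen Lf δ ω κ a)
  have hann : ∀ F : (V × Fin 60 → V) → ℝ, Ex (fun j : E × Lay => bern (qe j.1))
      (fun ω => Ex (pw pr X Cen Lf δ ω) F) = Ex wb F := by
    intro F
    have e1 : Ex (fun j : E × Lay => bern (qe j.1)) (fun ω => Ex (pw pr X Cen Lf δ ω) F) =
        ∑ π, Ex (fun j : E × Lay => bern (qe j.1))
          (fun ω => (∏ κ, pw pr X Cen Lf δ ω κ (π κ)) * F π) := by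
      rw [← Ex_sum]; rfl
    rw [e1]
    refine sum_congr rfl fun π _ => ?_
    rw [Ex_mul_const, Ex_prod_indep hP univ (fun κ i => ∃ a ∈ tg X Cen Lf κ.1,
      i = (pr κ.1 a, (κ.2, decide (κ.1 ∈ X)))) (fun κ ω => pw pr X Cen Lf δ ω κ (π κ))]
    · intro κ _ x y hxy
      have : nb pr X Cen Lf x κ = nb pr X Cen Lf y κ :=
        filter_congr fun a ha => by rw [hxy _ ⟨a, ha, rfl⟩]
      simp only [pw, this]
    · rintro ⟨v, c⟩ _ ⟨v', c'⟩ _ i ⟨a, ha, rfl⟩ ⟨a', ha', h⟩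
      simp only [Prod.mk.injEq, decide_eq_decide] at h ha ha' ⊢
      obtain ⟨h1, h2, h3⟩ := h
      have ht : tg X Cen Lf v = tg X Cen Lf v' := by unfold tg; simp only [h3]
      refine ⟨?_, h2⟩
      rcases hpr.inj _ _ _ _ (ne_of_mem_tg hC hd ha) (ne_of_mem_tg hC hd ha') h1 with h4 | h4
      · exact h4.1
      · exact absurd (ht ▸ h4.1 ▸ ha') (not_mem_tg hC hd v)
  have hsum : ∀ κ, ∑ a, wb κ a = Ex (fun j : E × Lay => bern (qe j.1))
      (fun ω => ind (κ.1 ∈ X ∪ Lf → δ κ.1 ≤ (nb pr X Cen Lf ω κ).card)) := by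
    intro κ
    rw [← Ex_sum]
    exact Ex_congr fun ω => pw_sum hδ0 ω κ
  have hS : IsS wb := ⟨fun κ a => Ex_nonneg hP.nonneg fun ω => pw_nonneg ω κ a,
    fun κ => by rw [hsum]; exact Ex_le hP fun _ => ind_le_one _⟩
  have hpt : ∀ v ∈ X ∪ Lf, ∀ c a, wb (v, c) a ≤ 3 / 2 / (tg X Cen Lf v).card := by
    intro v hv c a
    have h1 := hμ v hv
    refine (Ex_mono hP.nonneg fun ω => pw_le hδ0 ω (κ := (v, c)) hv a).trans ?_
    by_cases ha : a ∈ tg X Cen Lf v
    · have h2 := Ex_all _ hP {(pr v a, (c, decide (v ∈ X)))} (fun _ b => ind (b = true))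
      simp only [prod_singleton] at h2
      simp only [nb, mem_filter, ha, true_and, div_eq_mul_inv (ind _)]
      rw [Ex_mul_const, h2, hδ]
      have h3 : 0 < qv v * (tg X Cen Lf v).card := by linarith
      have h4 : 0 < qv v := pos_left h3 (by positivity)
      have h5 : (0 : ℝ) < (tg X Cen Lf v).card := by exact_mod_cast card_pos.2 ⟨a, ha⟩
      simp only [Fintype.sum_bool, bern, hqv v hv a ha, ind, if_true, Bool.false_eq_true, if_false]
      exact le_of_eq (by field_simp; ring)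
    · simp only [nb, mem_filter, ha, false_and, ind_neg not_false, zero_div, Ex_const hP]
      positivity
  have hA := viol_le hS X Lf hm' (fun t => t / 2 + 1) (by rw [hL]; push_cast; linarith)
    (fun t => by
      rw [hX]
      have : (t : ℝ) ≤ 2 * ((t / 2 + 1 : ℕ) : ℝ) := by exact_mod_cast (by omega)
      nlinarith) (fun t => by omega) (fun t => by omega) (fun v hv c a => by
      refine (hpt v (mem_union_left _ hv) c a).trans ?_
      rw [tg, if_pos hv, hL, div_le_div_iff₀ (by positivity) hm']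
      push_cast; linarith)
  have hCen' : 7 * (m : ℝ) ≤ 8 * Cen.card := by exact_mod_cast hCen
  have hB := viol_le hS Lf Cen (M := m / 2) (by positivity) (fun t => 2 * t + 1)
    (by have : (Cen.card : ℝ) ≤ m := by exact_mod_cast hX ▸ card_le_card hC
        linarith)
    (fun t => by rw [hL]; push_cast; nlinarith) (fun t => by omega) (fun t => by omega)
    (fun v hv c a => by
      refine (hpt v (mem_union_right _ hv) c a).trans ?_
      rw [tg, if_neg (disjoint_right.1 hd hv), div_le_div_iff₀ (by linarith) (by positivity)]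
      linarith)
  have hε : Real.exp (-μ / 20) ≤ 1 := Real.exp_le_one_iff.2 (by linarith)
  have hone : 1 - Fintype.card V * 60 * Real.exp (-μ / 20) ≤ Ex wb (fun _ => 1) := by
    rw [Ex_one]
    have h1 : ∀ κ, 1 - Real.exp (-μ / 20) ≤ ∑ a, wb κ a := by
      intro κ
      rw [hsum]
      by_cases hκ : κ.1 ∈ X ∪ Lf
      · have h2 := chernoff hP (tg X Cen Lf κ.1) (fun a => (pr κ.1 a, (κ.2, decide (κ.1 ∈ X))))
          (fun a ha a' ha' h => by
            rcases hpr.inj _ _ _ _ (ne_of_mem_tg hC hd ha) (ne_of_mem_tg hC hd ha')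
              (Prod.mk.inj h).1 with h4 | h4
            · exact h4.2
            · exact h4.2.trans h4.1) (fun b => b = true) (q := qv κ.1)
          (pos_left (hμ0.trans_le (hμ _ hκ)) (by positivity)).le
          (fun a ha => by simp [bern, ind, hqv _ hκ a ha])
        have h3 : Real.exp (-(qv κ.1 * (tg X Cen Lf κ.1).card) / 20) ≤ Real.exp (-μ / 20) :=
          Real.exp_le_exp.2 (by linarith [hμ _ hκ])
        simp only [hκ, forall_const, ← not_lt, Ex_not hP, hδ, nb]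
        linarith
      · simp only [hκ, false_imp_iff, ind_pos trivial, Ex_const hP]
        linarith [Real.exp_pos (-μ / 20)]
    have h2 := one_add_mul_le_pow (a := -Real.exp (-μ / 20)) (by linarith)
      (Fintype.card (V × Fin 60))
    have h3 : (1 - Real.exp (-μ / 20)) ^ Fintype.card (V × Fin 60) ≤ ∏ κ, ∑ a, wb κ a := by
      rw [← card_univ, ← prod_const]
      exact prod_le_prod (fun _ _ => by linarith) fun κ _ => h1 κ
    rw [Fintype.card_prod, Fintype.card_fin] at h2 h3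
    push_cast at h2
    rw [← sub_eq_add_neg] at h2
    linarith
  rw [hann]
  have h4 : Ex wb (fun π => 1 - (ind (Viol X Lf m (fun t => t / 2 + 1) π) +
      ind (Viol Lf Cen (m / 2) (fun t => 2 * t + 1) π))) ≤
      Ex wb (fun π => ind (Good X Cen Lf m π)) := by
    refine Ex_mono hS.nonneg fun π => ?_
    have := ind_or_le (Viol X Lf m (fun t => t / 2 + 1) π)
      (Viol Lf Cen (m / 2) (fun t => 2 * t + 1) π)
    rw [Good, ← not_or, ind_not]
    linarith
  rw [Ex_sub, Ex_add] at h4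
  have h5 : (2 : ℝ) / m + 2 / (m / 2) = 6 / m := by field_simp; ring
  linarith

omit [Fintype E] [DecidableEq E] in
lemma edges_le (hδ : ∀ v ∈ X ∪ Lf, 0 < δ v) (hd : Disjoint X Lf) (ω : E × Lay → Bool)
    (ρ : V → ℝ) (hρ : ∀ x ∈ X, ∀ y ∈ Lf, 60 / δ x + ind (x ∈ Cen) * (60 / δ y) ≤ ρ x)
    (Req : Finset (V × V)) (hR : ∀ p ∈ Req, p.1 ∈ X ∧ p.2 ∈ Lf) :
    Ex (pw pr X Cen Lf δ ω) (fun π => ind (∀ p ∈ Req, Pk π p.1 p.2)) ≤ ∏ p ∈ Req, ρ p.1 := by
  let Wit : V × V → Finset ((V × Fin 60) × V) := fun p =>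
    univ.image (fun c => ((p.1, c), p.2)) ∪ univ.image (fun c => ((p.2, c), p.1))
  have h1 := req_le (pw_isS (pr := pr) (Cen := Cen) hδ ω) Wit Req (by
    rintro ⟨x, y⟩ h ⟨x', y'⟩ h' p hp hp'
    have a1 := hR _ h
    have a2 := hR _ h'
    simp only [Wit, mem_union, mem_image, mem_univ, true_and] at hp hp' a1 a2
    rcases hp with ⟨c, rfl⟩ | ⟨c, rfl⟩ <;> rcases hp' with ⟨c', e⟩ | ⟨c', e⟩ <;>
      simp only [Prod.mk.injEq] at e ⊢
    · exact ⟨e.1.1.symm, e.2.symm⟩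
    · exact absurd (e.1.1 ▸ a2.2) (disjoint_left.1 hd a1.1)
    · exact absurd (e.1.1 ▸ a1.2) (disjoint_left.1 hd a2.1)
    · exact ⟨e.2.symm, e.1.1.symm⟩)
  refine le_trans (le_trans (Ex_mono (pw_nonneg ω) fun π => ind_mono fun h p hp => ?_) h1) ?_
  · rcases h p hp with ⟨c, hc⟩ | ⟨c, hc⟩
    · exact ⟨_, mem_union_left _ (mem_image_of_mem _ (mem_univ c)), hc⟩
    · exact ⟨_, mem_union_right _ (mem_image_of_mem _ (mem_univ c)), hc⟩
  refine prod_le_prod (fun _ _ => sum_nonneg fun _ _ => pw_nonneg ω _ _) fun p hp => ?_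
  obtain ⟨a1, a2⟩ := hR p hp
  refine le_trans ?_ (hρ _ a1 _ a2)
  have h2 := sum_union_inter (s₁ := univ.image (fun c : Fin 60 => ((p.1, c), p.2)))
    (s₂ := univ.image (fun c : Fin 60 => ((p.2, c), p.1)))
    (f := fun p => pw pr X Cen Lf δ ω p.1 p.2)
  have h3 : 0 ≤ ∑ p ∈ univ.image (fun c : Fin 60 => ((p.1, c), p.2)) ∩
      univ.image (fun c : Fin 60 => ((p.2, c), p.1)), pw pr X Cen Lf δ ω p.1 p.2 :=
    sum_nonneg fun _ _ => pw_nonneg ω _ _
  have h4 : ∑ p ∈ univ.image (fun c : Fin 60 => ((p.1, c), p.2)), pw pr X Cen Lf δ ω p.1 p.2 ≤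
      60 / δ p.1 := by
    rw [sum_image (fun c _ c' _ h => by simpa using h)]
    refine (sum_le_card_nsmul _ _ (1 / δ p.1) fun c _ => (pw_le hδ ω (κ := (p.1, c))
      (mem_union_left _ a1) _).trans (div_le_div_of_nonneg_right (ind_le_one _)
      (hδ _ (mem_union_left _ a1)).le)).trans (le_of_eq ?_)
    simp; ring
  have h5 : ∑ p ∈ univ.image (fun c : Fin 60 => ((p.2, c), p.1)), pw pr X Cen Lf δ ω p.1 p.2 ≤
      ind (p.1 ∈ Cen) * (60 / δ p.2) := by
    rw [sum_image (fun c _ c' _ h => by simpa using h)]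
    refine (sum_le_card_nsmul _ _ (ind (p.1 ∈ Cen) / δ p.2) fun c _ =>
      (pw_le hδ ω (κ := (p.2, c)) (mem_union_right _ a2) _).trans (div_le_div_of_nonneg_right
      (ind_mono fun h => ?_) (hδ _ (mem_union_right _ a2)).le)).trans (le_of_eq ?_)
    · have := (mem_filter.1 h).1
      rwa [tg, if_neg (disjoint_right.1 hd a2)] at this
    · simp; ring
  simp only [Wit]
  linarith

end

end Pool.Agent.MP_81e6aa_pr
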