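import Pool.Agent.MP_81e6aa_pr.Ex

/-!
From independent labels on the pairs to a strategy in the random order process.
-/

set_option autoImplicit false

namespace Pool.Agent.MP_81e6aa_pr

open Finset

noncomputable section

variable {E : Type} [Fintype E] [DecidableEq E]

lemma sum_emb_perm {t : ℕ} (σ₀ : Fin t ↪ E) (F : (Fin t ↪ E) → ℝ) :
    (∑ σ, F σ) * Fintype.card (Equiv.Perm E) =
      Fintype.card (Fin t ↪ E) * ∑ π : Equiv.Perm E, F (σ₀.trans π.toEmbedding) := by
  have h1 : ∀ π : Equiv.Perm E, ∑ σ, F σ = ∑ σ : Fin t ↪ E, F (σ.trans π.toEmbedding) := by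
    intro π
    let e : (Fin t ↪ E) ≃ (Fin t ↪ E) :=
      { toFun := fun σ => σ.trans π.toEmbedding
        invFun := fun σ => σ.trans π.symm.toEmbedding
        left_inv := fun σ => by ext i; simp
        right_inv := fun σ => by ext i; simp }
    exact (Equiv.sum_comp e F).symm
  have h2 : ∀ σ : Fin t ↪ E, ∑ π : Equiv.Perm E, F (σ.trans π.toEmbedding) =
      ∑ π : Equiv.Perm E, F (σ₀.trans π.toEmbedding) := by
    intro σ
    obtain ⟨τ, hτ⟩ := Equiv.Perm.exists_extending_pair σ₀ σ σ₀.injective σ.injective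
    rw [← Equiv.sum_comp (Equiv.mulRight τ) (fun π => F (σ₀.trans π.toEmbedding))]
    refine sum_congr rfl fun π _ => congrArg F ?_
    ext i; simp [hτ]
  calc (∑ σ, F σ) * Fintype.card (Equiv.Perm E) = ∑ _π : Equiv.Perm E, ∑ σ, F σ := by
        rw [sum_const, card_univ, nsmul_eq_mul, mul_comm]
    _ = ∑ π : Equiv.Perm E, ∑ σ : Fin t ↪ E, F (σ.trans π.toEmbedding) :=
        sum_congr rfl fun π _ => h1 π
    _ = ∑ σ : Fin t ↪ E, ∑ π : Equiv.Perm E, F (σ₀.trans π.toEmbedding) := by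
        rw [sum_comm]; exact sum_congr rfl fun σ _ => h2 σ
    _ = _ := by rw [sum_const, card_univ, nsmul_eq_mul]

omit [DecidableEq E] in
lemma exists_sorted (l : E → ℕ) {J t : ℕ} (hl : ∀ e, l e ≤ J) (ht : t ≤ Fintype.card E)
    (hc : (univ.filter fun e => l e < J).card ≤ t) :
    ∃ σ₀ : Fin t ↪ E, Monotone (fun i => l (σ₀ i)) ∧ ∀ e, (¬ ∃ i, σ₀ i = e) → l e = J := by
  let eq : Fin (Fintype.card E) ≃ E := (Fintype.equivFin E).symm
  let en : Fin (Fintype.card E) ≃ E := (Tuple.sort (l ∘ eq)).trans eq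
  have hm : Monotone (fun j => l (en j)) := Tuple.monotone_sort (l ∘ eq)
  refine ⟨(Fin.castLEEmb ht).trans en.toEmbedding, fun i j hij => hm hij, fun e he => ?_⟩
  obtain ⟨j, rfl⟩ := en.surjective e
  by_contra hne
  have h1 : l (en j) < J := lt_of_le_of_ne (hl _) hne
  have h2 := (Tuple.lt_card_lt_iff_apply_lt_of_monotone (a := J) (j := j) hm).2 h1
  have h3 : (univ.filter fun i => l (en i) < J).card = (univ.filter fun e => l e < J).card :=
    card_equiv en (by simp)
  exact he ⟨⟨j, by omega⟩, rfl⟩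

open Classical in
theorem transfer {α : Type} [Fintype α] {w : α → ℝ} (hw : IsP (fun _ : E => w)) (lab : α → ℕ)
    {J : ℕ} (hlab : ∀ a, lab a ≤ J) (buy : (E → ℕ) → E → Prop)
    (hb1 : ∀ l e, buy l e → l e < J)
    (hb2 : ∀ l l' e, l e = l' e → (∀ e', l e' < l e ∨ l' e' < l e → l e' = l' e') →
      buy l e → buy l' e)
    (Succ : (E → Prop) → Prop) (t b : ℕ) (ht : t ≤ Fintype.card E) :
    ∃ S : (Fin t ↪ E) → Finset (Fin t),
      (∀ (σ σ' : Fin t ↪ E) (i : Fin t), (∀ j, j ≤ i → σ j = σ' j) → (i ∈ S σ ↔ i ∈ S σ')) ∧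
      (∀ σ, (S σ).card ≤ b) ∧
      Ex (fun _ : E => w) (fun x => ind (Succ (buy fun e => lab (x e)) ∧
        (univ.filter (buy fun e => lab (x e))).card ≤ b ∧
        (univ.filter fun e => lab (x e) < J).card ≤ t)) * Fintype.card (Fin t ↪ E) ≤
        ∑ σ : Fin t ↪ E, ind (Succ fun e => ∃ i ∈ S σ, σ i = e) := by
  let G : (E → ℕ) → Prop := fun l => Succ (buy l) ∧ (univ.filter (buy l)).card ≤ b ∧
    (univ.filter fun e => l e < J).card ≤ t
  have hP : (0 : ℝ) < Fintype.card (Equiv.Perm E) := by exact_mod_cast Fintype.card_pos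
  obtain ⟨x₀, _, hx₀⟩ := exists_max_image univ
    (fun x : E → α => ∑ π : Equiv.Perm E, ind (G fun e => lab (x (π.symm e))))
    (by
      by_contra h
      rw [not_nonempty_iff_eq_empty] at h
      have := Ex_const hw 1
      simp [Ex, h] at this)
  have h1 : Ex (fun _ : E => w) (fun x => ind (G fun e => lab (x e))) *
      Fintype.card (Equiv.Perm E) ≤ ∑ π : Equiv.Perm E, ind (G fun e => lab (x₀ (π.symm e))) := by
    refine le_trans (le_of_eq ?_) (Ex_le hw fun x => hx₀ x (mem_univ _))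
    rw [Ex_sum, sum_congr rfl fun π _ => Ex_reindex π.symm (fun _ : E => w)
      (fun x => ind (G fun e => lab (x e))), sum_const, card_univ, nsmul_eq_mul, mul_comm]
  show ∃ S : (Fin t ↪ E) → Finset (Fin t), _ ∧ _ ∧
    Ex (fun _ : E => w) (fun x => ind (G fun e => lab (x e))) * _ ≤ _
  by_cases hc : (univ.filter fun e => lab (x₀ e) < J).card ≤ t
  swap
  · refine ⟨fun _ => ∅, by simp, by simp, le_trans ?_ (sum_nonneg fun _ _ => ind_nonneg _)⟩
    rw [sum_eq_zero fun π _ => ind_neg fun h => hc (le_trans (le_of_eq (card_equiv π (by simp)))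
      h.2.2)] at h1
    exact mul_nonpos_of_nonpos_of_nonneg (nonpos_of_mul_nonpos_left h1 hP) (by positivity)
  obtain ⟨σ₀, hmono, hout⟩ := exists_sorted (fun e => lab (x₀ e)) (fun e => hlab _) ht hc
  let L : (Fin t ↪ E) → E → ℕ := fun σ e =>
    if h : ∃ i, σ i = e then lab (x₀ (σ₀ h.choose)) else J
  have hL1 : ∀ σ i, L σ (σ i) = lab (x₀ (σ₀ i)) := by
    intro σ i
    have h : ∃ j, σ j = σ i := ⟨i, rfl⟩
    simp only [L, dif_pos h, σ.injective h.choose_spec]
  have hL2 : ∀ σ e, L σ e < J → ∃ i, σ i = e := by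
    intro σ e h
    by_contra h2
    simp only [L, dif_neg h2] at h
    exact lt_irrefl _ h
  have hL3 : ∀ π : Equiv.Perm E, L (σ₀.trans π.toEmbedding) = fun e => lab (x₀ (π.symm e)) := by
    intro π
    funext e
    by_cases h : ∃ i, (σ₀.trans π.toEmbedding) i = e
    · obtain ⟨i, rfl⟩ := h
      rw [hL1]; simp
    · simp only [L, dif_neg h]
      refine (hout _ ?_).symm
      rintro ⟨i, hi⟩
      exact h ⟨i, by simp [hi]⟩
  let S₀ : (Fin t ↪ E) → Finset (Fin t) := fun σ => univ.filter fun i => buy (L σ) (σ i)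
  have hS₀ : ∀ (σ σ' : Fin t ↪ E) (i : Fin t), (∀ j, j ≤ i → σ j = σ' j) →
      i ∈ S₀ σ → i ∈ S₀ σ' := by
    intro σ σ' i h hi
    simp only [S₀, mem_filter, mem_univ, true_and] at hi ⊢
    rw [← h i le_rfl]
    have hJ := hb1 _ _ hi
    refine hb2 _ _ _ (by rw [hL1, h i le_rfl, hL1]) (fun e' he' => ?_) hi
    rcases he' with he' | he'
    · obtain ⟨j, rfl⟩ := hL2 _ _ (he'.trans hJ)
      rw [hL1, hL1] at he'
      rw [hL1, h j (hmono.reflect_lt he').le, hL1]
    · obtain ⟨j, rfl⟩ := hL2 _ _ (he'.trans hJ)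
      rw [hL1, hL1] at he'
      rw [hL1, ← h j (hmono.reflect_lt he').le, hL1]
  have hS₀' : ∀ (σ σ' : Fin t ↪ E) (i : Fin t), (∀ j, j ≤ i → σ j = σ' j) →
      (i ∈ S₀ σ ↔ i ∈ S₀ σ') := fun σ σ' i h =>
    ⟨hS₀ σ σ' i h, hS₀ σ' σ i fun j hj => (h j hj).symm⟩
  refine ⟨fun σ => (S₀ σ).filter fun i => ((S₀ σ).filter (· < i)).card < b,
    fun σ σ' i h => ?_, fun σ => ?_, ?_⟩
  · have : (S₀ σ).filter (· < i) = (S₀ σ').filter (· < i) := by
      ext j
      rw [mem_filter (s := S₀ σ), mem_filter (s := S₀ σ')]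
      exact and_congr_left fun (hj : j < i) => hS₀' σ σ' j fun k hk => h k (hk.trans hj.le)
    beta_reduce
    rw [mem_filter (s := S₀ σ), mem_filter (s := S₀ σ'), this, hS₀' σ σ' i h]
  · refine le_trans ?_ (card_range b).le
    have hs : ∀ i ∈ S₀ σ, ∀ j, i < j →
        ((S₀ σ).filter (· < i)).card < ((S₀ σ).filter (· < j)).card := by
      intro i hi j hij
      refine card_lt_card ⟨fun k hk => ?_, fun h => ?_⟩
      · exact mem_filter.2 ⟨(mem_filter.1 hk).1, (mem_filter.1 hk).2.trans hij⟩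
      · exact lt_irrefl _ (mem_filter.1 (h (mem_filter.2 ⟨hi, hij⟩))).2
    refine card_le_card_of_injOn (fun i => ((S₀ σ).filter (· < i)).card)
      (fun i hi => mem_coe.2 (mem_range.2 (mem_filter.1 (mem_coe.1 hi)).2)) fun i hi j hj h => ?_
    rcases lt_trichotomy i j with h' | h' | h'
    · exact absurd h (hs i (mem_filter.1 (mem_coe.1 hi)).1 j h').ne
    · exact h'
    · exact absurd h (hs j (mem_filter.1 (mem_coe.1 hj)).1 i h').ne'
  · have h2 := sum_emb_perm σ₀ (fun σ => ind (G (L σ)))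
    simp only [hL3] at h2
    have h3 : Ex (fun _ : E => w) (fun x => ind (G fun e => lab (x e))) *
        Fintype.card (Fin t ↪ E) ≤ ∑ σ, ind (G (L σ)) := by
      refine le_of_mul_le_mul_right ?_ hP
      rw [h2, mul_right_comm, mul_comm]
      exact mul_le_mul_of_nonneg_left h1 (by positivity)
    refine h3.trans (sum_le_sum fun σ _ => ind_mono fun hG => ?_)
    have h4 : (S₀ σ).card ≤ b := by
      refine le_trans (card_le_card_of_injOn σ (fun i hi => ?_) σ.injective.injOn) hG.2.1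
      simpa [S₀] using hi
    have h5 : (fun e => ∃ i ∈ (S₀ σ).filter fun i => ((S₀ σ).filter (· < i)).card < b, σ i = e) =
        buy (L σ) := by
      funext e
      refine propext ⟨?_, fun h => ?_⟩
      · rintro ⟨i, hi, rfl⟩
        exact (mem_filter.1 (mem_filter.1 hi).1).2
      · obtain ⟨i, rfl⟩ := hL2 _ _ (hb1 _ _ h)
        have hi : i ∈ S₀ σ := mem_filter.2 ⟨mem_univ _, h⟩
        exact ⟨i, mem_filter.2 ⟨hi, lt_of_lt_of_le (card_lt_card
          (filter_ssubset.2 ⟨i, hi, lt_irrefl _⟩)) h4⟩, rfl⟩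
    rw [h5]
    exact hG.1

end

end Pool.Agent.MP_81e6aa_pr
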