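import Pool.Agent.MP_81e6aa_pr.Phase1
import Pool.Agent.MP_81e6aa_pr.Transfer

/-!
The strategy with five windows.
-/

set_option autoImplicit false

namespace Pool.Agent.MP_81e6aa_pr

open Finset

noncomputable section

variable {V E : Type} [Fintype V] [DecidableEq V] [Fintype E] [DecidableEq E]

/-- five coins for each pair -/
abbrev Seed := Bool × Bool × Bool × Bool × Bool

/-- the window in which the pair appears -/
def lab (z : Seed) : ℕ :=
  if z.1 then 0 else if z.2.1 then 1 else if z.2.2.1 then 2 else if z.2.2.2.1 then 3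
  else if z.2.2.2.2 then 4 else 5

/-- weights of the last three coins -/
def w3 (p₂ p : ℝ) (z : Bool × Bool × Bool) : ℝ := bern p₂ z.1 * (bern p z.2.1 * bern p z.2.2)

/-- weights of the coins -/
def w5 (q₁ p₂ p : ℝ) (z : Seed) : ℝ := bern q₁ z.1 * (bern p z.2.1 * w3 p₂ p z.2.2)

/-- the pair has an end in `U` -/
def touch (pr : V → V → E) (U : Finset V) (e : E) : Prop := ∃ x ∈ U, ∃ y, x ≠ y ∧ e = pr x y

open Classical in
/-- the set chosen after the first phase -/
def Uof (pr : V → V → E) (m : ℕ) (θ : ℝ) (B : E → Prop) : Finset V :=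
  if h : ∃ U, Ready pr B m θ U then h.choose else ∅

/-- bought in the first two windows -/
def B1 (pr : V → V → E) (l : E → ℕ) : E → Prop := B2 pr ∅ (fun e => l e = 0) (fun e => l e = 1)

/-- bought in the first four windows -/
def B3 (pr : V → V → E) (m : ℕ) (θ : ℝ) (l : E → ℕ) (e : E) : Prop :=
  B1 pr l e ∨ l e = 2 ∨ (l e = 3 ∧ touch pr (Uof pr m θ (B1 pr l)) e)

/-- bought -/
def buy (pr : V → V → E) (m : ℕ) (θ : ℝ) (l : E → ℕ) : E → Prop :=
  B2 pr ∅ (B3 pr m θ l) (fun e => l e = 4)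

variable {pr : V → V → E} {m : ℕ} {θ : ℝ}

lemma lab_le (z : Seed) : lab z ≤ 5 := by unfold lab; split_ifs <;> omega

omit [Fintype E] [DecidableEq E] in
lemma Uof_card (B : E → Prop) : 8 * (Uof pr m θ B).card ≤ m := by
  unfold Uof
  split_ifs with h
  · exact h.choose_spec.1
  · simp

omit [Fintype E] [DecidableEq E] in
lemma Uof_ready {B : E → Prop} (h : ∃ U, Ready pr B m θ U) : Ready pr B m θ (Uof pr m θ B) := by
  unfold Uof
  rw [dif_pos h]
  exact h.choose_spec

omit [Fintype E] [DecidableEq E] in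
lemma B3_lt {l : E → ℕ} {e : E} (h : B3 pr m θ l e) : l e < 4 := by
  rcases h with (h | h) | h | h
  · omega
  · have := h.1; omega
  · omega
  · have := h.1; omega

omit [Fintype E] [DecidableEq E] in
lemma buy_lt (l : E → ℕ) (e : E) (h : buy pr m θ l e) : l e < 5 := by
  rcases h with h | h
  · have := B3_lt h; omega
  · have := h.1; omega

omit [Fintype E] [DecidableEq E] in
lemma level_eq {l l' : E → ℕ} {j i : ℕ} (h : ∀ e', l e' < j ∨ l' e' < j → l e' = l' e')
    (hi : i < j) : (fun e => l e = i) = fun e => l' e = i := by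
  funext e
  have := h e
  exact propext ⟨fun h1 => by omega, fun h1 => by omega⟩

omit [Fintype E] [DecidableEq E] in
lemma buy_causal (l l' : E → ℕ) (e : E) (he : l e = l' e)
    (h : ∀ e', l e' < l e ∨ l' e' < l e → l e' = l' e') (hb : buy pr m θ l e) :
    buy pr m θ l' e := by
  have h1 : 1 < l e → B1 pr l = B1 pr l' := fun h2 => by
    unfold B1
    rw [level_eq h (show 0 < l e by omega), level_eq h h2]
  rcases hb with ((hb | hb) | hb | hb) | hb
  · exact Or.inl (Or.inl (Or.inl (he.symm.trans hb)))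
  · refine Or.inl (Or.inl (Or.inr ⟨he.symm.trans hb.1, ?_⟩))
    rw [← level_eq h (show 0 < l e by have := hb.1; omega)]
    exact hb.2
  · exact Or.inl (Or.inr (Or.inl (he.symm.trans hb)))
  · refine Or.inl (Or.inr (Or.inr ⟨he.symm.trans hb.1, ?_⟩))
    rw [← h1 (by have := hb.1; omega)]
    exact hb.2
  · refine Or.inr ⟨he.symm.trans hb.1, ?_⟩
    have h4 : l e = 4 := hb.1
    have : B3 pr m θ l = B3 pr m θ l' := by
      funext e'
      unfold B3
      rw [h1 (by omega), congrFun (level_eq h (show 2 < l e by omega)) e',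
        congrFun (level_eq h (show 3 < l e by omega)) e']
    rw [← this]
    exact hb.2

omit [Fintype V] [DecidableEq V] [Fintype E] [DecidableEq E] in
lemma B1_eq (a c : E → Bool) (z : E → Bool × Bool × Bool) :
    B1 pr (fun e => lab (a e, c e, z e)) = B2 pr ∅ (fun e => a e = true) (fun e => c e = true) := by
  have h0 : (fun e => lab (a e, c e, z e) = 0) = fun e => a e = true := by
    funext e; unfold lab; split_ifs <;> simp_all
  funext e
  unfold B1 B2
  simp only [congrFun h0]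
  refine propext ?_
  cases ha : a e
  · have : lab (false, c e, z e) = 1 ↔ c e = true := by unfold lab; split_ifs <;> simp_all
    simp only [this]
  · simp

/-- the pair closes a cherry -/
def Clo (pr : V → V → E) (B : E → Prop) (e : E) : Prop :=
  ∃ x y z, x ≠ y ∧ x ≠ z ∧ y ≠ z ∧ y ∉ (∅ : Finset V) ∧ z ∉ (∅ : Finset V) ∧ e = pr y z ∧
    B (pr x y) ∧ B (pr x z)

omit [Fintype V] [DecidableEq V] [Fintype E] [DecidableEq E] in
lemma B2_splice (a : E → Prop) (c c' : E → Bool) :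
    B2 pr ∅ a (fun e => splice (Clo pr a) c c' e = true) = B2 pr ∅ a (fun e => c e = true) := by
  funext e
  unfold B2
  refine propext (or_congr_right (and_congr_left fun h => ?_))
  have h' : Clo pr a e := h
  simp [splice, h']

omit [Fintype E] [DecidableEq E] in
lemma isP_w3 {p₂ p : ℝ} (h1 : 0 ≤ p₂) (h2 : p₂ ≤ 1) (h3 : 0 ≤ p) (h4 : p ≤ 1) :
    IsP (fun _ : E => w3 p₂ p) :=
  (isP_bern (fun _ => h1) fun _ => h2).pair
    ((isP_bern (fun _ => h3) fun _ => h4).pair (isP_bern (fun _ => h3) fun _ => h4))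

omit [Fintype E] [DecidableEq E] in
lemma isP_w5 {q₁ p₂ p : ℝ} (h5 : 0 ≤ q₁) (h6 : q₁ ≤ 1) (h1 : 0 ≤ p₂) (h2 : p₂ ≤ 1) (h3 : 0 ≤ p)
    (h4 : p ≤ 1) : IsP (fun _ : E => w5 q₁ p₂ p) :=
  (isP_bern (fun _ => h5) fun _ => h6).pair
    ((isP_bern (fun _ => h3) fun _ => h4).pair (isP_w3 h1 h2 h3 h4))

lemma Ex_w5 {q₁ p₂ p : ℝ} (F : (E → Seed) → ℝ) :
    Ex (fun _ => w5 q₁ p₂ p) F = Ex (fun _ => bern q₁) (fun a : E → Bool =>
      Ex (fun _ => bern p) (fun c : E → Bool => Ex (fun _ => w3 p₂ p)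
        (fun z => F fun e => (a e, c e, z e)))) := by
  refine (Ex_pair (fun _ : E => bern q₁) (fun _ (y : Bool × Bool × Bool × Bool) =>
    bern p y.1 * w3 p₂ p y.2) F).trans (Ex_congr fun a => ?_)
  exact Ex_pair (fun _ : E => bern p) (fun _ : E => w3 p₂ p) _

lemma pair_dom {q qc p₂ p : ℝ} (T : Prop) (hq0 : 0 ≤ q) (hqc0 : 0 ≤ qc) (hp : p ≤ 1 / 10)
    (hp₂ : p₂ ≤ p) (hp₂0 : 0 ≤ p₂) (hT : T → 240 * q ≤ p) (hT' : ¬ T → 240 * q ≤ p₂)
    (hqc : 2 * qc ≤ p) (g : (Lay → Bool) × Bool → ℝ) (h : Bool × Bool × Bool × Bool → ℝ)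
    (hgh : ∀ a b, ((((∃ l, a.1 l = true) ∨ (a.2 = true ∧ ¬ T)) →
        (b.1 = false ∧ (b.2.1 = true ∨ (T ∧ b.2.2.1 = true) ∨
          (¬ T ∧ b.2.2.1 = false ∧ b.2.2.2 = true)))) ∧
      ((∃ l, a.1 l = true) → (b.1 = false ∧ (b.2.1 = true ∨ (T ∧ b.2.2.1 = true))))) →
      g a ≤ h b) :
    ∑ a : (Lay → Bool) × Bool, (∏ l, bern q (a.1 l)) * bern qc a.2 * g a ≤
      ∑ b : Bool × Bool × Bool × Bool, bern p b.1 * w3 p₂ p b.2 * h b := by
  have hp0 : 0 ≤ p := hp₂0.trans hp₂
  have hq1 : q ≤ 1 := by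
    by_cases hT0 : T
    · linarith [hT hT0]
    · linarith [hT' hT0]
  have hu := (isP_layers (E := Unit) (qe := fun _ => q) (fun _ => hq0) fun _ => hq1).pair
    (isP_bern (q := fun _ => qc) (fun _ => hqc0) fun _ => by linarith)
  have hv := (isP_bern (I := Unit) (q := fun _ => p) (fun _ => hp0) fun _ => by linarith).pair
    (isP_w3 hp₂0 (by linarith) hp0 (by linarith))
  have hs := (isP_layers (E := Unit) (qe := fun _ => q) (fun _ => hq0) fun _ => hq1).sum ()
  have hA2 : ∑ a : (Lay → Bool) × Bool, (∏ l, bern q (a.1 l)) * bern qc a.2 *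
      ind (∃ l, a.1 l = true) ≤ 120 * q := by
    refine le_trans (le_of_eq ?_) (layers_le hq0 hq1)
    rw [Fintype.sum_prod_type]
    refine sum_congr rfl fun z _ => ?_
    simp only [Fintype.sum_bool, bern, if_true, Bool.false_eq_true, if_false]
    ring
  have hA3 : ∑ a : (Lay → Bool) × Bool, (∏ l, bern q (a.1 l)) * bern qc a.2 *
      ind (a.2 = true) = qc := by
    rw [Fintype.sum_prod_type]
    refine (sum_congr rfl fun z _ => ?_).trans (by rw [← sum_mul, hs, one_mul])
    simp [bern, ind]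
  refine dom_two _ _ (hu.nonneg ()) (hv.nonneg ()) (hu.sum ()) (hv.sum ()) _ _ _ _
    (fun a h => Or.inl h) (fun b h => ⟨h.1, h.2.imp_right Or.inl⟩) (fun _ => false, false)
    (by simp) ?_ (hA2.trans ?_) g h hgh
  · by_cases hT0 : T
    · simp only [hT0, not_true_eq_false, and_false, or_false, false_and, true_and]
      refine hA2.trans ?_
      simp [Fintype.sum_prod_type, bern, w3, ind]
      nlinarith [hT hT0, mul_nonneg hp₂0 (sub_nonneg.2 hp), mul_nonneg hp0 (sub_nonneg.2 hp),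
        mul_nonneg (mul_nonneg hp₂0 hp0) hp0]
    · have h1 : ∑ a : (Lay → Bool) × Bool, (∏ l, bern q (a.1 l)) * bern qc a.2 *
          ind ((∃ l, a.1 l = true) ∨ (a.2 = true ∧ ¬ T)) ≤ 120 * q + qc := by
        refine le_trans (sum_le_sum fun a _ => mul_le_mul_of_nonneg_left
          (ind_or_le _ _) (hu.nonneg () a)) ?_
        simp only [hT0, not_false_eq_true, and_true, mul_add, sum_add_distrib]
        linarith
      refine h1.trans ?_
      have e : ∑ b : Bool × Bool × Bool × Bool, bern p b.1 * w3 p₂ p b.2 *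
          ind (b.1 = false ∧ (b.2.1 = true ∨ (T ∧ b.2.2.1 = true) ∨
          (¬ T ∧ b.2.2.1 = false ∧ b.2.2.2 = true))) =
          (1 - p) * p₂ + (1 - p) * (1 - p₂) * (1 - p) * p := by
        simp [Fintype.sum_prod_type, bern, w3, ind, hT0]; ring
      rw [e]
      have a1 : 9 / 10 * (9 / 10) ≤ (1 - p) * (1 - p₂) :=
        mul_le_mul (by linarith) (by linarith) (by norm_num) (by linarith)
      have a2 : 9 / 10 * (9 / 10) * (9 / 10) ≤ (1 - p) * (1 - p₂) * (1 - p) :=
        mul_le_mul a1 (by linarith) (by norm_num) (by linarith)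
      nlinarith [hT' hT0]
  · by_cases hT0 : T
    · simp [Fintype.sum_prod_type, bern, w3, ind, hT0]
      nlinarith [hT hT0, mul_nonneg hp₂0 (sub_nonneg.2 hp), mul_nonneg hp0 (sub_nonneg.2 hp),
        mul_nonneg (mul_nonneg hp₂0 hp0) hp0]
    · simp [Fintype.sum_prod_type, bern, w3, ind, hT0]
      nlinarith [hT' hT0, mul_nonneg hp₂0 (sub_nonneg.2 hp)]

end

end Pool.Agent.MP_81e6aa_pr
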