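import Pool.Agent.MP_81e6aa_pr.Fac

/-!
The closing pairs of the random cherry factor are spread.
-/

set_option autoImplicit false

namespace Pool.Agent.MP_81e6aa_pr

open Finset

noncomputable section

variable {V E : Type} [Fintype V] [DecidableEq V] [Fintype E] [DecidableEq E]

/-- `φ` attaches two leaves to each centre -/
structure Cherry (pr : V → V → E) (bl : E → Prop) (X Lf : Finset V) (φ : V × Bool → V) :
    Prop where
  mem : ∀ x ∈ X, ∀ b, φ (x, b) ∈ Lf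
  adj : ∀ x ∈ X, ∀ b, bl (pr x (φ (x, b)))
  inj : ∀ x ∈ X, ∀ x' ∈ X, ∀ b b', φ (x, b) = φ (x', b') → x = x' ∧ b = b'

/-- the closing pairs -/
def closing (pr : V → V → E) (X : Finset V) (φ : V × Bool → V) : Finset E :=
  X.image fun x => pr (φ (x, false)) (φ (x, true))

/-- `I` consists of closing pairs of a cherry factor all of whose edges were picked -/
def Str (pr : V → V → E) (bl : E → Prop) (X Lf : Finset V) (I : Finset E)
    (π : V × Fin 60 → V) : Prop :=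
  ∃ φ, Cherry pr bl X Lf φ ∧ (∀ x ∈ X, ∀ b, Pk π x (φ (x, b))) ∧ I ⊆ closing pr X φ

variable {pr : V → V → E}

omit [Fintype V] [DecidableEq V] [Fintype E] [DecidableEq E] in
lemma exists_ends (pr : V → V → E) (v₀ : V) : ∃ en : E → Bool → V, ∀ y z, y ≠ z →
    en (pr y z) false ≠ en (pr y z) true ∧ pr (en (pr y z) false) (en (pr y z) true) = pr y z := by
  have : ∀ e : E, ∃ f : Bool → V, (∃ y z, y ≠ z ∧ pr y z = e) →
      f false ≠ f true ∧ pr (f false) (f true) = e := by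
    intro e
    by_cases h : ∃ y z, y ≠ z ∧ pr y z = e
    · obtain ⟨y, z, h⟩ := h
      exact ⟨fun b => if b then z else y, fun _ => by simpa using h⟩
    · exact ⟨fun _ => v₀, fun h' => absurd h' h⟩
  choose en hen using this
  exact ⟨en, fun y z h => hen _ ⟨y, z, h, rfl⟩⟩

/-- the three vertices attached to a closing pair -/
def vx (en : E → Bool → V) (f : E → V) (p : E × Option Bool) : V :=
  match p.2 with
  | none => f p.1
  | some c => en p.1 c

omit [Fintype E] in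
lemma str_imp (hpr : PairMap pr) {en : E → Bool → V} (hen : ∀ y z, y ≠ z →
    en (pr y z) false ≠ en (pr y z) true ∧ pr (en (pr y z) false) (en (pr y z) true) = pr y z)
    {bl : E → Prop} {X Lf : Finset V} (hd : Disjoint X Lf) {I : Finset E} {π : V × Fin 60 → V}
    (h : Str pr bl X Lf I π) : ∃ f : E → V,
      (∀ e, f e ∈ if e ∈ I then cn pr bl (en e false) (en e true) else {en e false}) ∧
      Set.InjOn (vx en f) (I ×ˢ (univ : Finset (Option Bool)) : Finset _) ∧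
      ∀ e ∈ I, f e ∈ X ∧ ∀ c, en e c ∈ Lf ∧ Pk π (f e) (en e c) := by
  obtain ⟨φ, hφ, hpk, hI⟩ := h
  have h1 : ∀ e, ∃ x : V, ∃ b : Bool, (e ∉ I → x = en e false) ∧ (e ∈ I → x ∈ X ∧
      e = pr (φ (x, false)) (φ (x, true)) ∧ ∀ c, en e c = φ (x, xor c b)) := by
    intro e
    by_cases he : e ∈ I
    · obtain ⟨x, hx, rfl⟩ := mem_image.1 (hI he)
      have hne : φ (x, false) ≠ φ (x, true) := fun h => by simpa using (hφ.inj x hx x hx _ _ h).2
      obtain ⟨a1, a2⟩ := hen _ _ hne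
      rcases hpr.inj _ _ _ _ a1 hne a2 with h | h
      · exact ⟨x, false, fun h' => absurd he h', fun _ => ⟨hx, rfl, fun c => by
          cases c <;> simp [h.1, h.2]⟩⟩
      · exact ⟨x, true, fun h' => absurd he h', fun _ => ⟨hx, rfl, fun c => by
          cases c <;> simp [h.1, h.2]⟩⟩
    · exact ⟨_, false, fun _ => rfl, fun h => absurd h he⟩
  choose f be h1 h2 using h1
  have hne : ∀ e ∈ I, ∀ e' ∈ I, ∀ c, f e ≠ en e' c := fun e he e' he' c h =>
    disjoint_left.1 hd (h2 e he).1 (by rw [h, (h2 e' he').2.2]; exact hφ.mem _ (h2 e' he').1 _)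
  have hinj : ∀ e ∈ I, ∀ e' ∈ I, f e = f e' → e = e' := fun e he e' he' h => by
    rw [(h2 e he).2.1, (h2 e' he').2.1, h]
  refine ⟨f, fun e => ?_, ?_, fun e he => ⟨(h2 e he).1, fun c => ?_⟩⟩
  · split_ifs with he
    · refine mem_cn.2 ⟨fun h => ?_, hne e he e he _, hne e he e he _, ?_, ?_⟩
      · rw [(h2 e he).2.2, (h2 e he).2.2] at h
        simpa using (hφ.inj _ (h2 e he).1 _ (h2 e he).1 _ _ h).2
      · rw [(h2 e he).2.2]; exact hφ.adj _ (h2 e he).1 _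
      · rw [(h2 e he).2.2]; exact hφ.adj _ (h2 e he).1 _
    · rw [h1 e he]; exact mem_singleton_self _
  · rintro ⟨e, o⟩ he ⟨e', o'⟩ he' h
    have he := (mem_product.1 (mem_coe.1 he)).1
    have he' := (mem_product.1 (mem_coe.1 he')).1
    cases o <;> cases o' <;> simp only [vx] at h
    · rw [hinj e he e' he' h]
    · exact absurd h (hne e he e' he' _)
    · exact absurd h.symm (hne e' he' e he _)
    · rw [(h2 e he).2.2, (h2 e' he').2.2] at h
      obtain ⟨a1, a2⟩ := hφ.inj _ (h2 e he).1 _ (h2 e' he').1 _ _ h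
      obtain rfl := hinj e he e' he' a1
      simpa using a2
  · rw [(h2 e he).2.2]
    exact ⟨hφ.mem _ (h2 e he).1 _, hpk _ (h2 e he).1 _⟩

lemma spread_le (hpr : PairMap pr) (v₀ : V) {ι : Type} (Ξ : Finset ι) (U : Finset V)
    (R X Cen Lf : ι → Finset V) (δ : ι → V → ℝ) (ω : E × Lay → Bool) {bl : E → Prop}
    (hcod : Cod pr bl) {θ ρU ρ' r₀ : ℝ} (hθ0 : 0 ≤ θ) (hρU : 0 ≤ ρU) (hρ' : 0 ≤ ρ')
    (hθ : ∀ U' : Finset V, Disjoint U' U →
      ∑ ξ ∈ Ξ, ind (U' ⊆ R ξ) ≤ θ ^ U'.card * Ξ.card)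
    (hd : ∀ ξ ∈ Ξ, Disjoint (X ξ) (Lf ξ)) (hX : ∀ ξ ∈ Ξ, X ξ ⊆ R ξ) (hL : ∀ ξ ∈ Ξ, Lf ξ ⊆ R ξ)
    (hLU : ∀ ξ ∈ Ξ, Disjoint (Lf ξ) U) (hδ : ∀ ξ ∈ Ξ, ∀ v ∈ X ξ ∪ Lf ξ, 0 < δ ξ v)
    (hρ : ∀ ξ ∈ Ξ, ∀ x ∈ X ξ, ∀ y ∈ Lf ξ,
      60 / δ ξ x + ind (x ∈ Cen ξ) * (60 / δ ξ y) ≤ if x ∈ U then ρU else ρ')
    (h1 : θ ^ 2 * ρU ^ 2 ≤ r₀) (h2 : θ ^ 3 * ρ' ^ 2 ≤ r₀) (I : Finset E) :
    ∑ ξ ∈ Ξ, Ex (pw pr (X ξ) (Cen ξ) (Lf ξ) (δ ξ) ω)
      (fun π => ind (Str pr bl (X ξ) (Lf ξ) I π)) ≤ (6 * r₀) ^ I.card * Ξ.card := by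
  obtain ⟨en, hen⟩ := exists_ends pr v₀
  have hr₀ : 0 ≤ r₀ := le_trans (by positivity) h1
  let Fs : Finset (E → V) := Fintype.piFinset fun e =>
    if e ∈ I then cn pr bl (en e false) (en e true) else {en e false}
  have hFs : (Fs.card : ℝ) ≤ 6 ^ I.card := by
    have : Fs.card ≤ ∏ e, (if e ∈ I then 6 else 1) := by
      rw [Fintype.card_piFinset]
      refine prod_le_prod' fun e _ => ?_
      split_ifs
      · exact hcod _ _
      · simp
    rw [prod_ite_mem, univ_inter, prod_const] at this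
    exact_mod_cast this
  let Val : (E → V) → Prop := fun f =>
    Set.InjOn (vx en f) (I ×ˢ (univ : Finset (Option Bool)) : Finset _) ∧ ∀ e ∈ I, ∀ c, en e c ∉ U
  let U' : (E → V) → Finset V := fun f =>
    ((I ×ˢ (univ : Finset (Option Bool))).filter fun p => vx en f p ∉ U).image (vx en f)
  let Req : (E → V) → Finset (V × V) := fun f =>
    (I ×ˢ (univ : Finset Bool)).image fun p => (f p.1, en p.1 p.2)
  let ρ : V → ℝ := fun x => if x ∈ U then ρU else ρ'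
  have hρ0 : ∀ x, 0 ≤ ρ x := fun x => by simp only [ρ]; split_ifs <;> assumption
  have s1 : ∀ ξ ∈ Ξ, Ex (pw pr (X ξ) (Cen ξ) (Lf ξ) (δ ξ) ω)
      (fun π => ind (Str pr bl (X ξ) (Lf ξ) I π)) ≤
      ∑ f ∈ Fs, ind (Val f) * (∏ p ∈ Req f, ρ p.1) * ind (U' f ⊆ R ξ) := by
    intro ξ hξ
    have s2 : ∀ π, ind (Str pr bl (X ξ) (Lf ξ) I π) ≤ ∑ f ∈ Fs,
        (ind (Val f) * ind (U' f ⊆ R ξ) * ind (∀ p ∈ Req f, p.1 ∈ X ξ ∧ p.2 ∈ Lf ξ)) *
          ind (∀ p ∈ Req f, Pk π p.1 p.2) := by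
      intro π
      simp only [← ind_and]
      refine le_trans (ind_mono fun h => ?_) (ind_exists_le _ _)
      obtain ⟨f, a1, a2, a3⟩ := str_imp hpr hen (hd ξ hξ) h
      refine ⟨f, Fintype.mem_piFinset.2 a1, ⟨⟨⟨a2, fun e he c =>
        disjoint_left.1 (hLU ξ hξ) ((a3 e he).2 c).1⟩, fun v hv => ?_⟩, fun p hp => ?_⟩,
        fun p hp => ?_⟩
      · obtain ⟨⟨e, o⟩, b1, rfl⟩ := mem_image.1 hv
        have he := (mem_product.1 (mem_filter.1 b1).1).1
        cases o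
        · exact hX ξ hξ (a3 e he).1
        · exact hL ξ hξ ((a3 e he).2 _).1
      · obtain ⟨⟨e, c⟩, b1, rfl⟩ := mem_image.1 hp
        have he := (mem_product.1 b1).1
        exact ⟨(a3 e he).1, ((a3 e he).2 c).1⟩
      · obtain ⟨⟨e, c⟩, b1, rfl⟩ := mem_image.1 hp
        exact ((a3 e (mem_product.1 b1).1).2 c).2
    refine (Ex_mono (pw_nonneg ω) s2).trans ?_
    rw [Ex_sum]
    refine sum_le_sum fun f _ => ?_
    rw [Ex_smul]
    by_cases hr : ∀ p ∈ Req f, p.1 ∈ X ξ ∧ p.2 ∈ Lf ξ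
    · rw [ind_pos hr, mul_one, mul_right_comm]
      refine mul_le_mul_of_nonneg_right (mul_le_mul_of_nonneg_left ?_ (ind_nonneg _))
        (ind_nonneg _)
      exact edges_le (hδ ξ hξ) (hd ξ hξ) ω ρ (hρ ξ hξ) _ hr
    · rw [ind_neg hr, mul_zero, zero_mul]
      exact mul_nonneg (mul_nonneg (ind_nonneg _) (prod_nonneg fun _ _ => hρ0 _)) (ind_nonneg _)
  refine (sum_le_sum s1).trans ?_
  rw [sum_comm, mul_pow, mul_assoc]
  refine (sum_le_card_nsmul _ _ (r₀ ^ I.card * Ξ.card) fun f _ => ?_).trans ?_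
  swap
  · rw [nsmul_eq_mul]
    exact mul_le_mul_of_nonneg_right hFs (by positivity)
  rw [← mul_sum]
  by_cases hv : Val f
  swap
  · rw [ind_neg hv, zero_mul, zero_mul]; positivity
  rw [ind_pos hv, one_mul]
  have e1 : ∏ p ∈ Req f, ρ p.1 = ∏ e ∈ I, ρ (f e) ^ 2 := by
    rw [prod_image, prod_product]
    · exact prod_congr rfl fun e _ => by simp
    · rintro ⟨e, c⟩ he ⟨e', c'⟩ he' h
      have : (e, some c) = (e', some c') := hv.1
        (by simpa using he) (by simpa using he') (Prod.mk.inj h).2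
      simpa using this
  have e2 : θ ^ (U' f).card = ∏ e ∈ I, (if f e ∈ U then 1 else θ) * θ ^ 2 := by
    rw [card_image_of_injOn (hv.1.mono (coe_subset.2 (filter_subset _ _))), ← prod_const,
      prod_filter, prod_product]
    refine prod_congr rfl fun e he => ?_
    rw [Fintype.prod_option]
    by_cases h : f e ∈ U <;> simp [vx, hv.2 e he, h]
  have e3 := hθ (U' f) (disjoint_left.2 fun v hv' => by
    obtain ⟨p, b1, rfl⟩ := mem_image.1 hv'
    exact (mem_filter.1 b1).2)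
  refine (mul_le_mul_of_nonneg_left e3 (prod_nonneg fun _ _ => hρ0 _)).trans ?_
  rw [← mul_assoc, e1, e2, ← prod_mul_distrib, ← prod_const]
  refine mul_le_mul_of_nonneg_right (prod_le_prod (fun e _ => mul_nonneg (by positivity)
    (mul_nonneg (by split_ifs <;> positivity) (by positivity))) fun e _ => ?_) (by positivity)
  simp only [ρ]
  split_ifs
  · linarith
  · linarith

end

end Pool.Agent.MP_81e6aa_pr
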